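import Pool.Agent.MP_00acf4_nt.Mg.Clus

-- part MP_00acf4_nt.Diag
section

/-!
The diagonal terms and the choice of the short scale.
-/

set_option autoImplicit false

namespace Pool.Agent.MP_00acf4_nt

open Finset Function Pool.Agent.MP_a96b63_al
open scoped BigOperators

lemma inv_sq_sum (k : ℕ) : ∑ i ∈ range k, (((i + 1 : ℕ) : ℝ) ^ 2)⁻¹ ≤ 2 := by
  have : ∑ i ∈ range k, (((i + 1 : ℕ) : ℝ) ^ 2)⁻¹ ≤ 2 - 2 / (k + 1) := by
    induction k with
    | zero => simp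
    | succ k ih =>
      rw [sum_range_succ]
      push_cast at ih ⊢
      have : (((k : ℝ) + 1) ^ 2)⁻¹ ≤ 2 / ((k : ℝ) + 1) - 2 / ((k : ℝ) + 1 + 1) := by
        rw [div_sub_div _ _ (by positivity) (by positivity), inv_eq_one_div,
          div_le_div_iff₀ (by positivity) (by positivity)]
        nlinarith [Nat.cast_nonneg (α := ℝ) k]
      linarith
  exact this.trans (sub_le_self _ (by positivity))

/-- A bound for the square of the reciprocal gap. -/
noncomputable def Dg (H : ℕ) (r : ℕ → Prop) (n : ℕ) : ℝ :=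
  ∑ j ∈ range H, (((j + 1 : ℕ) : ℝ) ^ 2)⁻¹ * ind r {n, n + (j + 1)}

lemma Dg_nonneg (H : ℕ) (r : ℕ → Prop) (n : ℕ) : 0 ≤ Dg H r n :=
  sum_nonneg fun _ _ => mul_nonneg (by positivity) (ind_nonneg _ _)

lemma Dg_le (H : ℕ) (r : ℕ → Prop) (n : ℕ) : Dg H r n ≤ 2 :=
  (sum_le_sum fun _ _ => mul_le_of_le_one_right (by positivity) (ind_le_one _ _)).trans (inv_sq_sum H)

lemma G_sq_le {H : ℕ} (hH : 0 < H) (l : ℕ) (r : ℕ → Prop) (n : ℕ) :
    G l r n ^ 2 ≤ Dg H r n + ((H : ℝ) ^ 2)⁻¹ := by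
  have h0 := Dg_nonneg H r n
  rcases G_cases l r n with h | ⟨g, h1, h2, h3, h⟩ <;> rw [h]
  · rw [sq, zero_mul]; positivity
  rcases le_total g H with h4 | h4
  · obtain ⟨j, rfl⟩ : ∃ j, g = j + 1 := ⟨g - 1, by omega⟩
    refine le_add_of_le_of_nonneg (le_trans ?_ (single_le_sum
      (f := fun j => (((j + 1 : ℕ) : ℝ) ^ 2)⁻¹ * ind r {n, n + (j + 1)})
      (fun _ _ => mul_nonneg (by positivity) (ind_nonneg _ _)) (mem_range.mpr h4))) (by positivity)
    rw [ind_of (by simp [h2, h3]), mul_one, inv_pow]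
  · rw [inv_pow]
    exact le_add_of_nonneg_of_le h0 (inv_anti₀ (by positivity) (by gcongr))

lemma amgm (a b c d : ℝ) : (a * b * (c * d)) ^ 4 ≤ a ^ 16 + b ^ 16 + c ^ 16 + d ^ 16 := by
  nlinarith [sq_nonneg (a ^ 4 * b ^ 4 - c ^ 4 * d ^ 4), sq_nonneg (a ^ 8 - b ^ 8),
    sq_nonneg (c ^ 8 - d ^ 8), sq_nonneg (a ^ 8), sq_nonneg (b ^ 8), sq_nonneg (c ^ 8),
    sq_nonneg (d ^ 8)]

/-- A shifted power of the singular series. -/
noncomputable def sh (i a b : ℕ) : ℝ := hh (i - a + b + 1) ^ 16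

lemma sh_sum {H a b : ℕ} (ha : a ≤ H) (hb : b ≤ H) (k : ℕ) :
    ∑ i ∈ range k, (if H ≤ i then sh i a b else 0) ≤ 2 * Real.exp (2 ^ 16) * k := by
  rw [← sum_filter]
  rcases le_total k H with h | h
  · rw [filter_false_of_mem fun i hi => by have := mem_range.mp hi; omega, sum_empty]
    positivity
  · refine (sum_inj_le (t := range (2 * k)) (g := fun i => hh (i + 1) ^ 16) (fun i => i - a + b)
      (fun i hi j hj e => ?_) (fun i hi => ?_) (fun _ _ => le_rfl) fun i => by positivity).trans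
      ((hh_pow_avg 16 _).trans_eq (by push_cast; ring))
    · simp only [coe_filter, mem_range, Set.mem_ofPred_eq] at hi hj e
      omega
    · simp only [mem_filter, mem_range] at hi ⊢
      omega

lemma EE_four {N X n i j j' : ℕ} (h8 : 8 ≤ X) (hn : X ≤ n) (hj : j < i)
    (hN : n + (i + 1) + (j' + 1) ≤ N) :
    EE N (ind · ({n, n + (j + 1)} ∪ {n + (i + 1), n + (i + 1) + (j' + 1)})) ≤
      V X ^ 4 * (hh (j + 1) ^ 4 * hh (j' + 1) ^ 4 *
        (sh i 0 0 + sh i 0 (j' + 1) + sh i (j + 1) 0 + sh i (j + 1) (j' + 1))) := by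
  have h1 := EE_ind_le (N := N) (B := {n, n + (j + 1)} ∪ {n + (i + 1), n + (i + 1) + (j' + 1)})
    (D := (j + 1) * (j' + 1) * ((i - 0 + 0 + 1) * (i - 0 + (j' + 1) + 1) *
      ((i - (j + 1) + 0 + 1) * (i - (j + 1) + (j' + 1) + 1)))) h8 (by omega)
    (fun t ht => by simp only [mem_union, mem_insert, mem_singleton] at ht; omega) (by positivity)
    fun p t ht t' ht' h h' => by
      have : t' - t = j + 1 ∨ t' - t = j' + 1 ∨ t' - t = i - 0 + 0 + 1 ∨
          t' - t = i - 0 + (j' + 1) + 1 ∨ t' - t = i - (j + 1) + 0 + 1 ∨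
          t' - t = i - (j + 1) + (j' + 1) + 1 := by
        simp only [mem_union, mem_insert, mem_singleton] at ht ht'
        omega
      simp only [p.2.dvd_mul]
      rcases this with e | e | e | e | e | e <;> rw [e] at h' <;> simp only [h', true_or, or_true]
  rw [card_union_of_disjoint (by simp; omega), card_pair (by omega), card_pair (by omega)] at h1
  refine h1.trans ?_
  rw [mul_pow]
  refine mul_le_mul_of_nonneg_left (le_trans ?_ (mul_le_mul_of_nonneg_left (amgm _ _ _ _)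
    (by positivity))) (pow_pos (V_pos X) _).le
  rw [← mul_pow, ← mul_pow]
  have m := fun a b : ℕ => MP_18a942_nt.hh_mul_le (a + 1) (b + 1) a.succ_ne_zero b.succ_ne_zero
  have p := fun a => (hh_pos a).le
  exact pow_le_pow_left₀ (p _) ((MP_18a942_nt.hh_mul_le _ _ (by positivity) (by positivity)).trans
    (mul_le_mul (m _ _) ((MP_18a942_nt.hh_mul_le _ _ (by positivity) (by positivity)).trans
      (mul_le_mul (m _ _) (m _ _) (p _) (mul_nonneg (p _) (p _)))) (p _) (mul_nonneg (p _) (p _)))) _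

theorem EE_Dg : ∃ C : ℝ, 0 < C ∧ ∀ (N X H e : ℕ) (c : ℕ → ℝ), 8 ≤ X → e + H ≤ N → (∀ n, 0 ≤ c n) →
    Antitone c → EE N (fun r => (∑ n ∈ Ico X e, c n * Dg H r n) ^ 2) ≤
      (2 * H + 1) * 2 ^ 2 * ∑ n ∈ Ico X e, c n ^ 2 + C * V X ^ 4 * (∑ n ∈ Ico X e, c n) ^ 2 := by
  set a : ℕ → ℝ := fun j => hh (j + 1) ^ 4 * (((j + 1 : ℕ) : ℝ) ^ 2)⁻¹ with ha
  have a0 : ∀ j, 0 ≤ a j := fun j => by positivity
  have a1 : ∀ H, ∑ j ∈ range H, a j ≤ Real.exp (2 ^ 4) * 2 := fun H => by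
    refine (abel (g := fun _ => Real.exp (2 ^ 4)) H (fun i _ => by gcongr; omega) (by positivity)
      fun k _ => by simpa [mul_comm] using hh_pow_avg 4 k).trans ?_
    rw [← mul_sum]
    exact mul_le_mul_of_nonneg_left (inv_sq_sum H) (by positivity)
  refine ⟨2 * ((Real.exp (2 ^ 4) * 2) ^ 2 * (8 * Real.exp (2 ^ 16))), by positivity,
    fun N X H e c h8 hN c0 hc => (two_scale (κ := V X ^ 4 * ((Real.exp (2 ^ 4) * 2) ^ 2 *
      (8 * Real.exp (2 ^ 16)))) (K := fun i => ∑ j ∈ range H, ∑ j' ∈ range H, V X ^ 4 * (a j * a j' *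
        (sh i 0 0 + sh i 0 (j' + 1) + sh i (j + 1) 0 + sh i (j + 1) (j' + 1)))) c0 hc (Dg_nonneg H)
      (Dg_le H) (by positivity) (fun n i h1 h2 h3 => ?_) fun k => ?_).trans_eq (by ring)⟩
  · simp only [Dg, sum_mul_sum, mul_mul_mul_comm (_⁻¹) (ind _ _), ind_mul]
    rw [EE_sum]
    refine sum_le_sum fun j hj => ?_
    rw [EE_sum]
    refine sum_le_sum fun j' hj' => ?_
    have := mem_range.mp hj
    have := mem_range.mp hj'
    rw [EE_mul]
    refine (mul_le_mul_of_nonneg_left (EE_four h8 h1 (by omega) (by omega))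
      (by positivity)).trans_eq ?_
    simp only [ha]
    ring
  · have h1 : ∀ j ∈ range H, ∀ j' ∈ range H, ∑ i ∈ range k, (if H ≤ i then V X ^ 4 * (a j * a j' *
        (sh i 0 0 + sh i 0 (j' + 1) + sh i (j + 1) 0 + sh i (j + 1) (j' + 1))) else 0) ≤
        V X ^ 4 * (8 * Real.exp (2 ^ 16) * k) * (a j * a j') := fun j hj j' hj' => by
      have b1 := sh_sum H.zero_le H.zero_le k
      have b2 := sh_sum H.zero_le (mem_range.mp hj') k
      have b3 := sh_sum (mem_range.mp hj) H.zero_le k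
      have b4 := sh_sum (mem_range.mp hj) (mem_range.mp hj') k
      rw [← sum_filter] at b1 b2 b3 b4 ⊢
      rw [← mul_sum, ← mul_sum, sum_add_distrib, sum_add_distrib, sum_add_distrib,
        mul_assoc (V X ^ 4), mul_comm _ (a j * a j')]
      have := mul_nonneg (a0 j) (a0 j')
      gcongr
      linarith
    calc _ = ∑ j ∈ range H, ∑ j' ∈ range H, ∑ i ∈ range k, (if H ≤ i then V X ^ 4 * (a j * a j' *
          (sh i 0 0 + sh i 0 (j' + 1) + sh i (j + 1) 0 + sh i (j + 1) (j' + 1))) else 0) := by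
          simp only [← sum_filter]
          rw [sum_comm]
          exact sum_congr rfl fun _ _ => sum_comm
      _ ≤ V X ^ 4 * (8 * Real.exp (2 ^ 16) * k) * (∑ j ∈ range H, a j) ^ 2 := by
          rw [sq, sum_mul_sum, mul_sum]
          exact sum_le_sum fun j hj => (sum_le_sum (h1 j hj)).trans_eq (mul_sum _ _ _).symm
      _ ≤ V X ^ 4 * (8 * Real.exp (2 ^ 16) * k) * (Real.exp (2 ^ 4) * 2) ^ 2 := by
          gcongr
          exact a1 H
      _ = _ := by ring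

lemma crude : ∃ C : ℝ, 0 < C ∧ ∀ X : ℕ, 8 ≤ X → ∀ B : Finset ℕ, (∀ t ∈ B, X ≤ t ∧ t ≤ X ^ 3) → #B ≤ 8 →
    EE (X ^ 3) (ind · B) ≤ (2 / Real.log X * (C * Real.log (576 * Real.log X))) ^ #B := by
  obtain ⟨C, C0, hC⟩ := hh_le
  refine ⟨C, C0, fun X h8 B hB h => ?_⟩
  have l2 := two_le_log h8
  set D := ∏ x ∈ B ×ˢ B, if x.1 < x.2 then x.2 - x.1 else 1 with hD
  have D0 : D ≠ 0 := prod_ne_zero_iff.mpr fun x _ => by split_ifs <;> omega
  have h1 : D ≤ 2 ^ (192 * (Nat.log 2 X + 1)) := by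
    have X1 : 1 ≤ X ^ 3 := Nat.one_le_pow _ _ (by omega)
    refine (prod_le_pow_card _ _ (X ^ 3) fun x hx => ?_).trans ((Nat.pow_le_pow_right X1
      ((card_product _ _).trans_le (Nat.mul_le_mul h h))).trans ?_)
    · have := (hB _ (mem_product.mp hx).2).2
      split_ifs <;> omega
    · rw [← pow_mul, mul_comm 192, pow_mul 2]
      exact Nat.pow_le_pow_left (Nat.lt_pow_succ_log_self one_lt_two X).le _
  have h2 : ((192 * (Nat.log 2 X + 1) : ℕ) : ℝ) ≤ 576 * Real.log X := by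
    have := Real.log_le_log (by positivity)
      ((Nat.cast_le (α := ℝ)).mpr (Nat.pow_log_le_self 2 (by omega : X ≠ 0)))
    rw [Nat.cast_pow, Real.log_pow] at this
    generalize Nat.log 2 X = k at this
    push_cast at this ⊢
    nlinarith only [this, l2, Real.log_two_gt_d9, Nat.cast_nonneg (α := ℝ) k]
  refine (EE_ind_le h8 (Nat.le_self_pow (by norm_num) X) hB D0 fun p t ht t' ht' h3 h4 =>
    h4.trans ?_).trans (pow_le_pow_left₀ (mul_pos (V_pos _) (hh_pos _)).le (mul_le_mul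
      (V_le (by omega)) ((hC _ (by omega) D D0 h1).trans ?_) (hh_pos _).le (by positivity)) _)
  · simpa only [if_pos h3] using dvd_prod_of_mem (fun x : ℕ × ℕ => if x.1 < x.2 then x.2 - x.1 else 1)
      (a := (t, t')) (mem_product.mpr ⟨ht, ht'⟩)
  · exact mul_le_mul_of_nonneg_left (Real.log_le_log (Nat.cast_pos.mpr (by omega)) h2) C0.le

theorem regime {ε : ℝ} (hε : 0 < ε) : ∀ᶠ X : ℕ in Filter.atTop, ∃ (H : ℕ) (v : ℝ), 0 < H ∧ 0 ≤ v ∧
    v ≤ 1 ∧ Real.log X ^ 5 ≤ (H : ℝ) ^ 3 ∧ H ≤ Real.log X ^ 2 ∧ sig H v ≤ ε / Real.log X ^ 2 ∧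
      ∀ B : Finset ℕ, (∀ t ∈ B, X ≤ t ∧ t ≤ X ^ 3) → #B ≤ 8 → EE (X ^ 3) (ind · B) ≤ v ^ #B := by
  obtain ⟨C, C0, hC⟩ := crude
  have T := (tendsto_rpow_atTop (by norm_num : (0 : ℝ) < ((100 : ℕ) : ℝ)⁻¹)).comp
    (Real.tendsto_log_atTop.comp tendsto_natCast_atTop_atTop)
  filter_upwards [Filter.eventually_ge_atTop 8, T.eventually_ge_atTop (max 576 (10 / ε)),
    T.eventually (ev_log 1 (c := (202 * C + 202)⁻¹) one_pos (by positivity))] with X h8 h1 h2
  have e := Real.rpow_inv_natCast_pow (n := 100) (Real.log_natCast_nonneg X) (by norm_num)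
  simp only [comp] at h1 h2
  generalize Real.log X ^ ((100 : ℕ) : ℝ)⁻¹ = w at h1 h2 e
  obtain ⟨w1, w2⟩ := max_le_iff.mp h1
  have w0 : 1 ≤ w := by linarith
  have l1 : 1 ≤ Real.log w := (MP_48b1c3_nt.H54.mertens_one_lt (by linarith)).le
  rw [pow_one, Real.rpow_one, inv_mul_eq_div, le_div_iff₀ (by positivity)] at h2
  have H1 : w ^ 167 ≤ ⌈w ^ 167⌉₊ := Nat.le_ceil _
  have H2 : (⌈w ^ 167⌉₊ : ℝ) ≤ 2 * w ^ 167 := by
    linarith [Nat.ceil_lt_add_one (by positivity : 0 ≤ w ^ 167), one_le_pow₀ w0 (n := 167)]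
  have H3 : (⌈w ^ 167⌉₊ : ℝ) ≤ w ^ 200 := H2.trans (by
    rw [show w ^ 200 = w ^ 33 * w ^ 167 by ring]
    gcongr
    exact le_trans (by linarith) (le_self_pow₀ w0 (by norm_num)))
  have H0 : 0 < ⌈w ^ 167⌉₊ := Nat.ceil_pos.mpr (by positivity)
  generalize ⌈w ^ 167⌉₊ = H at H0 H1 H2 H3
  rw [← e]
  refine ⟨H, (w ^ 99)⁻¹, H0, by positivity, inv_le_one_of_one_le₀ (one_le_pow₀ w0), ?_,
    by rwa [← pow_mul], ?_, fun B hB h => (hC X h8 B hB h).trans ?_⟩
  · refine le_trans ?_ (pow_le_pow_left₀ (by positivity) H1 3)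
    rw [← pow_mul, ← pow_mul]
    exact pow_le_pow_right₀ w0 (by norm_num)
  · have a1 : 1 + Real.log H ≤ w := by
      have := Real.log_le_log (by positivity) H3
      rw [Real.log_pow] at this
      push_cast at this
      nlinarith
    have a2 : (H : ℝ)⁻¹ ≤ w * (w ^ 99)⁻¹ := (inv_anti₀ (by positivity) ((pow_le_pow_right₀ w0
      (by norm_num : 99 ≤ 167)).trans H1)).trans (le_mul_of_one_le_left (by positivity) w0)
    have a3 : (1 : ℝ) ≤ w ^ 68 := one_le_pow₀ w0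
    have a4 : H * (w ^ 99)⁻¹ ≤ 2 * w ^ 68 := by
      rw [← div_eq_mul_inv, div_le_iff₀ (by positivity)]
      exact H2.trans_eq (by ring)
    have a5 : 0 ≤ Real.log H := Real.log_natCast_nonneg H
    calc sig H (w ^ 99)⁻¹ ≤ (w ^ 99)⁻¹ ^ 2 * ((w * (w ^ 99)⁻¹ + w * (w ^ 99)⁻¹) *
          (w * w ^ 68 + w * (2 * w ^ 68 + 2 * w ^ 68))) := by
          unfold sig
          gcongr
          · nlinarith
          · linarith
      _ = 10 / w ^ 27 / (w ^ 100) ^ 2 := by field_simp; ring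
      _ ≤ _ := by
          gcongr
          rw [div_le_iff₀ (by positivity), mul_comm, ← div_le_iff₀ hε]
          exact w2.trans (le_self_pow₀ w0 (by norm_num))
  · rw [← e]
    have a1 : Real.log (576 * w ^ 100) ≤ 101 * Real.log w := by
      have := Real.log_le_log (by norm_num) w1
      rw [Real.log_mul (by norm_num) (by positivity), Real.log_pow]
      push_cast
      linarith
    have a2 : 0 ≤ Real.log (576 * w ^ 100) := Real.log_nonneg (by nlinarith [one_le_pow₀ w0 (n := 100)])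
    refine pow_le_pow_left₀ (by positivity) ?_ _
    rw [div_mul_eq_mul_div, div_le_iff₀ (by positivity), show (w ^ 99)⁻¹ * w ^ 100 = w by field_simp]
    nlinarith

end Pool.Agent.MP_00acf4_nt

end

-- part MP_00acf4_nt.Mom
section

/-!
Second and fourth moments of weighted sums of signed reciprocal gaps.
-/

set_option autoImplicit false

namespace Pool.Agent.MP_00acf4_nt

open Finset Function
open scoped BigOperators

/-- Decay of correlations at scale `X` beyond distance `H`. -/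
def Dec (X H : ℕ) : Prop := ∀ n : Fin 4 → ℕ, Monotone n → X ≤ n 0 → n 3 ≤ X ^ 2 →
  ∀ h, h = max (n 1 - n 0) (n 3 - n 2) → H ≤ h →
    ∀ Ψ : (Fin 4 → ℝ) → ℝ, (∀ x, (∀ i, 0 ≤ x i ∧ x i ≤ 1) → |Ψ x| ≤ 1) →
      |EE (X ^ 3) fun r => (-1) ^ (∑ i, cnt r (n i)) * Ψ fun i => G (n i) r (n i)| ≤
        9 * ((h : ℝ) ^ 7)⁻¹

lemma dec : ∀ᶠ X : ℕ in Filter.atTop, ∀ H : ℕ, Real.log X ^ 5 ≤ (H : ℝ) ^ 3 → Dec X H :=
  corr.mono fun X hX H hH n hn h1 h2 h e h3 => (hX h (hH.trans (by gcongr)) (by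
    have : n 1 ≤ n 3 := hn (by decide)
    omega)).2 n hn h1 h2 e

variable {X H : ℕ} {φ : ℕ → ℝ}

lemma corr2 (hD : Dec X H) {n h : ℕ} (h1 : X ≤ n) (h2 : n + h ≤ X ^ 2) (h3 : H ≤ h) :
    |EE (X ^ 3) fun r => F r n * F r (n + h)| ≤ 9 * ((h : ℝ) ^ 7)⁻¹ := by
  have := hD ![n, n + h, n + h, n + h] (by simp [Fin.monotone_iff_le_succ, Fin.forall_fin_succ]) h1 h2
    h (by simp) h3 (fun x => x 0 * x 1) fun x hx => by
      rw [abs_of_nonneg (mul_nonneg (hx 0).1 (hx 1).1)]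
      exact mul_le_one₀ (hx 0).2 (hx 1).1 (hx 1).2
  refine le_trans (le_of_eq (congrArg _ (EE_congr fun b => ?_))) this
  simp only [Fin.sum_univ_four, Matrix.cons_val, F, pow_add, mul_assoc, ← mul_pow]
  rw [neg_mul_neg, one_mul, mul_one]
  ring

lemma off (hD : Dec X H) (hH : 0 < H) (φ0 : ∀ n, 0 ≤ φ n) (hφ : Antitone φ) {s e : ℕ} (hs : X ≤ s)
    (he : e ≤ X ^ 2) : |EE (X ^ 3) (fun r => (∑ n ∈ Ico s e, φ n * F r n) ^ 2) -
      ∑ n ∈ Ico s e, φ n ^ 2 * EE (X ^ 3) fun r => G n r n ^ 2| ≤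
      ∑ n ∈ Ico s e, φ n ^ 2 * (2 * (EE (X ^ 3) (W H · n) + 18 * ((H : ℝ) ^ 5)⁻¹)) := by
  simp only [sq_sum (fun n => φ n * F _ n)]
  rw [EE_sum, ← sum_sub_distrib]
  refine (abs_sum_le_sum_abs _ _).trans (sum_le_sum fun n hn => ?_)
  simp only [mul_pow, mul_mul_mul_comm (φ n) (F _ n), F_sq]
  rw [EE_add, EE_mul, EE_mul, add_sub_cancel_left, EE_sum, abs_mul, abs_two, mul_left_comm]
  refine mul_le_mul_of_nonneg_left ((abs_sum_le_sum_abs _ _).trans ?_) two_pos.le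
  set g : ℕ → ℝ := fun i => EE (X ^ 3) fun r => G n r n * G (n + (i + 1)) r (n + (i + 1)) with hg
  have g0 : ∀ i, 0 ≤ g i := fun i => EE_nonneg fun _ => mul_nonneg G_nonneg G_nonneg
  refine (sum_le_sum (g := fun i => φ n ^ 2 * ((if i ∈ range H then g i else 0) +
    9 * ((H : ℝ) ^ 5)⁻¹ * (((i + 1 : ℕ) : ℝ) ^ 2)⁻¹)) fun i hi => ?_).trans ?_
  · rw [EE_mul, abs_mul, abs_of_nonneg (mul_nonneg (φ0 _) (φ0 _)), sq (φ n)]
    refine mul_le_mul (mul_le_mul_of_nonneg_left (hφ (by omega)) (φ0 n)) ?_ (abs_nonneg _)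
      (mul_nonneg (φ0 _) (φ0 _))
    split_ifs with h
    · refine le_add_of_le_of_nonneg (abs_EE_le.trans_eq ?_) (by positivity)
      simp only [abs_mul, abs_F, hg]
    · have h1 : H ≤ i + 1 := by simp only [mem_range] at h; omega
      have := mem_range.mp hi
      refine (corr2 hD (hs.trans (mem_Ico.mp hn).1) (by omega) h1).trans ?_
      rw [zero_add, mul_assoc, ← mul_inv, pow_add _ 5 2]
      gcongr
  · rw [← mul_sum, sum_add_distrib, ← mul_sum, sum_ite_mem]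
    refine mul_le_mul_of_nonneg_left (add_le_add ?_ ?_) (sq_nonneg _)
    · exact (sum_le_sum_of_subset_of_nonneg inter_subset_right fun i _ _ => g0 i).trans_eq
        (EE_sum _ _).symm
    · nlinarith [inv_sq_sum (e - (n + 1)), (by positivity : 0 < ((H : ℝ) ^ 5)⁻¹)]

lemma second_le (hD : Dec X H) (hH : 0 < H) {s k : ℕ} (hs : X ≤ s) (he : s + k ≤ X ^ 2) :
    EE (X ^ 3) (fun r => (∑ n ∈ Ico s (s + k), F r n) ^ 2) ≤ k * (2 * H + 37) := by
  have h := (abs_le.mp (off (φ := fun _ => 1) hD hH (fun _ => zero_le_one) antitone_const hs he)).2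
  simp only [one_mul, one_pow] at h
  have h0 : ((H : ℝ) ^ 5)⁻¹ ≤ 1 := inv_le_one_of_one_le₀ (one_le_pow₀ (by exact_mod_cast hH))
  have h1 := sum_le_card_nsmul (Ico s (s + k)) _ 1 fun n _ => EE_le (N := X ^ 3)
    (f := fun r => G n r n ^ 2) fun b => pow_le_one₀ G_nonneg G_le_one
  have h2 := sum_le_card_nsmul (Ico s (s + k))
    (fun n => 2 * (EE (X ^ 3) (W H · n) + 18 * ((H : ℝ) ^ 5)⁻¹)) (2 * H + 36) fun n _ => by
      linarith [EE_le (N := X ^ 3) (f := (W H · n)) fun b => W_le_H H _ n]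
  simp only [Nat.card_Ico, add_tsub_cancel_left, nsmul_eq_mul] at h1 h2
  linarith

lemma fourth_le (hD : Dec X H) (hH : 0 < H) (φ0 : ∀ n, 0 ≤ φ n) (hφ : Antitone φ) :
    EE (X ^ 3) (fun r => (∑ n ∈ Ico X (X ^ 2), φ n * F r n) ^ 4) ≤
      24 * (EE (X ^ 3) (fun r => (∑ n ∈ Ico X (X ^ 2), φ n ^ 2 * (G n r n ^ 2 + W H r n)) ^ 2) +
        144 * ((H : ℝ) ^ 3)⁻¹ * (2 * ∑ n ∈ Ico X (X ^ 2), φ n ^ 2) ^ 2) := by
  set J := Ico X (X ^ 2) ×ˢ range (X ^ 2) with hJ
  set a : (ℕ → Prop) → ℕ × ℕ → ℝ := fun r z => φ z.1 ^ 2 *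
    if z.2 ∈ range (H + 1) then G z.1 r z.1 * G (z.1 + z.2) r (z.1 + z.2) else 0 with ha
  set β : ℕ × ℕ → ℝ := fun z => φ z.1 ^ 2 * (((z.2 + 1 : ℕ) : ℝ) ^ 2)⁻¹ with hβ
  have a0 : ∀ r z, 0 ≤ a r z := fun r z => mul_nonneg (sq_nonneg _) (by
    split_ifs
    exacts [mul_nonneg G_nonneg G_nonneg, le_rfl])
  have β0 : ∀ z, 0 ≤ β z := fun z => by positivity
  have a1 : ∀ z z', 0 ≤ EE (X ^ 3) fun r => a r z * a r z' := fun z z' =>
    EE_nonneg fun r => mul_nonneg (a0 _ _) (a0 _ _)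
  simp only [sum_pow' _ _ 4]
  rw [EE_sum]
  refine (sum_inj_le (t := univ ×ˢ J ×ˢ J) (g := fun w : Equiv.Perm (Fin 4) × (ℕ × ℕ) × ℕ × ℕ =>
    EE (X ^ 3) (fun r => a r w.2.1 * a r w.2.2) + 144 * ((H : ℝ) ^ 3)⁻¹ * (β w.2.1 * β w.2.2))
    (fun x => (Tuple.sort x, (x (Tuple.sort x 0), x (Tuple.sort x 1) - x (Tuple.sort x 0)),
      x (Tuple.sort x 2), x (Tuple.sort x 3) - x (Tuple.sort x 2))) (fun x _ x' _ e => ?_)
    (fun x hx => ?_) (fun x hx => ?_) fun w => add_nonneg (a1 _ _)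
      (mul_nonneg (by positivity) (mul_nonneg (β0 _) (β0 _)))).trans ?_
  · simp only [Prod.mk.injEq] at e
    obtain ⟨e, e'⟩ := e
    have m : ∀ (x : Fin 4 → ℕ) (i j : Fin 4), i ≤ j → x (Tuple.sort x i) ≤ x (Tuple.sort x j) :=
      fun x _ _ h => Tuple.monotone_sort x h
    have b1 := m x 0 1 (by decide)
    have b2 := m x 2 3 (by decide)
    have b3 := m x' 0 1 (by decide)
    have b4 := m x' 2 3 (by decide)
    rw [← e] at b3 b4 e'
    refine (Tuple.sort x).surjective.injective_comp_right (funext fun i => ?_)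
    fin_cases i <;> simp only [comp, Fin.zero_eta, Fin.mk_one, Fin.reduceFinMk] <;> omega
  · have := fun i => mem_Ico.mp (Fintype.mem_piFinset.mp hx (Tuple.sort x i))
    have b1 := this 1
    have b2 := this 3
    simp only [hJ, mem_product, mem_univ, mem_Ico, mem_range, this, and_self, true_and]
    omega
  · have hx' := fun i => mem_Ico.mp (Fintype.mem_piFinset.mp hx (Tuple.sort x i))
    have m := Tuple.monotone_sort x
    simp only [← Equiv.prod_comp (Tuple.sort x) fun i => φ (x i) * F _ (x i)]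
    change EE _ (fun r => ∏ i, φ ((x ∘ Tuple.sort x) i) * F r ((x ∘ Tuple.sort x) i)) ≤
      EE _ (fun r => a r ((x ∘ Tuple.sort x) 0, (x ∘ Tuple.sort x) 1 - (x ∘ Tuple.sort x) 0) *
        a r ((x ∘ Tuple.sort x) 2, (x ∘ Tuple.sort x) 3 - (x ∘ Tuple.sort x) 2)) + _ *
        (β ((x ∘ Tuple.sort x) 0, (x ∘ Tuple.sort x) 1 - (x ∘ Tuple.sort x) 0) *
          β ((x ∘ Tuple.sort x) 2, (x ∘ Tuple.sort x) 3 - (x ∘ Tuple.sort x) 2))
    change ∀ i, X ≤ (x ∘ Tuple.sort x) i ∧ (x ∘ Tuple.sort x) i < X ^ 2 at hx'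
    generalize x ∘ Tuple.sort x = y at m hx'
    have b1 : y 0 ≤ y 1 := m (by decide)
    have b2 : y 2 ≤ y 3 := m (by decide)
    have b3 : ∏ i, φ (y i) ≤ φ (y 0) ^ 2 * φ (y 2) ^ 2 := by
      rw [Fin.prod_univ_four, mul_assoc, sq, sq]
      have := φ0
      gcongr
      exacts [mul_nonneg (φ0 _) (φ0 _), mul_nonneg (φ0 _) (φ0 _), φ0 _, hφ b1, φ0 _, hφ b2]
    simp only [prod_mul_distrib]
    rw [EE_mul]
    refine (mul_le_mul_of_nonneg_left (le_abs_self _) (prod_nonneg fun _ _ => φ0 _)).trans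
      ((mul_le_mul_of_nonneg_right b3 (abs_nonneg _)).trans ?_)
    by_cases b4 : max (y 1 - y 0) (y 3 - y 2) ≤ H
    · refine le_add_of_le_of_nonneg ?_ (mul_nonneg (by positivity) (mul_nonneg (β0 _) (β0 _)))
      simp only [ha, mem_range, if_pos (show y 1 - y 0 < H + 1 by omega),
        if_pos (show y 3 - y 2 < H + 1 by omega), mul_mul_mul_comm (φ _ ^ 2), Nat.add_sub_of_le b1,
        Nat.add_sub_of_le b2]
      rw [EE_mul]
      refine mul_le_mul_of_nonneg_left (abs_EE_le.trans_eq ?_) (by positivity)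
      simp only [abs_mul, abs_F, Fin.prod_univ_four, mul_assoc]
    · refine le_add_of_nonneg_of_le (a1 _ _) ?_
      have b5 := hD y m (hx' 0).1 (hx' 3).2.le _ rfl (not_le.mp b4).le (fun x => ∏ i, x i) fun x hx => by
        rw [abs_of_nonneg (prod_nonneg fun i _ => (hx i).1)]
        exact prod_le_one (fun i _ => (hx i).1) fun i _ => (hx i).2
      simp only [F, prod_mul_distrib, prod_pow_eq_pow_sum, hβ]
      rw [mul_mul_mul_comm (φ _ ^ 2) _ (φ _ ^ 2), mul_left_comm (144 * _)]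
      refine mul_le_mul_of_nonneg_left (b5.trans ?_) (by positivity)
      have b6 : ∀ d, d ≤ max (y 1 - y 0) (y 3 - y 2) →
          ((d + 1 : ℕ) : ℝ) ≤ 2 * (max (y 1 - y 0) (y 3 - y 2) : ℕ) := fun d hd => by
        exact_mod_cast by omega
      have b7 := b6 _ (le_max_left _ _)
      have b8 := b6 _ (le_max_right _ _)
      have b9 : (H : ℝ) ≤ (max (y 1 - y 0) (y 3 - y 2) : ℕ) := by exact_mod_cast (not_le.mp b4).le
      have b10 : (0 : ℝ) < H := by exact_mod_cast hH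
      generalize ((max (y 1 - y 0) (y 3 - y 2) : ℕ) : ℝ) = h at b7 b8 b9
      have b11 : 0 < h := by linarith
      calc _ = 144 * (h ^ 3)⁻¹ * (((2 * h) ^ 2)⁻¹ * ((2 * h) ^ 2)⁻¹) := by field_simp; ring
        _ ≤ _ := by gcongr
  · have e : ∀ f : ℕ × ℕ → ℝ, ∑ i ∈ J ×ˢ J, f i.1 * f i.2 = (∑ z ∈ J, f z) ^ 2 := fun f => by
      rw [sum_product' _ _ fun z z' => f z * f z', ← sum_mul_sum, sq]
    rw [sum_product]
    dsimp only
    rw [sum_const, card_univ, Fintype.card_perm, Fintype.card_fin, nsmul_eq_mul,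
      sum_add_distrib, ← mul_sum, ← EE_sum]
    simp only [e]
    refine mul_le_mul (by norm_num [Nat.factorial]) (add_le_add (EE_mono fun b => ?_) ?_)
      (add_nonneg (EE_nonneg fun _ => sq_nonneg _) (by positivity)) (by norm_num)
    · refine pow_le_pow_left₀ (sum_nonneg fun _ _ => a0 _ _) ?_ _
      rw [hJ, sum_product]
      refine sum_le_sum fun n _ => ?_
      simp only [ha]
      rw [← mul_sum, sum_ite_mem]
      refine mul_le_mul_of_nonneg_left ((sum_le_sum_of_subset_of_nonneg inter_subset_right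
        fun i _ _ => mul_nonneg G_nonneg G_nonneg).trans_eq ?_) (sq_nonneg _)
      rw [sum_range_succ', add_zero, W, sq, add_comm]
    · refine mul_le_mul_of_nonneg_left (pow_le_pow_left₀ (sum_nonneg fun _ _ => β0 _) ?_ _)
        (by positivity)
      rw [hJ, sum_product, mul_sum]
      refine sum_le_sum fun n _ => ?_
      simp only [hβ, ← mul_sum]
      rw [mul_comm]
      exact mul_le_mul_of_nonneg_right (inv_sq_sum _) (sq_nonneg _)

end Pool.Agent.MP_00acf4_nt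

end

-- part MP_00acf4_nt.Mom2
section

/-!
The critical weighted sum has second moment bounded below and fourth moment bounded above.
-/

set_option autoImplicit false

namespace Pool.Agent.MP_00acf4_nt

open Finset Function
open scoped BigOperators

/-- The deterministic critical weight. -/
noncomputable def ph (n : ℕ) : ℝ := (√(MM n + 1))⁻¹

lemma ph_nonneg (n : ℕ) : 0 ≤ ph n := by unfold ph; positivity

lemma ph_sq (n : ℕ) : ph n ^ 2 = (MM n + 1)⁻¹ := by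
  rw [ph, inv_pow, Real.sq_sqrt (by linarith [MM_nonneg n])]

lemma ph_anti : Antitone ph := fun m n h =>
  inv_anti₀ (Real.sqrt_pos.mpr (by linarith [MM_nonneg m])) (by gcongr; exact MM_mono h)

lemma log_le_sum {a b : ℕ} (ha : 0 < a) (h : a ≤ b) :
    Real.log b - Real.log a ≤ ∑ n ∈ Ico a b, (n : ℝ)⁻¹ := by
  induction b, h using Nat.le_induction with
  | base => simp
  | succ b h ih =>
    have b0 : (0 : ℝ) < b := by exact_mod_cast ha.trans_le h
    have := Real.log_le_sub_one_of_pos (x := (b + 1 : ℕ) / b) (by positivity)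
    rw [Real.log_div (by positivity) b0.ne', Nat.cast_succ, add_div, div_self b0.ne', one_div] at this
    rw [sum_Ico_succ_top h, Nat.cast_succ]
    linarith

lemma ph_bounds {X : ℕ} (hX : 16 ≤ X) : Real.log X ^ 2 / 7 ≤ ∑ n ∈ Ico X (X ^ 2), ph n ^ 2 ∧
    ∑ n ∈ Ico X (X ^ 2), ph n ^ 2 ≤ 12 * Real.log X ^ 2 ∧
    ∑ n ∈ Ico X (X ^ 2), (ph n ^ 2) ^ 2 ≤ 48 * Real.log X ^ 3 / X := by
  have l2 := two_le_log (by omega : 8 ≤ X)
  have X0 : (16 : ℝ) ≤ X := by exact_mod_cast hX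
  have key : ∀ n ∈ Ico X (X ^ 2), Real.log X / 7 * (n : ℝ)⁻¹ ≤ ph n ^ 2 ∧
      ph n ^ 2 ≤ 4 * Real.log X * (n : ℝ)⁻¹ := fun n hn => by
    obtain ⟨h1, h2⟩ := mem_Ico.mp hn
    have n0 : (X : ℝ) ≤ n := by exact_mod_cast h1
    have a1 := Real.log_le_log (by linarith) n0
    have a2 := Real.log_le_log (by linarith) ((Nat.cast_le (α := ℝ)).mpr h2.le)
    rw [Nat.cast_pow, Real.log_pow, Nat.cast_ofNat] at a2
    have a3 := MM_le (by omega : 8 ≤ n)
    have a4 := le_MM (by omega : 8 ≤ n)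
    have a5 := MM_nonneg n
    have a6 := Real.log_le_self n.cast_nonneg
    rw [le_div_iff₀ (by linarith)] at a3
    rw [div_le_iff₀ (by linarith)] at a4
    rw [ph_sq, ← div_eq_mul_inv, ← div_eq_mul_inv, inv_eq_one_div, div_div,
      div_le_div_iff₀ (by linarith) (by linarith), div_le_div_iff₀ (by linarith) (by linarith)]
    constructor <;> nlinarith
  have h1 := log_le_sum (by omega) (Nat.le_self_pow two_ne_zero X)
  have h2 := (sum_inj_le (s := Ico X (X ^ 2)) (f := fun n => (n : ℝ)⁻¹) (fun n => n - 1)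
    (fun i hi j hj e => by simp only [coe_Ico, Set.mem_Ico] at hi hj e; omega)
    (fun n hn => by have := mem_Ico.mp hn; exact mem_range.mpr (by omega))
    (fun n hn => by have := mem_Ico.mp hn; rw [Nat.sub_add_cancel (by omega)])
    fun _ => by positivity).trans (harm_le (X ^ 2))
  rw [Nat.cast_pow, Real.log_pow, Nat.cast_ofNat] at h1 h2
  have h3 := sum_le_sum fun n hn => (key n hn).1
  have h4 := sum_le_sum fun n hn => (key n hn).2
  rw [← mul_sum] at h3 h4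
  have h5 : ∑ n ∈ Ico X (X ^ 2), ph n ^ 2 ≤ 12 * Real.log X ^ 2 := by nlinarith
  refine ⟨by nlinarith, h5, (sum_le_sum (g := fun n => 4 * Real.log X * (X : ℝ)⁻¹ * ph n ^ 2)
    fun n hn => ?_).trans ?_⟩
  · rw [sq (ph n ^ 2)]
    refine mul_le_mul_of_nonneg_right ((key n hn).2.trans ?_) (sq_nonneg _)
    gcongr
    exact (mem_Ico.mp hn).1
  · rw [← mul_sum]
    exact (mul_le_mul_of_nonneg_left h5 (by positivity)).trans_eq (by ring)

theorem second : ∀ᶠ X : ℕ in Filter.atTop, ∀ s k, X ≤ s → s + k ≤ X ^ 2 →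
    EE (X ^ 3) (fun r => (∑ n ∈ Ico s (s + k), F r n) ^ 2) ≤ k * (3 * Real.log X ^ 2) := by
  filter_upwards [dec, regime one_pos, (Real.tendsto_log_atTop.comp
    tendsto_natCast_atTop_atTop).eventually_ge_atTop 7] with X h1 ⟨H, v, H0, _, _, H1, H2, _⟩ h2 s k hs he
  refine (second_le (h1 H H1) H0 hs he).trans (mul_le_mul_of_nonneg_left ?_ k.cast_nonneg)
  simp only [comp] at h2
  nlinarith

/-- The critical weighted sum over `[X, X ^ 2)`. -/
noncomputable def DD (X : ℕ) (r : ℕ → Prop) : ℝ := ∑ n ∈ Ico X (X ^ 2), ph n * F r n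

theorem moments : ∃ C : ℝ, 0 < C ∧ ∀ᶠ X : ℕ in Filter.atTop,
    1 / 2016 ≤ EE (X ^ 3) (fun r => DD X r ^ 2) ∧ EE (X ^ 3) (fun r => DD X r ^ 4) ≤ C := by
  obtain ⟨C, C0, hC⟩ := EE_Dg
  refine ⟨24 * (3 * (576 + C * 16 * 144 + 144 + (240 + 288)) + 144 * 576), by positivity, ?_⟩
  filter_upwards [dec, regime (ε := 1 / 1000) (by norm_num), (Real.tendsto_log_atTop.comp
    tendsto_natCast_atTop_atTop).eventually_ge_atTop 36000, Filter.eventually_ge_atTop 16,
    (tendsto_natCast_atTop_atTop (R := ℝ)).eventually (ev_log 9 one_pos one_pos)]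
    with X h1 ⟨H, v, H0, v0, v1, H1, H2, H3, hv⟩ h2 hX h3
  obtain ⟨p1, p2, p3⟩ := ph_bounds hX
  simp only [comp] at h2
  rw [Real.rpow_one, one_mul] at h3
  have V1 := V_le (by omega : 3 ≤ X)
  have V2 : ∀ n, X ≤ n → n ≤ X ^ 3 → (3 * Real.log X)⁻¹ ≤ V n := fun n a1 a2 => by
    refine le_trans (inv_anti₀ (by linarith [two_le_log (by omega : 8 ≤ n)]) ?_) (le_V (by omega))
    have := Real.log_le_log (Nat.cast_pos.mpr (by omega)) ((Nat.cast_le (α := ℝ)).mpr a2)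
    rwa [Nat.cast_pow, Real.log_pow] at this
  generalize Real.log X = u at *
  have u1 : 1 ≤ u := by linarith
  have H4 : u ≤ H := (pow_le_pow_iff_left₀ (by positivity) (by positivity) three_ne_zero).mp
    ((pow_le_pow_right₀ u1 (by norm_num)).trans H1)
  have H5 : H ≤ X := by exact_mod_cast H2.trans ((pow_le_pow_right₀ u1 (by norm_num)).trans h3)
  have X3 : X ^ 2 + 2 * X ≤ X ^ 3 := by nlinarith only [hX]
  have X0 : (0 : ℝ) < X := by positivity
  have s0 : 0 ≤ sig H v := by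
    have := Real.log_natCast_nonneg H
    unfold sig
    positivity
  constructor
  · have a1 := (abs_le.mp (off (h1 H H1) H0 ph_nonneg ph_anti le_rfl le_rfl)).1
    rw [le_sub_iff_add_le, neg_add_eq_sub, ← sum_sub_distrib] at a1
    refine le_trans (le_trans ?_ (sum_le_sum (f := fun n => ph n ^ 2 * (1 / 288 / u ^ 2))
      fun n hn => ?_)) a1
    · rw [← sum_mul]
      exact le_trans (le_of_eq (by field_simp; norm_num)) (mul_le_mul_of_nonneg_right p1 (by positivity))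
    obtain ⟨n1, n2⟩ := mem_Ico.mp hn
    rw [← mul_sub]
    refine mul_le_mul_of_nonneg_left ?_ (sq_nonneg _)
    have a2 := (EE_W H0 v0 v1 hv n1 (by omega)).trans H3
    have a3 : ((H : ℝ) ^ 5)⁻¹ ≤ 1 / 36000 / u ^ 2 := by
      rw [div_div, one_div]
      refine inv_anti₀ (by positivity) (le_trans ?_ (pow_le_pow_left₀ (by positivity) H4 5))
      rw [pow_add _ 3 2]
      gcongr
      exact h2.trans (le_self_pow₀ u1 (by norm_num))
    have a4 := (pow_le_pow_left₀ (by positivity) (V2 (n + 2) (by omega) (by omega)) 2)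
    have a5 := twin (N := X ^ 3) (by omega : 8 ≤ n) (by omega)
    have a6 : 1 / 4 * EE (X ^ 3) (ind · {n, n + 2}) ≤ EE (X ^ 3) fun r => G n r n ^ 2 := by
      rw [← EE_mul]
      refine EE_mono fun b => ?_
      simp only [ind]
      split_ifs with a
      · have := pow_le_pow_left₀ (by positivity) (le_G (l := n) two_pos (by omega) (a n (by simp))
          (a _ (by simp))) 2
        norm_num at this ⊢
        exact this
      · rw [mul_zero]; positivity
    rw [inv_pow, mul_pow, mul_inv] at a4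
    simp only [div_eq_mul_inv _ (u ^ 2)] at a2 a3 ⊢
    linarith [(by positivity : 0 < (u ^ 2)⁻¹)]
  have c0 : ∀ n, 0 ≤ ph n ^ 2 := fun n => sq_nonneg _
  have c1 : Antitone fun n => ph n ^ 2 := fun m n h => pow_le_pow_left₀ (ph_nonneg _) (ph_anti h) 2
  have b1 := hC (X ^ 3) X H (X ^ 2) _ (by omega) (by omega) c0 c1
  have b2 := two_scale (N := X ^ 3) (s := X) (e := X ^ 2) (D := 2 * H) c0 c1 (W_nonneg H) (W_le_H H)
    (sq_nonneg (sig H v)) (K := fun _ => sig H v ^ 2)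
    (fun n i a1 a2 a3 => EE_WW H0 v0 v1 hv a1 (by omega) (by omega)) fun k => by
      simpa [mul_comm] using sum_le_card_nsmul (range k) _ (sig H v ^ 2) fun i _ =>
        show (if 2 * H ≤ i then sig H v ^ 2 else 0) ≤ _ by split_ifs; exacts [le_rfl, sq_nonneg _]
  have S0 : 0 ≤ ∑ n ∈ Ico X (X ^ 2), ph n ^ 2 := sum_nonneg fun n _ => c0 n
  have b3 : EE (X ^ 3) (fun r => (∑ n ∈ Ico X (X ^ 2), ph n ^ 2 * (G n r n ^ 2 + W H r n)) ^ 2) ≤
      3 * (EE (X ^ 3) (fun r => (∑ n ∈ Ico X (X ^ 2), ph n ^ 2 * Dg H r n) ^ 2) +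
        (((H : ℝ) ^ 2)⁻¹ * ∑ n ∈ Ico X (X ^ 2), ph n ^ 2) ^ 2 +
        EE (X ^ 3) (fun r => (∑ n ∈ Ico X (X ^ 2), ph n ^ 2 * W H r n) ^ 2)) := by
    rw [← EE_const (N := X ^ 3) ((_ * _) ^ 2), ← EE_add, ← EE_add, ← EE_mul]
    refine EE_mono fun b => (pow_le_pow_left₀ (sum_nonneg fun n _ => mul_nonneg (c0 n)
      (add_nonneg (sq_nonneg _) (W_nonneg _ _ _))) (sum_le_sum fun n _ => mul_le_mul_of_nonneg_left
        (add_le_add (G_sq_le H0 n _ n) le_rfl) (c0 n)) 2).trans ?_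
    simp only [mul_add, sum_add_distrib]
    rw [← sum_mul, mul_comm _ (((H : ℝ) ^ 2)⁻¹)]
    generalize ∑ n ∈ Ico X (X ^ 2), ph n ^ 2 * Dg H (Sifted b) n = x
    generalize ∑ n ∈ Ico X (X ^ 2), ph n ^ 2 * W H (Sifted b) n = z
    generalize ((H : ℝ) ^ 2)⁻¹ * ∑ n ∈ Ico X (X ^ 2), ph n ^ 2 = y
    nlinarith only [sq_nonneg (x - y), sq_nonneg (y - z), sq_nonneg (x - z)]
  have p4 : ∑ n ∈ Ico X (X ^ 2), (ph n ^ 2) ^ 2 ≤ 48 / u ^ 6 := p3.trans (by
    rw [div_le_div_iff₀ X0 (by positivity)]; linarith)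
  have S1 : 0 ≤ ∑ n ∈ Ico X (X ^ 2), (ph n ^ 2) ^ 2 := sum_nonneg fun n _ => sq_nonneg _
  refine (fourth_le (h1 H H1) H0 ph_nonneg ph_anti).trans ?_
  generalize ∑ n ∈ Ico X (X ^ 2), (ph n ^ 2) ^ 2 = S₂ at *
  generalize ∑ n ∈ Ico X (X ^ 2), ph n ^ 2 = S at *
  have u2 : 1 ≤ u ^ 2 := one_le_pow₀ u1
  have V0 := (V_pos X).le
  refine mul_le_mul_of_nonneg_left (add_le_add (b3.trans (mul_le_mul_of_nonneg_left (add_le_add
    (add_le_add (b1.trans (add_le_add ?_ ?_)) ?_) (b2.trans (add_le_add ?_ ?_))) (by norm_num))) ?_)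
    (by norm_num)
  · calc _ ≤ (2 * u ^ 2 + u ^ 2) * 2 ^ 2 * (48 / u ^ 2) := by
          gcongr
          exact p4.trans (by gcongr; norm_num)
      _ = _ := by field_simp; norm_num
  · calc _ ≤ C * (2 / u) ^ 4 * (12 * u ^ 2) ^ 2 := by gcongr
      _ = _ := by field_simp; norm_num
  · calc _ ≤ ((u ^ 2)⁻¹ * (12 * u ^ 2)) ^ 2 := by gcongr
      _ = _ := by field_simp; norm_num
  · push_cast
    calc _ ≤ (2 * (2 * u ^ 2) + u ^ 2) * (u ^ 2) ^ 2 * (48 / u ^ 6) := by gcongr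
      _ = _ := by field_simp; norm_num
  · calc _ ≤ 2 * (1 / u ^ 2) ^ 2 * (12 * u ^ 2) ^ 2 := by
          gcongr
          exact H3.trans (by gcongr; norm_num)
      _ = _ := by field_simp; norm_num
  · calc _ ≤ 144 * (u ^ 4)⁻¹ * (2 * (12 * u ^ 2)) ^ 2 := by
          gcongr
          exact (pow_le_pow_right₀ u1 (by norm_num)).trans H1
      _ = _ := by field_simp; norm_num

end Pool.Agent.MP_00acf4_nt

end

-- part MP_00acf4_nt.AS
section

/-!
Almost sure regularity of the random set.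
-/

set_option autoImplicit false

namespace Pool.Agent.MP_00acf4_nt

open Finset Function MeasureTheory
open scoped BigOperators

/-- Sum of squares of dyadic block sums. -/
noncomputable def QQ (f : ℕ → ℝ) : ℕ → ℕ → ℝ
  | 0, a => (∑ n ∈ Ico a (a + 1), f n) ^ 2
  | i + 1, a => (∑ n ∈ Ico a (a + 2 ^ i), f n) ^ 2 + QQ f i a + QQ f i (a + 2 ^ i)

lemma QQ_nonneg (f : ℕ → ℝ) (i a : ℕ) : 0 ≤ QQ f i a := by
  induction i generalizing a with
  | zero => exact sq_nonneg _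
  | succ i ih => exact add_nonneg (add_nonneg (sq_nonneg _) (ih _)) (ih _)

lemma QQ_max (f : ℕ → ℝ) (i a t : ℕ) (ht : t ≤ 2 ^ i) :
    (∑ n ∈ Ico a (a + t), f n) ^ 2 ≤ (i + 1) * QQ f i a := by
  induction i generalizing a t with
  | zero =>
    rcases (by omega : t = 0 ∨ t = 1) with rfl | rfl
    · simpa using QQ_nonneg f 0 a
    · simp [QQ]
  | succ i ih =>
    have h1 := QQ_nonneg f i a
    have h2 := QQ_nonneg f i (a + 2 ^ i)
    have i0 : (0 : ℝ) ≤ i := i.cast_nonneg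
    rw [QQ]
    push_cast
    rcases le_total t (2 ^ i) with h | h
    · nlinarith [ih a t h, sq_nonneg (∑ n ∈ Ico a (a + 2 ^ i), f n)]
    · obtain ⟨u, rfl⟩ := Nat.exists_eq_add_of_le h
      have h3 := ih (a + 2 ^ i) u (by omega)
      rw [← add_assoc, ← sum_Ico_consecutive f (Nat.le_add_right a _) (Nat.le_add_right _ u)]
      generalize ∑ n ∈ Ico a (a + 2 ^ i), f n = x
      generalize ∑ n ∈ Ico (a + 2 ^ i) (a + 2 ^ i + u), f n = y at h3
      refine le_of_mul_le_mul_left ?_ (by positivity : (0 : ℝ) < i + 1)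
      nlinarith [sq_nonneg ((i + 1) * x - y), mul_nonneg (mul_nonneg i0 i0) h1, mul_nonneg i0 h1]

lemma QQ_split (f : ℕ → ℝ) (k j a : ℕ) :
    ∑ b ∈ range (2 ^ j), QQ f k (a + b * 2 ^ k) ≤ QQ f (k + j) a := by
  induction j generalizing a with
  | zero => simp
  | succ j ih =>
    rw [pow_succ, mul_two, sum_range_add, ← add_assoc, QQ]
    simp only [add_mul, ← pow_add, add_comm j k, ← add_assoc]
    linarith [ih a, ih (a + 2 ^ (k + j)), sq_nonneg (∑ n ∈ Ico a (a + 2 ^ (k + j)), f n)]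

lemma QQ_congr {f g : ℕ → ℝ} {i a : ℕ} (h : ∀ n < a + 2 ^ i, f n = g n) : QQ f i a = QQ g i a := by
  induction i generalizing a with
  | zero => rw [QQ, QQ, sum_congr rfl fun n (hn : n ∈ Ico a (a + 1)) => h n (mem_Ico.mp hn).2]
  | succ i ih =>
    have := Nat.two_pow_pos i
    rw [QQ, QQ, sum_congr rfl fun n hn => h n (by have := (mem_Ico.mp hn).2; omega),
      ih fun n hn => h n (by omega), ih fun n hn => h n (by omega)]

lemma EE_QQ {N X e : ℕ} {K : ℝ} (K0 : 0 ≤ K) (h : ∀ s k, X ≤ s → s + k ≤ e →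
    EE N (fun r => (∑ n ∈ Ico s (s + k), F r n) ^ 2) ≤ k * K) (i a : ℕ) (h1 : X ≤ a)
    (h2 : a + 2 ^ i ≤ e) : EE N (fun r => QQ (F r) i a) ≤ (i + 1) * 2 ^ i * K := by
  induction i generalizing a with
  | zero => simpa [QQ] using h a 1 h1 h2
  | succ i ih =>
    have := Nat.two_pow_pos i
    simp only [QQ]
    rw [EE_add, EE_add]
    have a1 := h a (2 ^ i) h1 (by omega)
    have a2 := ih a h1 (by omega)
    have a3 := ih (a + 2 ^ i) (h1.trans (Nat.le_add_right _ _)) (by omega)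
    push_cast at a1 ⊢
    rw [pow_succ]
    nlinarith [(by positivity : (0 : ℝ) ≤ 2 ^ i * K)]

lemma dep {α : Type*} {N : ℕ} {f : (ℕ → Prop) → α}
    (h : ∀ r r', (∀ t ≤ N, r t ↔ r' t) → f r = f r') : DependsOn (fun b => f (Sifted b)) (PQ N) :=
  fun b b' hb => h _ _ fun t ht => and_congr_right fun h8 => forall_congr' fun p =>
    imp_congr_right fun hp => by rw [hb p (mem_PQ.mpr ((lt_of_act (by omega) hp).le.trans ht))]

lemma cnt_congr {r r' : ℕ → Prop} {n : ℕ} (h : ∀ t < n, r t ↔ r' t) : cnt r n = cnt r' n := by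
  classical
  rw [cnt, cnt, Nat.count_eq_card_filter_range, Nat.count_eq_card_filter_range,
    filter_congr fun t ht => h t (mem_range.mp ht)]

lemma F_congr {r r' : ℕ → Prop} {n N : ℕ} (h : ∀ t ≤ N, r t ↔ r' t) (hn : 2 * n ≤ N) :
    F r n = F r' n := by
  rw [F, F, cnt_congr fun t ht => h t (by omega), G_congr fun j hj => h _ (by omega)]

lemma bc {K : ℕ → Finset Pr} {f : ℕ → Om → ℝ} {ε : ℕ → ℝ} (f0 : ∀ i b, 0 ≤ f i b) (hε : Summable ε)
    (h : ∀ᶠ i in Filter.atTop, DependsOn (f i) (K i) ∧ Ex (K i) (f i) 0 ≤ ε i) :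
    ∀ᵐ a ∂law, ∀ᶠ i in Filter.atTop, f i a < 1 := by
  classical
  have h1 : Summable fun i => law.real {a | 1 ≤ f i a} := hε.of_norm_bounded_eventually_nat
    (h.mono fun i hi => by
      rw [Real.norm_of_nonneg measureReal_nonneg, meas_eq (fun x y hxy => by rw [hi.1 hxy]) 0]
      exact (Ex_mono fun b => by split_ifs with h; exacts [h, f0 i b]).trans hi.2)
  have h2 := h1.tsum_ofReal_ne_top
  simp only [ofReal_measureReal (measure_ne_top _ _)] at h2
  exact (ae_eventually_notMem h2).mono fun a ha => ha.mono fun i hi => not_le.mp hi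

lemma inv_two_le (i : ℕ) : ((2 : ℝ) ^ (i / 4))⁻¹ ≤ 2 * (7 / 8) ^ i := by
  have h1 : ((2 : ℝ) ^ (i / 4))⁻¹ ≤ (7 / 8) ^ (4 * (i / 4)) := by
    rw [pow_mul, ← inv_pow]
    gcongr
    norm_num
  have h2 : ((7 : ℝ) / 8) ^ (4 * (i / 4) + 3) ≤ (7 / 8) ^ i :=
    pow_le_pow_of_le_one (by norm_num) (by norm_num) (by omega)
  rw [pow_add] at h2
  nlinarith [(by positivity : (0 : ℝ) ≤ (7 / 8) ^ (4 * (i / 4)))]

lemma two_pow_tendsto : Filter.Tendsto (fun i : ℕ => 2 ^ i) Filter.atTop Filter.atTop :=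
  tendsto_pow_atTop_atTop_of_one_lt one_lt_two

/-- Almost sure properties of the random set. -/
def Good (r : ℕ → Prop) : Prop := (∀ᶠ n in Filter.atTop, ∃ j, 0 < j ∧ j ≤ n ∧ r (n + j)) ∧
  ∀ᶠ i : ℕ in Filter.atTop, QQ (F r) i (2 ^ i) ≤ i ^ 5 * 2 ^ i ∧ ∀ b ≤ 2 ^ (i / 4),
    |cnt r (2 ^ i + b * 2 ^ (i - i / 4)) - MM (2 ^ i + b * 2 ^ (i - i / 4))| ≤ 2 ^ (i - i / 4)

lemma grid_le {i b : ℕ} (hb : b ≤ 2 ^ (i / 4)) : b * 2 ^ (i - i / 4) ≤ 2 ^ i :=
  (Nat.mul_le_mul_right _ hb).trans_eq (by rw [← pow_add]; congr 1; omega)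

lemma cube {i : ℕ} (hi : 1 ≤ i) : 4 * 2 ^ i ≤ (2 ^ i) ^ 3 ∧ 2 ^ i + 2 ^ i ≤ (2 ^ i) ^ 2 := by
  have : 2 ≤ 2 ^ i := Nat.le_self_pow (by omega) 2
  generalize 2 ^ i = X at this
  constructor <;> nlinarith [Nat.mul_le_mul this this]

theorem ae_good : ∀ᵐ a ∂law, Good (Sifted a) := by
  have T := two_pow_tendsto
  have h1 := bc (K := fun i => PQ ((2 ^ i) ^ 3))
    (f := fun i a => ∑ s ∈ Ico (2 ^ i) (2 ^ i + 2 ^ i), gap (2 ^ i) (Sifted a) s)
    (fun i b => sum_nonneg fun _ _ => gap_nonneg) summable_geometric_two ?_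
  have h2 := bc (K := fun i => PQ ((2 ^ i) ^ 3))
    (f := fun i a => ((i : ℝ) ^ 5 * 2 ^ i)⁻¹ * QQ (F (Sifted a)) i (2 ^ i))
    (fun i b => mul_nonneg (by positivity) (QQ_nonneg _ _ _))
    ((Real.summable_nat_pow_inv.mpr one_lt_two).mul_left 6) ?_
  have h3 := bc (K := fun i => PQ ((2 ^ i) ^ 3))
    (f := fun i a => ∑ b ∈ range (2 ^ (i / 4) + 1), (((2 : ℝ) ^ (i - i / 4)) ^ 2)⁻¹ *
      (cnt (Sifted a) (2 ^ i + b * 2 ^ (i - i / 4)) - MM (2 ^ i + b * 2 ^ (i - i / 4))) ^ 2)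
    (fun i b => by positivity)
    ((summable_geometric_of_lt_one (r := 7 / 8) (by norm_num) (by norm_num)).mul_left 8) ?_
  · filter_upwards [h1, h2, h3] with a h1 h2 h3
    refine ⟨?_, ?_⟩
    · obtain ⟨i₀, h⟩ := Filter.eventually_atTop.mp h1
      filter_upwards [Filter.eventually_ge_atTop (2 ^ i₀)] with n hn
      have a1 := Nat.pow_log_le_self 2 (by have := Nat.two_pow_pos i₀; omega : n ≠ 0)
      have a2 := Nat.lt_pow_succ_log_self one_lt_two n
      have a3 := (single_le_sum (f := gap _ (Sifted a)) (fun _ _ => gap_nonneg) (mem_Ico.mpr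
        ⟨a1, by omega⟩)).trans_lt (h _ (Nat.le_log_of_pow_le one_lt_two hn))
      rw [gap] at a3
      split_ifs at a3 with a4
      · exact a4.imp fun j hj => ⟨hj.1, hj.2.1.trans a1, hj.2.2⟩
      · exact absurd a3 (lt_irrefl _)
    · filter_upwards [h2, h3, Filter.eventually_gt_atTop 0] with i h2 h3 i0
      refine ⟨?_, fun b hb => ?_⟩
      · rw [inv_mul_lt_iff₀ (by positivity), mul_one] at h2
        exact h2.le
      · have := (single_le_sum (f := fun b => (((2 : ℝ) ^ (i - i / 4)) ^ 2)⁻¹ * (cnt (Sifted a)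
          (2 ^ i + b * 2 ^ (i - i / 4)) - MM (2 ^ i + b * 2 ^ (i - i / 4))) ^ 2)
          (fun _ _ => by positivity) (mem_range.mpr (Nat.lt_succ_of_le hb))).trans_lt h3
        rw [inv_mul_lt_iff₀ (by positivity), mul_one] at this
        exact (abs_le_of_sq_le_sq' this.le (by positivity)) |> abs_le.mpr
  · filter_upwards [Filter.eventually_ge_atTop 1] with i hi
    obtain ⟨c1, -⟩ := cube hi
    have g : ∀ b ∈ range (2 ^ (i / 4) + 1), 2 ^ i + b * 2 ^ (i - i / 4) ≤ 2 * 2 ^ i := fun b hb => by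
      have := grid_le (Nat.le_of_lt_succ (mem_range.mp hb))
      omega
    refine ⟨dep (f := fun r => ∑ b ∈ range (2 ^ (i / 4) + 1), (((2 : ℝ) ^ (i - i / 4)) ^ 2)⁻¹ *
      (cnt r (2 ^ i + b * 2 ^ (i - i / 4)) - MM (2 ^ i + b * 2 ^ (i - i / 4))) ^ 2) fun r r' h =>
      sum_congr rfl fun b hb => by
        rw [cnt_congr fun t ht => h t (by have := g b hb; omega)], ?_⟩
    rw [Ex_sum]
    refine (sum_le_card_nsmul _ _ ((((2 : ℝ) ^ (i - i / 4)) ^ 2)⁻¹ * (2 * 2 ^ i)) fun b hb =>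
      (Ex_mul _ _).trans_le (mul_le_mul_of_nonneg_left ((var_le (by have := g b hb; omega)).trans
        (by exact_mod_cast g b hb)) (by positivity))).trans ?_
    have a1 : (2 : ℝ) ^ (i / 4) * 2 ^ (i / 4) * 2 ^ i ≤ (2 ^ (i - i / 4)) ^ 2 := by
      rw [← pow_add, ← pow_add, ← pow_mul]
      exact pow_le_pow_right₀ one_le_two (by omega)
    have a2 : (1 : ℝ) ≤ 2 ^ (i / 4) := one_le_pow₀ one_le_two
    rw [card_range, nsmul_eq_mul]
    push_cast
    calc _ ≤ ((2 : ℝ) ^ (i / 4) + 2 ^ (i / 4)) *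
          ((2 ^ (i / 4) * 2 ^ (i / 4) * 2 ^ i)⁻¹ * (2 * 2 ^ i)) := by gcongr
      _ = 4 * ((2 : ℝ) ^ (i / 4))⁻¹ := by field_simp; norm_num
      _ ≤ _ := by linarith [inv_two_le i]
  · filter_upwards [Filter.eventually_ge_atTop 1, T.eventually second] with i hi h
    obtain ⟨c1, c2⟩ := cube hi
    refine ⟨dep (f := fun r => ((i : ℝ) ^ 5 * 2 ^ i)⁻¹ * QQ (F r) i (2 ^ i)) fun r r' h => by
      rw [QQ_congr fun n hn => F_congr h (by omega)], (Ex_mul _ _).trans_le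
        ((mul_le_mul_of_nonneg_left (EE_QQ (by positivity) h i _ le_rfl c2) (by positivity)).trans ?_)⟩
    have i1 : (1 : ℝ) ≤ i := by exact_mod_cast hi
    have a1 : Real.log (2 ^ i : ℕ) ≤ i := by
      rw [Nat.cast_pow, Real.log_pow]
      exact mul_le_of_le_one_right (by positivity) (by push_cast; linarith [Real.log_two_lt_d9])
    calc _ ≤ ((i : ℝ) ^ 5 * 2 ^ i)⁻¹ * (((i : ℝ) + i) * 2 ^ i * (3 * (i : ℝ) ^ 2)) := by
          gcongr
      _ = _ := by field_simp; norm_num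
  · filter_upwards [Filter.eventually_ge_atTop 1, T.eventually corr, ((tendsto_natCast_atTop_atTop
      (R := ℝ)).comp T).eventually (ev_log 5 (r := 3) (by norm_num) one_pos)] with i hi h h'
    obtain ⟨c1, c2⟩ := cube hi
    classical
    refine ⟨dep (f := fun r => ∑ s ∈ Ico (2 ^ i) (2 ^ i + 2 ^ i), gap (2 ^ i) r s) fun r r' h =>
      sum_congr rfl fun s hs => if_congr (exists_congr fun j => and_congr_right fun _ =>
        and_congr_right fun hj => h _ (by have := (mem_Ico.mp hs).2; omega)) rfl rfl, ?_⟩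
    rw [one_mul, Real.rpow_ofNat] at h'
    obtain ⟨l, l1, l2⟩ := (h (2 ^ i) h' (by omega)).1
    rw [Ex_sum]
    refine (sum_le_card_nsmul _ _ _ fun s hs => (EE_mono (f := (gap (2 ^ i) · s)) fun b => ?_).trans
      (l2 s (mem_Ico.mp hs).1 (by have := (mem_Ico.mp hs).2; omega))).trans ?_
    · simp only [gap]
      split_ifs with a1 a2 a2
      exacts [le_rfl, zero_le_one, absurd (a2.imp fun j hj => ⟨hj.1, hj.2.1.trans l1, hj.2.2⟩) a1, le_rfl]
    · rw [Nat.card_Ico, add_tsub_cancel_left, nsmul_eq_mul, one_div_pow, ← div_eq_mul_inv,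
        div_le_div_iff₀ (by positivity) (by positivity), one_mul]
      push_cast
      rw [← sq]
      exact pow_le_pow_right₀ (one_le_pow₀ one_le_two) (by norm_num)

end Pool.Agent.MP_00acf4_nt

end
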