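import Pool.Agent.MP_00acf4_nt.Defs
import Mathlib
import Pool.Agent.MP_48b1c3_nt.H54.Mertens
import Pool.Agent.MP_48b1c3_nt.H54.Sieve
import Pool.Agent.MP_18a942_nt.Avg
import Pool.Agent.MP_18a942_nt.Pair

-- part MP_00acf4_nt.Ex
section

/-!
Averages over finitely many residue classes.
-/

set_option autoImplicit false

namespace Pool.Agent.MP_00acf4_nt

open Finset Function MeasureTheory
open scoped BigOperators

instance (p : Pr) : Fact (p : ℕ).Prime := ⟨p.2⟩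

/-- Average over the coordinates in `K`. -/
noncomputable def Ex (K : Finset Pr) (f : Om → ℝ) (a : Om) : ℝ :=
  𝔼 b : (∀ p : K, ZMod (p : Pr)), f (updateFinset a K b)

variable {K K' : Finset Pr} {f g : Om → ℝ} {a : Om}

lemma Ex_empty (f : Om → ℝ) (a : Om) : Ex ∅ f a = f a := by
  simp only [Ex, updateFinset_empty]
  exact Fintype.expect_const _

lemma Ex_union (h : Disjoint K K') (f : Om → ℝ) (a : Om) :
    Ex (K ∪ K') f a = Ex K (Ex K' f) a := by
  simp only [Ex, updateFinset_updateFinset h]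
  rw [← expect_product', univ_product_univ]
  exact (Fintype.expect_equiv (Equiv.piFinsetUnion (fun p : Pr => ZMod p) h) _ _
    fun _ => rfl).symm

lemma Ex_singleton (p : Pr) (f : Om → ℝ) (a : Om) :
    Ex {p} f a = 𝔼 c : ZMod p, f (update a p c) := by
  simp only [Ex, updateFinset_singleton]
  exact Fintype.expect_equiv (Equiv.piUnique fun q : ({p} : Finset Pr) =>
    ZMod (q : Pr)) _ _ fun _ => rfl

lemma Ex_insert {p : Pr} (h : p ∉ K) (f : Om → ℝ) (a : Om) :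
    Ex (insert p K) f a = 𝔼 c : ZMod p, Ex K f (update a p c) := by
  rw [insert_eq, Ex_union (disjoint_singleton_left.mpr h), Ex_singleton]

lemma Ex_sdiff (h : K' ⊆ K) (f : Om → ℝ) (a : Om) : Ex K f a = Ex (K \ K') (Ex K' f) a := by
  rw [← Ex_union sdiff_disjoint, sdiff_union_of_subset h]

lemma Ex_mono' (h : ∀ b : Om, (∀ p ∉ K, b p = a p) → f b ≤ g b) : Ex K f a ≤ Ex K g a :=
  expect_le_expect fun _ _ => h _ fun _ hp => by simp [updateFinset, hp]

lemma Ex_mono (h : ∀ b, f b ≤ g b) : Ex K f a ≤ Ex K g a := Ex_mono' fun b _ => h b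

lemma Ex_congr (h : ∀ b : Om, (∀ p ∉ K, b p = a p) → f b = g b) : Ex K f a = Ex K g a :=
  le_antisymm (Ex_mono' fun b hb => (h b hb).le) (Ex_mono' fun b hb => (h b hb).ge)

lemma Ex_const (K : Finset Pr) (c : ℝ) (a : Om) : Ex K (fun _ => c) a = c :=
  Fintype.expect_const _

lemma Ex_le {c : ℝ} (h : ∀ b : Om, (∀ p ∉ K, b p = a p) → f b ≤ c) : Ex K f a ≤ c :=
  (Ex_mono' h).trans_eq (Ex_const K c a)

lemma Ex_nonneg (h : ∀ b, 0 ≤ f b) : 0 ≤ Ex K f a := expect_nonneg fun _ _ => h _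

lemma Ex_add (f g : Om → ℝ) : Ex K (fun b => f b + g b) a = Ex K f a + Ex K g a :=
  expect_add_distrib _ _ _

lemma Ex_sub (f g : Om → ℝ) : Ex K (fun b => f b - g b) a = Ex K f a - Ex K g a :=
  expect_sub_distrib _ _ _

lemma Ex_mul (c : ℝ) (f : Om → ℝ) : Ex K (fun b => c * f b) a = c * Ex K f a :=
  (mul_expect _ _ _).symm

lemma Ex_sum {ι : Type*} (s : Finset ι) (f : ι → Om → ℝ) :
    Ex K (fun b => ∑ i ∈ s, f i b) a = ∑ i ∈ s, Ex K (f i) a :=
  expect_sum_comm _ _ _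

lemma abs_Ex_le : |Ex K f a| ≤ Ex K (fun b => |f b|) a := abs_expect_le _ _

lemma Ex_cs (f g : Om → ℝ) : Ex K (fun b => f b * g b) a ^ 2 ≤
    Ex K (fun b => f b ^ 2) a * Ex K (fun b => g b ^ 2) a :=
  expect_mul_sq_le_sq_mul_sq _ _ _

lemma Ex_sq_le : Ex K f a ^ 2 ≤ Ex K (fun b => f b ^ 2) a := by
  simpa [Ex_const] using Ex_cs (K := K) (a := a) f fun _ => 1

lemma Ex_comm (f : Om → Om → ℝ) (a a' : Om) :
    Ex K (fun b => Ex K' (f b) a') a = Ex K' (fun b' => Ex K (fun b => f b b') a) a' :=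
  expect_comm _ _ _

lemma Ex_piecewise (f : Om → ℝ) (a a' : Om) :
    Ex K f a = Ex K (fun b => f (K.piecewise b a)) a' := by
  refine expect_congr rfl fun b _ => congrArg f (funext fun p => ?_)
  by_cases h : p ∈ K <;> simp [updateFinset, Finset.piecewise, h]

lemma Ex_prod (K : Finset Pr) (φ : ∀ p : Pr, ZMod p → ℝ) (a : Om) :
    Ex K (fun b => ∏ p ∈ K, φ p (b p)) a = ∏ p ∈ K, 𝔼 c, φ p c := by
  induction K using Finset.induction_on generalizing a with
  | empty => simp [Ex_empty]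
  | insert p K hp ih =>
    rw [Ex_insert hp, prod_insert hp, expect_mul]
    refine expect_congr rfl fun c _ => ?_
    rw [← ih (update a p c), ← Ex_mul]
    exact Ex_congr fun b hb => by rw [prod_insert hp, hb p hp, update_self]

lemma expect_ite (p : Pr) (S : Finset (ZMod p)) (u v : ℝ) :
    𝔼 c : ZMod p, (if c ∈ S then u else v) = v + #S / (p : ℕ) * (u - v) := by
  have h : ∀ c : ZMod p, (if c ∈ S then u else v) = v + (if c ∈ S then 1 else 0) * (u - v) :=
    fun c => by split_ifs <;> ring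
  simp only [h]
  rw [expect_add_distrib, Fintype.expect_const, ← expect_mul, Fintype.expect_eq_sum_div_card,
    ZMod.card]
  simp

instance : IsProbabilityMeasure law := by
  unfold law
  infer_instance

lemma meas_of_dep {α : Type*} [MeasurableSpace α] {F : Om → α} (h : DependsOn F K) :
    Measurable F := by
  have : F = (fun b => F (updateFinset 0 K b)) ∘ K.restrict :=
    funext fun y => h fun i hi => by simp [updateFinset, mem_coe.mp hi]
  rw [this]
  exact Measurable.of_discrete.comp (measurable_restrict K)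

lemma integral_eq (h : DependsOn f K) (a : Om) : ∫ b, f b ∂law = Ex K f a := by
  have : f = fun y => (fun b => f (updateFinset a K b)) (K.restrict y) :=
    funext fun y => h fun i hi => by simp [updateFinset, mem_coe.mp hi]
  rw [Ex, Fintype.expect_eq_sum_div_card]
  nth_rewrite 1 [this]
  rw [law, integral_restrict_infinitePi _ Measurable.of_discrete.aestronglyMeasurable,
    integral_fintype .of_finite, sum_div]
  refine sum_congr rfl fun b _ => ?_
  rw [smul_eq_mul, mul_comm, div_eq_mul_inv, Measure.real, Measure.pi_singleton,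
    ENNReal.toReal_prod, Fintype.card_pi, Nat.cast_prod, ← prod_inv_distrib]
  congr 1
  refine prod_congr rfl fun p _ => ?_
  rw [ProbabilityTheory.uniformOn_univ]
  simp

lemma meas_eq {P : Om → Prop} [DecidablePred P] (h : DependsOn P K) (a : Om) :
    law.real {b | P b} = Ex K (fun b => if P b then 1 else 0) a := by
  rw [← integral_eq (fun x y hxy => by simp only [h hxy]),
    ← integral_indicator_one (measurableSet_setOfPred.mpr (meas_of_dep h))]
  simp only [Set.indicator_apply, Set.mem_ofPred_eq, Pi.one_apply]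

end Pool.Agent.MP_00acf4_nt

end

-- part MP_00acf4_nt.Root
section

/-!
A pure death chain has a real-rooted generating polynomial; bound for its parity bias.
-/

set_option autoImplicit false

namespace Pool.Agent.MP_00acf4_nt

open Finset Polynomial

lemma splits_derivative {f : ℝ[X]} (hf : f.Splits) : f.derivative.Splits := by
  rcases Nat.eq_zero_or_pos f.natDegree with h | h
  · rw [derivative_of_natDegree_zero h]; exact Splits.zero
  have h1 := card_roots_le_derivative f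
  have h2 := card_roots' f.derivative
  have h3 := natDegree_derivative_lt h.ne'
  rw [← hf.natDegree_eq_card_roots] at h1
  rw [splits_iff_card_roots]
  omega

lemma splits_chain {ι : Type*} (m : ℕ) (P : Finset ι) (q : ι → ℕ) (hq : ∀ i ∈ P, 0 < q i ∧ m ≤ q i) :
    (∑ k ∈ range (m + 1), monomial (m - k)
      ((m.choose k : ℝ) * ∏ i ∈ P, (1 - (k : ℝ) / q i))).Splits := by
  classical
  induction P using Finset.induction_on with
  | empty =>
    have : ∑ k ∈ range (m + 1), monomial (m - k) ((m.choose k : ℝ) * ∏ i ∈ (∅ : Finset ι),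
        (1 - (k : ℝ) / q i)) = (X + C 1) ^ m := by
      rw [add_comm X, add_pow]
      refine sum_congr rfl fun k _ => ?_
      simp [← C_mul_X_pow_eq_monomial, mul_comm]
    rw [this]
    exact (Splits.X_add_C 1).pow m
  | insert i P hi ih =>
    obtain ⟨h1, h2⟩ := hq i (mem_insert_self _ _)
    have h3 := splits_X_mul.mpr (splits_derivative ((Splits.X_pow (q i - m)).mul
      (ih fun j hj => hq j (mem_insert_of_mem hj))))
    have h4 : (q i : ℝ) ≠ 0 := by exact_mod_cast h1.ne'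
    rw [← splits_mul_iff_right (f := monomial (q i - m) (q i : ℝ)) (by simpa using h1.ne')
      (Splits.monomial _ _)]
    convert h3 using 1
    rw [mul_sum, mul_sum, derivative_sum, mul_sum]
    refine sum_congr rfl fun k hk => ?_
    have h5 : k ≤ m := Nat.lt_succ_iff.mp (mem_range.mp hk)
    rw [X_pow_mul_monomial, monomial_mul_monomial, derivative_monomial, prod_insert hi]
    have h6 : ((m - k + (q i - m) : ℕ) : ℝ) = q i - k := by
      rw [Nat.cast_add, Nat.cast_sub h5, Nat.cast_sub h2]; ring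
    rcases Nat.eq_zero_or_pos (m - k + (q i - m)) with h | h
    · have h7 : (q i : ℝ) = k := by rw [h] at h6; push_cast at h6; linarith
      rw [h, h7, div_self (h7 ▸ h4)]
      simp
    · rw [X_mul_monomial, Nat.sub_add_cancel h, add_comm (q i - m), h6]
      congr 1
      field_simp

lemma esymm_sq (s : Multiset ℝ) :
    (s.map fun r => r * (1 - r)).sum = s.esymm 1 - s.esymm 1 ^ 2 + 2 * s.esymm 2 := by
  induction s using Multiset.induction_on with
  | empty => simp [Multiset.esymm]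
  | cons a s ih =>
    simp only [Multiset.esymm] at ih ⊢
    rw [Multiset.map_cons, Multiset.sum_cons, ih, Multiset.powersetCard_cons 0,
      Multiset.powersetCard_cons 1]
    simp only [Multiset.map_add, Multiset.sum_add, Multiset.map_map, Function.comp_def,
      Multiset.prod_cons, Multiset.sum_map_mul_left, Multiset.powersetCard_zero_left,
      Multiset.map_singleton, Multiset.prod_zero, Multiset.sum_singleton]
    norm_num
    ring

lemma abs_prod_le (s : Multiset ℝ) :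
    |(s.map fun r => 1 - 2 * r).prod| ≤ Real.exp (-2 * (s.map fun r => r * (1 - r)).sum) := by
  induction s using Multiset.induction_on with
  | empty => simp
  | cons a s ih =>
    rw [Multiset.map_cons, Multiset.map_cons, Multiset.prod_cons, Multiset.sum_cons, abs_mul,
      mul_add, Real.exp_add]
    refine mul_le_mul ?_ ih (abs_nonneg _) (Real.exp_pos _).le
    refine abs_le_of_sq_le_sq' ?_ (Real.exp_pos _).le |> abs_le.mpr
    rw [← Real.exp_nat_mul]
    push_cast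
    linarith [Real.add_one_le_exp (2 * (-2 * (a * (1 - a))))]

theorem parity_le {ι : Type*} (m : ℕ) (P : Finset ι) (q : ι → ℕ) (hq : ∀ i ∈ P, 0 < q i ∧ m ≤ q i) :
    |∑ k ∈ range (m + 1), (m.choose k : ℝ) * ((-2) ^ k * ∏ i ∈ P, (1 - (k : ℝ) / q i))| ≤
      Real.exp (-2 * (m * ∏ i ∈ P, (1 - (1 : ℝ) / q i) - (m * ∏ i ∈ P, (1 - (1 : ℝ) / q i)) ^ 2 +
        m * (m - 1) * ∏ i ∈ P, (1 - (2 : ℝ) / q i))) := by
  have h := splits_chain m P q hq
  set c : ℕ → ℝ := fun k => (m.choose k : ℝ) * ∏ i ∈ P, (1 - (k : ℝ) / q i) with hc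
  set A : ℝ[X] := ∑ k ∈ range (m + 1), monomial (m - k) (c k) with hA
  have hco : ∀ k ≤ m, A.coeff (m - k) = c k := by
    intro k hk
    rw [hA, finsetSum_coeff, sum_eq_single k]
    · simp
    · intro j hj hne
      have := mem_range.mp hj
      rw [coeff_monomial, if_neg (by omega)]
    · intro h; exact absurd (mem_range.mpr (by omega)) h
  have hd : A.natDegree ≤ m :=
    natDegree_sum_le_of_forall_le _ _ fun k _ => (natDegree_monomial_le _).trans (Nat.sub_le _ _)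
  have h0 : A.coeff m = 1 := by simpa [hc] using hco 0 (Nat.zero_le _)
  have hm : A.Monic := monic_of_natDegree_le_of_coeff_eq_one m hd h0
  have hd' : A.natDegree = m := natDegree_eq_of_le_of_coeff_ne_zero hd (by rw [h0]; norm_num)
  set s := A.roots.map fun r => -r with hs
  have hcard : s.card = m := by rw [hs, Multiset.card_map, ← h.natDegree_eq_card_roots, hd']
  have hp : A = (s.map fun r => X + C r).prod := by
    rw [hs, Multiset.map_map]
    simpa [sub_eq_add_neg] using h.eq_prod_roots_of_monic hm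
  clear_value s
  have he : ∀ k, s.esymm k = c k := by
    intro k
    rcases le_or_gt k m with hk | hk
    · rw [← hco k hk, hp, Multiset.prod_X_add_C_coeff _ (by omega), hcard, Nat.sub_sub_self hk]
    · simp [hc, Nat.choose_eq_zero_of_lt hk, Multiset.esymm,
        Multiset.powersetCard_eq_empty _ (hcard ▸ hk)]
  have h1 := abs_prod_le s
  rw [esymm_sq, he, he] at h1
  have h2 : (s.map fun r => 1 - 2 * r).prod = (-2) ^ m * A.eval (-1 / 2) := by
    rw [hp, eval_multiset_prod, Multiset.map_map, ← hcard, ← Multiset.prod_replicate,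
      ← Multiset.map_const', ← Multiset.prod_map_mul]
    congr 1
    refine Multiset.map_congr rfl fun r _ => ?_
    simp only [Function.comp, eval_add, eval_X, eval_C]
    ring
  rw [h2, hA, eval_finsetSum, mul_sum] at h1
  convert h1 using 2
  · refine sum_congr rfl fun k hk => ?_
    obtain ⟨j, rfl⟩ := Nat.exists_eq_add_of_le (Nat.lt_succ_iff.mp (mem_range.mp hk))
    rw [eval_monomial, Nat.add_sub_cancel_left, pow_add, hc]
    have : (-2 : ℝ) ^ j * (-1 / 2) ^ j = 1 := by rw [← mul_pow]; norm_num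
    linear_combination (-((k + j).choose k : ℝ) * ((-2) ^ k * ∏ i ∈ P, (1 - (k : ℝ) / q i))) * this
  · simp only [hc, Nat.choose_one_right, Nat.cast_one, Nat.cast_choose_two, Nat.cast_ofNat]
    ring

end Pool.Agent.MP_00acf4_nt

end

-- part MP_00acf4_nt.Base
section

/-!
Parity bias of a small set under sieving by large primes.
-/

set_option autoImplicit false

namespace Pool.Agent.MP_00acf4_nt

open Finset Function
open scoped BigOperators

lemma Ex_update {K : Finset Pr} {p : Pr} (hp : p ∉ K) (f : Om → ℝ) (a : Om) (c : ZMod p) :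
    Ex K f (update a p c) = Ex K (fun b => f (update b p c)) a := by
  refine expect_congr rfl fun b _ => congrArg f (funext fun q => ?_)
  by_cases h : q = p
  · subst h; simp [updateFinset, hp]
  · simp [updateFinset, h]

lemma replace (P : Finset Pr) (Ec : ∀ p : Pr, Finset (ZMod p)) (φ φ' : ∀ p : Pr, ZMod p → ℝ)
    (h1 : ∀ p ∈ P, ∀ c ∈ Ec p, φ p c = φ' p c)
    (h2 : ∀ p ∈ P, ∑ c ∈ (Ec p)ᶜ, φ p c = ∑ c ∈ (Ec p)ᶜ, φ' p c) (Ψ : Om → ℝ)
    (h3 : ∀ p ∈ P, ∀ a, ∀ c ∉ Ec p, ∀ c' ∉ Ec p, Ψ (update a p c) = Ψ (update a p c')) (a : Om) :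
    Ex P (fun b => (∏ p ∈ P, φ p (b p)) * Ψ b) a = Ex P (fun b => (∏ p ∈ P, φ' p (b p)) * Ψ b) a := by
  induction P using Finset.induction_on generalizing a with
  | empty => simp
  | insert p P hp ih =>
    have e : ∀ (ψ : ∀ p : Pr, ZMod p → ℝ) (c : ZMod p),
        Ex P (fun b => (∏ q ∈ insert p P, ψ q (b q)) * Ψ b) (update a p c) =
          ψ p c * Ex P (fun b => (∏ q ∈ P, ψ q (b q)) * Ψ b) (update a p c) := fun ψ c => by
      rw [← Ex_mul]
      exact Ex_congr fun b hb => by rw [prod_insert hp, hb p hp, update_self, mul_assoc]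
    have ih' := ih (fun q hq => h1 q (mem_insert_of_mem hq)) (fun q hq => h2 q (mem_insert_of_mem hq))
      fun q hq => h3 q (mem_insert_of_mem hq)
    simp only [Ex_insert hp, e, ih']
    set W : ZMod p → ℝ := fun c => Ex P (fun b => (∏ q ∈ P, φ' q (b q)) * Ψ b) (update a p c) with hW
    have hc : ∀ c ∉ Ec p, ∀ c' ∉ Ec p, W c = W c' := fun c hc c' hc' => by
      simp only [hW, Ex_update hp]
      refine Ex_congr fun b _ => ?_
      rw [h3 p (mem_insert_self _ _) b c hc c' hc']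
      congr 1
      refine prod_congr rfl fun q hq => ?_
      have : q ≠ p := fun h => hp (h ▸ hq)
      rw [update_of_ne this, update_of_ne this]
    change 𝔼 c, φ p c * W c = 𝔼 c, φ' p c * W c
    rw [Fintype.expect_eq_sum_div_card, Fintype.expect_eq_sum_div_card,
      ← sum_add_sum_compl (Ec p), ← sum_add_sum_compl (Ec p)]
    congr 2
    · exact sum_congr rfl fun c hc => by rw [h1 p (mem_insert_self _ _) c hc]
    · rcases (Ec p)ᶜ.eq_empty_or_nonempty with h | ⟨c₀, h⟩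
      · simp [h]
      · have : ∀ ψ : ZMod p → ℝ, ∑ c ∈ (Ec p)ᶜ, ψ c * W c = (∑ c ∈ (Ec p)ᶜ, ψ c) * W c₀ := fun ψ => by
          rw [sum_mul]
          exact sum_congr rfl fun c h' => by rw [hc c (mem_compl.mp h') c₀ (mem_compl.mp h)]
        rw [this, this, h2 p (mem_insert_self _ _)]

lemma sign_expand (U : Finset ℕ) (s : ℕ → Prop) [DecidablePred s] :
    (-1 : ℝ) ^ #(U.filter s) = ∑ B ∈ U.powerset, (-2) ^ #B * if ∀ t ∈ B, s t then 1 else 0 := by
  have : (-1 : ℝ) ^ #(U.filter s) = ∏ t ∈ U, (1 + -2 * if s t then 1 else 0) := by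
    rw [← prod_const, prod_filter]
    exact prod_congr rfl fun t _ => by split_ifs <;> norm_num
  rw [this, prod_one_add]
  exact sum_congr rfl fun B _ => by rw [prod_mul_distrib, prod_const, prod_boole]

lemma one_sub_sum_le_prod {ι : Type*} (s : Finset ι) (x : ι → ℝ) (h : ∀ i ∈ s, 0 ≤ x i ∧ x i ≤ 1) :
    1 - ∑ i ∈ s, x i ≤ ∏ i ∈ s, (1 - x i) := by
  classical
  induction s using Finset.induction_on with
  | empty => simp
  | insert i s hi ih =>
    have h1 := ih fun j hj => h j (mem_insert_of_mem hj)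
    have h2 := h i (mem_insert_self _ _)
    have h3 : 0 ≤ ∑ j ∈ s, x j := sum_nonneg fun j hj => (h j (mem_insert_of_mem hj)).1
    rw [sum_insert hi, prod_insert hi]
    nlinarith [mul_le_mul_of_nonneg_left h1 (sub_nonneg.mpr h2.2), mul_nonneg h2.1 h3]

lemma prod_le_exp_neg {ι : Type*} (s : Finset ι) (x : ι → ℝ) (h : ∀ i ∈ s, x i ≤ 1) :
    ∏ i ∈ s, (1 - x i) ≤ Real.exp (-∑ i ∈ s, x i) := by
  rw [← sum_neg_distrib, Real.exp_sum]
  exact prod_le_prod (fun i hi => sub_nonneg.mpr (h i hi))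
    fun i _ => by linarith [Real.add_one_le_exp (-x i)]

lemma var_ge {ι : Type*} (s : Finset ι) (x : ι → ℝ) {m w : ℝ} (hm : m = 0 ∨ 1 ≤ m) (hw : 4 ≤ w)
    (hmw : m ^ 2 ≤ w) (h : ∀ i ∈ s, 0 ≤ x i ∧ x i ≤ 2 / w) (hs : ∑ i ∈ s, x i ≤ 1 / 2) :
    m / 4 * ∑ i ∈ s, x i - 4 ≤ m * ∏ i ∈ s, (1 - x i) - (m * ∏ i ∈ s, (1 - x i)) ^ 2 +
      m * (m - 1) * ∏ i ∈ s, (1 - 2 * x i) := by
  rcases hm with rfl | hm
  · norm_num
  have w0 : 0 < w := by linarith
  have hx : ∀ i ∈ s, x i ≤ 1 / 2 := fun i hi =>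
    (h i hi).2.trans (by rw [div_le_div_iff₀ w0 two_pos]; linarith)
  set σ := ∑ i ∈ s, x i with hσ
  have σ0 : 0 ≤ σ := sum_nonneg fun i hi => (h i hi).1
  have h1 := one_sub_sum_le_prod s x fun i hi => ⟨(h i hi).1, by linarith [hx i hi]⟩
  have h2 := prod_le_exp_neg s x fun i hi => by linarith [hx i hi]
  have h3 : Real.exp (-σ) ≤ 1 - σ / 2 := by
    rw [Real.exp_neg, inv_le_comm₀ (Real.exp_pos _) (by linarith)]
    refine le_trans ?_ (Real.add_one_le_exp σ)
    rw [inv_le_iff_one_le_mul₀ (by linarith)]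
    nlinarith
  have h4 := one_sub_sum_le_prod s (fun i => 4 * x i ^ 2) fun i hi =>
    ⟨by positivity, by nlinarith [hx i hi, (h i hi).1]⟩
  have h5 : ∑ i ∈ s, 4 * x i ^ 2 ≤ 4 / w := by
    calc _ ≤ ∑ i ∈ s, 8 / w * x i := sum_le_sum fun i hi => by
          have := mul_le_mul_of_nonneg_right (h i hi).2 (h i hi).1
          calc 4 * x i ^ 2 = 4 * (x i * x i) := by ring
            _ ≤ 4 * (2 / w * x i) := by gcongr
            _ = _ := by ring
      _ ≤ 8 / w * (1 / 2) := by rw [← mul_sum]; gcongr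
      _ = _ := by ring
  have h6 : (∏ i ∈ s, (1 - x i)) ^ 2 * ∏ i ∈ s, (1 - 4 * x i ^ 2) ≤ ∏ i ∈ s, (1 - 2 * x i) := by
    rw [← prod_pow, ← prod_mul_distrib]
    refine prod_le_prod (fun i hi => mul_nonneg (sq_nonneg _) (by nlinarith [hx i hi, (h i hi).1]))
      fun i hi => ?_
    have a1 := hx i hi
    have a2 := (h i hi).1
    nlinarith [mul_nonneg (sq_nonneg (x i)) (show 0 ≤ 4 * (1 - x i) ^ 2 - 1 by nlinarith)]
  set ρ := ∏ i ∈ s, (1 - x i)
  have h7 : ρ ^ 2 * (1 - 4 / w) ≤ ∏ i ∈ s, (1 - 2 * x i) := le_trans (by gcongr; linarith) h6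
  have h8 : ρ ≤ 1 - σ / 2 := h2.trans h3
  have h9 : 1 / 2 ≤ ρ := by linarith
  have h10 : m * (m - 1) * (ρ ^ 2 * (1 - 4 / w)) ≤ m * (m - 1) * ∏ i ∈ s, (1 - 2 * x i) :=
    mul_le_mul_of_nonneg_left h7 (by nlinarith)
  have h11 : m * (m - 1) * (ρ ^ 2 * (4 / w)) ≤ w * (1 * (4 / w)) := by
    gcongr
    · nlinarith
    · nlinarith
  have h12 : w * (1 * (4 / w)) = 4 := by field_simp
  have h13 : σ / 4 ≤ ρ * (1 - ρ) := by nlinarith
  nlinarith [mul_le_mul_of_nonneg_left h13 (by linarith : 0 ≤ m)]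

theorem base (P : Finset Pr) (U : Finset ℕ) (Ec : ∀ p : Pr, Finset (ZMod p)) (Ψ : Om → ℝ)
    (hΨ : ∀ a, |Ψ a| ≤ 1)
    (h3 : ∀ p ∈ P, ∀ a, ∀ c ∉ Ec p, ∀ c' ∉ Ec p, Ψ (update a p c) = Ψ (update a p c'))
    (hinj : ∀ p ∈ P, Set.InjOn (Nat.cast : ℕ → ZMod p) U ∧ ∀ t ∈ U, (t : ZMod p) ∉ Ec p)
    {y : ℕ} (hy : 2 ≤ y) (hU : #U ≤ y) (hP : ∀ p ∈ P, y ^ 2 ≤ (p : ℕ) ∧ #(Ec p) ≤ y)
    (hs : 1 / 8 ≤ ∑ p ∈ P, (1 : ℝ) / (p : ℕ)) (hs' : ∑ p ∈ P, (1 : ℝ) / (p : ℕ) ≤ 1 / 4) (a : Om) :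
    |Ex P (fun b => (-1) ^ #(U.filter fun t => ∀ p ∈ P, (t : ZMod p) ≠ b p) * Ψ b) a| ≤
      Real.exp (9 - #U / 16) := by
  set m := #U with hm
  set q : Pr → ℕ := fun p => p - #(Ec p) with hq
  have y2 : (2 : ℝ) ≤ y := by exact_mod_cast hy
  have my : (m : ℝ) ≤ y := by exact_mod_cast hU
  have hq1 : ∀ p ∈ P, 0 < q p ∧ m ≤ q p ∧ (p : ℕ) ≤ 2 * q p ∧ q p ≤ p := fun p hp => by
    have := hP p hp
    have : 2 * y ≤ y ^ 2 := by nlinarith
    simp only [hq]
    omega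
  have e1 : Ex P (fun b => (-1) ^ #(U.filter fun t => ∀ p ∈ P, (t : ZMod p) ≠ b p) * Ψ b) a =
      Ex P (fun b => (∑ k ∈ range (m + 1), (m.choose k : ℝ) * ((-2) ^ k *
        ∏ p ∈ P with b p ∉ Ec p, (1 - (k : ℝ) / q p))) * Ψ b) a := by
    have e2 : ∀ b : Om, ∑ k ∈ range (m + 1), (m.choose k : ℝ) * ((-2) ^ k *
        ∏ p ∈ P with b p ∉ Ec p, (1 - (k : ℝ) / q p)) = ∑ B ∈ U.powerset, (-2) ^ #B *
          ∏ p ∈ P, if b p ∈ Ec p then 1 else (1 - (#B : ℝ) / q p) := fun b => by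
      rw [sum_powerset_apply_card fun k => (-2 : ℝ) ^ k *
        ∏ p ∈ P, if b p ∈ Ec p then 1 else (1 - (k : ℝ) / q p)]
      simp only [nsmul_eq_mul, prod_filter, ite_not, hm]
    simp only [sign_expand, e2, sum_mul, mul_assoc, Ex_sum, Ex_mul]
    refine sum_congr rfl fun B hB => ?_
    have hB' := mem_powerset.mp hB
    rw [← replace P Ec (fun p c => if c ∈ B.image Nat.cast then 0 else 1)
      (fun p c => if c ∈ Ec p then 1 else (1 - (#B : ℝ) / q p)) ?_ ?_ Ψ h3]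
    · congr 2
      funext b
      congr 1
      split_ifs with h
      · refine (prod_eq_one fun p hp => if_neg fun h' => ?_).symm
        obtain ⟨t, ht, e⟩ := mem_image.mp h'
        exact h t ht p hp e
      · push Not at h
        obtain ⟨t, ht, p, hp, e⟩ := h
        symm
        exact prod_eq_zero hp (if_pos (mem_image.mpr ⟨t, ht, e⟩))
    · intro p hp c hc
      rw [if_pos hc, if_neg]
      intro h
      obtain ⟨t, ht, rfl⟩ := mem_image.mp h
      exact (hinj p hp).2 t (hB' ht) hc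
    · intro p hp
      have a1 : (B.image Nat.cast : Finset (ZMod p)) ⊆ (Ec p)ᶜ :=
        image_subset_iff.mpr fun t ht => mem_compl.mpr ((hinj p hp).2 t (hB' ht))
      have a2 : (q p : ℝ) ≠ 0 := by exact_mod_cast (hq1 p hp).1.ne'
      have a3 : #(Ec p)ᶜ = q p := by rw [card_compl, ZMod.card]
      rw [sum_congr rfl fun c hc => if_neg (mem_compl.mp hc), sum_const, a3,
        ← sum_sdiff a1, sum_congr rfl fun c hc => if_neg (mem_sdiff.mp hc).2,
        sum_congr rfl fun c hc => if_pos hc, sum_const, sum_const, card_sdiff_of_subset a1, a3,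
        card_image_of_injOn ((hinj p hp).1.mono hB'),
        nsmul_eq_mul, nsmul_eq_mul, nsmul_eq_mul,
        Nat.cast_sub ((card_le_card hB').trans (hq1 p hp).2.1)]
      field_simp
      ring
  have p0 : ∀ p : Pr, (0 : ℝ) < (p : ℕ) := fun p => by exact_mod_cast p.2.pos
  have hx : ∀ p ∈ P, (1 : ℝ) / (p : ℕ) ≤ 1 / q p ∧ (1 : ℝ) / q p ≤ 2 * (1 / (p : ℕ)) ∧
      (1 : ℝ) / (p : ℕ) ≤ 1 / y ^ 2 := fun p hp => by
    obtain ⟨a1, -, a2, a3⟩ := hq1 p hp
    have a4 : (0 : ℝ) < q p := by exact_mod_cast a1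
    refine ⟨one_div_le_one_div_of_le a4 (by exact_mod_cast a3), ?_,
      one_div_le_one_div_of_le (by positivity) (by exact_mod_cast (hP p hp).1)⟩
    rw [mul_one_div, div_le_div_iff₀ a4 (p0 p), one_mul]
    exact_mod_cast a2
  rw [e1]
  refine abs_Ex_le.trans (le_trans (Ex_mono (g := fun b => Real.exp (8 - m / 16) *
    ∏ p ∈ P, if b p ∈ Ec p then Real.exp (m / 2 * (1 / (p : ℕ))) else 1) fun b => ?_) ?_)
  · rw [abs_mul]
    refine (mul_le_of_le_one_right (abs_nonneg _) (hΨ b)).trans ((parity_le m _ q fun p hp =>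
      ⟨(hq1 p (mem_filter.mp hp).1).1, (hq1 p (mem_filter.mp hp).1).2.1⟩).trans ?_)
    have a1 := var_ge (P.filter fun p => b p ∉ Ec p) (fun p => (1 : ℝ) / q p) (m := m) (w := y ^ 2)
      (by rcases Nat.eq_zero_or_pos m with h | h
          · left; exact_mod_cast h
          · right; exact_mod_cast h) (by nlinarith) (by gcongr)
      (fun p hp => ⟨by positivity, (hx p (mem_filter.mp hp).1).2.1.trans (by
        rw [div_eq_mul_one_div 2]; linarith [(hx p (mem_filter.mp hp).1).2.2])⟩)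
      (le_trans (sum_le_sum fun p hp => (hx p (mem_filter.mp hp).1).2.1) (by
        rw [← mul_sum]
        linarith [sum_le_sum_of_subset_of_nonneg (filter_subset (fun p => b p ∉ Ec p) P)
          (f := fun p : Pr => (1 : ℝ) / (p : ℕ)) fun _ _ _ => by positivity]))
    simp only [mul_one_div] at a1
    rw [← prod_filter, ← Real.exp_sum, ← Real.exp_add, ← mul_sum]
    have a2 := sum_filter_add_sum_filter_not P (fun p => b p ∈ Ec p) fun p => (1 : ℝ) / (p : ℕ)
    have a3 := sum_le_sum fun p (hp : p ∈ P.filter fun p => b p ∉ Ec p) => (hx p (mem_filter.mp hp).1).1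
    have a4 : (0 : ℝ) ≤ m := by positivity
    refine Real.exp_le_exp.mpr ?_
    nlinarith [mul_le_mul_of_nonneg_left a3 a4, mul_le_mul_of_nonneg_left hs a4]
  · rw [Ex_mul, Ex_prod P fun p c => if c ∈ Ec p then Real.exp (m / 2 * (1 / (p : ℕ))) else 1,
      show (9 : ℝ) - m / 16 = 8 - m / 16 + 1 by ring, Real.exp_add]
    gcongr
    calc _ ≤ ∏ p ∈ P, Real.exp (1 / (p : ℕ)) := prod_le_prod
          (fun p _ => expect_nonneg fun c _ => by split_ifs <;> positivity) fun p hp => ?_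
      _ ≤ _ := by rw [← Real.exp_sum]; exact Real.exp_le_exp.mpr (by linarith)
    rw [expect_ite]
    have a1 := (hx p hp).2.2
    have a2 : (m : ℝ) / 2 * (1 / (p : ℕ)) ≤ y / 2 * (1 / y ^ 2) := by gcongr
    have a3 : (y : ℝ) / 2 * (1 / y ^ 2) = 1 / (2 * y) := by field_simp
    have a4 : (0 : ℝ) ≤ m / 2 * (1 / (p : ℕ)) := by positivity
    have a5 : 1 / (2 * (y : ℝ)) ≤ 1 := by rw [div_le_one (by positivity)]; linarith
    have a6 := (abs_le.mp (Real.abs_exp_sub_one_le (x := m / 2 * (1 / (p : ℕ)))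
      (by rw [abs_of_nonneg a4]; linarith))).2
    rw [abs_of_nonneg a4] at a6
    have a7 : (#(Ec p) : ℝ) ≤ y := by exact_mod_cast (hP p hp).2
    have a8 : (#(Ec p) : ℝ) / (p : ℕ) * (Real.exp (m / 2 * (1 / (p : ℕ))) - 1) ≤
        y / (p : ℕ) * (2 * (1 / (2 * y))) := by
      gcongr
      · linarith [Real.add_one_le_exp ((m : ℝ) / 2 * (1 / (p : ℕ)))]
      · linarith
    have a9 : (y : ℝ) / (p : ℕ) * (2 * (1 / (2 * y))) = 1 / (p : ℕ) := by field_simp
    linarith [Real.add_one_le_exp ((1 : ℝ) / (p : ℕ))]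

end Pool.Agent.MP_00acf4_nt

end

-- part MP_00acf4_nt.Surv
section

/-!
An arithmetic progression keeps many survivors with overwhelming probability.
-/

set_option autoImplicit false

namespace Pool.Agent.MP_00acf4_nt

open Finset Function Filter Pool.Agent.MP_48b1c3_nt.H54
open scoped BigOperators

lemma sum_le_PI (Q : Finset Pr) {y : ℝ} (hQ : ∀ p ∈ Q, ((p : ℕ) : ℝ) ≤ y) (f : ℕ → ℝ)
    (hf : ∀ n, 0 ≤ f n) : ∑ p ∈ Q, f p ≤ ∑ q ∈ PI 0 y, f q := by
  rw [← sum_image (s := Q) (g := Subtype.val) (f := f) fun _ _ _ _ h => Subtype.ext h]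
  refine sum_le_sum_of_subset_of_nonneg (image_subset_iff.mpr fun p hp => ?_) fun n _ _ => hf n
  exact mem_PI.2 ⟨by exact_mod_cast p.2.pos, hQ p hp, p.2⟩

lemma mertens_up : ∃ C : ℝ, 0 < C ∧ ∀ y : ℝ, 2 ≤ y → ∀ Q : Finset Pr, (∀ p ∈ Q, ((p : ℕ) : ℝ) ≤ y) →
    ∑ p ∈ Q, (1 : ℝ) / (p : ℕ) ≤ Real.log (Real.log y) + C := by
  obtain ⟨C, C0, hC⟩ := mertens2
  refine ⟨C, C0, fun y hy Q hQ => (sum_le_PI Q hQ (fun n => 1 / n) fun _ => by positivity).trans ?_⟩
  linarith [(abs_le.mp (hC y hy)).2]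

lemma crt (S : Finset Pr) (s d : ℕ) (hd : ∀ p ∈ S, ¬ (p : ℕ) ∣ d) (a : Om) :
    ∃ u, ∀ t, (∀ p ∈ S, ((s + d * t : ℕ) : ZMod p) = a p) ↔ t ≡ u [MOD ∏ p ∈ S, p] := by
  induction S using Finset.induction_on with
  | empty => exact ⟨0, by simp [Nat.modEq_one]⟩
  | insert p S hp ih =>
    obtain ⟨u, hu⟩ := ih fun q hq => hd q (mem_insert_of_mem hq)
    have h1 : (d : ZMod p) ≠ 0 := by
      rw [Ne, ZMod.natCast_eq_zero_iff]; exact hd p (mem_insert_self _ _)
    have h2 : (p : ℕ).Coprime (∏ q ∈ S, q) := Nat.Coprime.prod_right fun q hq =>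
      (Nat.coprime_primes p.2 q.2).mpr fun h => hp (Subtype.ext h ▸ hq)
    obtain ⟨v, h3, h4⟩ := Nat.chineseRemainder h2 ((a p - s) / d).val u
    refine ⟨v, fun t => ?_⟩
    rw [forall_mem_insert, prod_insert hp, ← Nat.modEq_and_modEq_iff_modEq_mul h2, hu]
    refine and_congr ?_ ⟨fun h => h.trans h4.symm, fun h => h.trans h4⟩
    rw [← ZMod.natCast_eq_natCast_iff] at h3 ⊢
    rw [h3, ZMod.natCast_zmod_val, eq_div_iff h1]
    push_cast
    constructor <;> intro h <;> linear_combination h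

lemma ap_card (S : Finset Pr) (s d L : ℕ) (hd : ∀ p ∈ S, ¬ (p : ℕ) ∣ d) (a : Om) :
    |(#{t ∈ range L | ∀ p ∈ S, ((s + d * t : ℕ) : ZMod p) = a p} : ℝ) -
      L * ∏ p ∈ S, (1 : ℝ) / (p : ℕ)| ≤ 1 := by
  obtain ⟨u, hu⟩ := crt S s d hd a
  have h0 : 0 < ∏ p ∈ S, (p : ℕ) := prod_pos fun p _ => p.2.pos
  simp only [hu]
  rw [← Nat.count_eq_card_filter_range, Nat.count_modEq_card _ h0, prod_div_distrib,
    prod_const_one, ← Nat.cast_prod, mul_one_div, abs_le]
  have h1 : ((L / ∏ p ∈ S, (p : ℕ) : ℕ) : ℝ) ≤ L / (∏ p ∈ S, (p : ℕ) : ℕ) := Nat.cast_div_le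
  have h2 : (L : ℝ) / (∏ p ∈ S, (p : ℕ) : ℕ) < (L / ∏ p ∈ S, (p : ℕ) : ℕ) + 1 := by
    rw [div_lt_iff₀ (by exact_mod_cast h0)]
    have := Nat.lt_mul_div_succ L h0
    rw [mul_comm] at this
    exact_mod_cast this
  rw [Nat.cast_add]
  split_ifs <;> constructor <;> simp only [Nat.cast_one, Nat.cast_zero] <;> linarith

lemma inv_pow_step {M n : ℝ} (s : ℕ) (hn : 0 ≤ n) (h : 4 * s * n ≤ M) (hs : 1 ≤ s) (hM : 0 < M) :
    ((M - n) ^ s)⁻¹ ≤ (M ^ s)⁻¹ * (1 + 4 / 3 * s * (n / M)) := by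
  have s1 : (1 : ℝ) ≤ s := by exact_mod_cast hs
  set u := n / M with hu
  have u0 : 0 ≤ u := by positivity
  have h1 : s * u ≤ 1 / 4 := by rw [hu, ← mul_div_assoc, div_le_iff₀ hM]; linarith
  have h2 : M - n = M * (1 - u) := by rw [hu]; field_simp
  have h3 := one_add_mul_le_pow (a := -u) (by nlinarith) s
  rw [h2, mul_pow, mul_inv]
  gcongr
  rw [inv_le_iff_one_le_mul₀ (pow_pos (by nlinarith) _)]
  have h4 : 1 ≤ (1 + 4 / 3 * s * u) * (1 + s * -u) := by nlinarith [mul_nonneg (by linarith : (0 : ℝ) ≤ s) u0]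
  exact h4.trans (mul_le_mul_of_nonneg_left h3 (by positivity))

/-- The number of `t ∈ S` with `v t` outside the classes of the primes in `Q`. -/
noncomputable def sv (S : Finset ℕ) (v : ℕ → ℕ) (Q : Finset Pr) (a : Om) : ℝ :=
  #{t ∈ S | ∀ p ∈ Q, (v t : ZMod p) ≠ a p}

lemma sv_nonneg (S : Finset ℕ) (v : ℕ → ℕ) (Q : Finset Pr) (a : Om) : 0 ≤ sv S v Q a :=
  Nat.cast_nonneg _

lemma pot (S : Finset ℕ) (v : ℕ → ℕ) {s : ℕ} (hs : 1 ≤ s) {m₀ : ℝ} (hm : 0 < m₀) (P : Finset Pr)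
    (hP : ∀ p ∈ P, ∀ c : ZMod p, 4 * s * (#{t ∈ S | (v t : ZMod p) = c} : ℝ) ≤ m₀) (Q : Finset Pr)
    (hQ : Disjoint Q P) (a : Om) :
    Ex P (fun b => ((sv S v (Q ∪ P) b + m₀) ^ s)⁻¹) a ≤ ((sv S v Q a + m₀) ^ s)⁻¹ *
        Real.exp (4 / 3 * s * ∑ p ∈ P, (1 : ℝ) / (p : ℕ)) := by
  induction P using Finset.induction_on generalizing Q a with
  | empty => simp [Ex_empty]
  | insert p P hp ih =>
    have hpQ : p ∉ Q := fun h => disjoint_left.mp hQ h (mem_insert_self _ _)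
    rw [Ex_insert hp, union_insert, ← insert_union]
    set S₁ := {t ∈ S | ∀ p ∈ Q, (v t : ZMod p) ≠ a p} with hS₁
    set M := (#S₁ : ℝ) + m₀ with hM
    have M0 : 0 < M := by positivity
    have h1 : ∀ c : ZMod p, sv S v (insert p Q) (update a p c) + m₀ =
        M - #{t ∈ S₁ | (v t : ZMod p) = c} := fun c => by
      have : {t ∈ S | ∀ q ∈ insert p Q, (v t : ZMod q) ≠ update a p c q} =
          {t ∈ S₁ | ¬ (v t : ZMod p) = c} := by
        rw [hS₁, filter_filter]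
        refine filter_congr fun t _ => ?_
        rw [forall_mem_insert, update_self, and_comm]
        refine and_congr_left fun _ => forall₂_congr fun q hq => ?_
        rw [update_of_ne fun h : q = p => hpQ (h ▸ hq)]
      rw [sv, this, hM, ← card_filter_add_card_filter_not (s := S₁) fun t => (v t : ZMod p) = c]
      push_cast
      ring
    refine (expect_le_expect (g := fun c => (M ^ s)⁻¹ * (1 + 4 / 3 * s *
      (#{t ∈ S₁ | (v t : ZMod p) = c} / M)) * Real.exp (4 / 3 * s * ∑ p ∈ P, (1 : ℝ) / (p : ℕ)))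
      fun c _ => (ih (fun q hq => hP q (mem_insert_of_mem hq)) _ (disjoint_insert_left.mpr
        ⟨hp, hQ.mono_right (subset_insert _ _)⟩) _).trans ?_).trans ?_
    · rw [h1]
      gcongr
      refine inv_pow_step s (by positivity) (le_trans ?_ ((hP p (mem_insert_self _ _) c).trans
        (le_add_of_nonneg_left (by positivity)))) hs M0
      gcongr
      exact filter_subset _ _
    · rw [← expect_mul, ← mul_expect, expect_add_distrib, Fintype.expect_const, ← mul_expect,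
        ← expect_div, Fintype.expect_eq_sum_div_card, ZMod.card, ← Nat.cast_sum,
        ← card_eq_sum_card_fiberwise (fun _ _ => mem_coe.mpr (mem_univ _)), sum_insert hp,
        mul_add (4 / 3 * s : ℝ), Real.exp_add, mul_assoc]
      change _ ≤ (M ^ s)⁻¹ * _
      gcongr
      have : (#S₁ : ℝ) / (p : ℕ) / M ≤ 1 / (p : ℕ) := by
        rw [div_right_comm]
        gcongr
        exact (div_le_one M0).mpr (by linarith)
      have h2 : 4 / 3 * s * ((#S₁ : ℝ) / (p : ℕ) / M) ≤ 4 / 3 * s * (1 / (p : ℕ)) := by gcongr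
      linarith [Real.add_one_le_exp (4 / 3 * s * ((1 : ℝ) / (p : ℕ)))]

lemma exp_le_prod (Q : Finset Pr) :
    Real.exp (-2 * ∑ p ∈ Q, (1 : ℝ) / (p : ℕ)) ≤ ∏ p ∈ Q, (1 - (1 : ℝ) / (p : ℕ)) := by
  rw [mul_sum, Real.exp_sum]
  refine prod_le_prod (fun _ _ => (Real.exp_pos _).le) fun p _ => ?_
  have h1 : (2 : ℝ) ≤ (p : ℕ) := by exact_mod_cast p.2.two_le
  have h2 : (1 : ℝ) / (p : ℕ) ≤ 1 / 2 := one_div_le_one_div_of_le two_pos h1
  have h3 : (0 : ℝ) ≤ 1 / (p : ℕ) := by positivity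
  generalize (1 : ℝ) / (p : ℕ) = x at h2 h3
  rw [neg_mul, Real.exp_neg, inv_le_comm₀ (Real.exp_pos _) (by linarith)]
  refine le_trans ?_ (Real.add_one_le_exp _)
  rw [inv_le_iff_one_le_mul₀ (by linarith)]
  nlinarith

lemma ev_loglog (C : ℝ) {δ : ℝ} (hδ : 0 < δ) :
    ∀ᶠ L : ℕ in atTop, Real.log (Real.log L) + C ≤ δ * Real.log L := by
  have T : Tendsto (fun L : ℕ => Real.log L) atTop atTop :=
    Real.tendsto_log_atTop.comp tendsto_natCast_atTop_atTop
  filter_upwards [T.eventually (Real.isLittleO_log_id_atTop.bound (c := δ / 2) (by positivity)),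
    T.eventually_ge_atTop (2 * C / δ), T.eventually_ge_atTop 0] with L h1 h2 h3
  rw [id, Real.norm_of_nonneg h3, Real.norm_eq_abs] at h1
  rw [div_le_iff₀ hδ] at h2
  linarith [le_abs_self (Real.log (Real.log L))]

lemma stage_one : ∀ᶠ L : ℕ in atTop, ∀ Q : Finset Pr,
    (∀ p ∈ Q, ((p : ℕ) : ℝ) ≤ Real.exp (Real.log L / 200)) → ∀ s d : ℕ, (∀ p ∈ Q, ¬ (p : ℕ) ∣ d) →
      ∀ a : Om, Real.exp (0.999 * Real.log L) ≤ sv (range L) (fun t => s + d * t) Q a := by
  obtain ⟨C, C0, hC⟩ := mertens_up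
  obtain ⟨C₁, C1, hC₁⟩ := mertens1
  have T : Tendsto (fun L : ℕ => Real.log L) atTop atTop :=
    Real.tendsto_log_atTop.comp tendsto_natCast_atTop_atTop
  filter_upwards [ev_loglog C (δ := 0.0001) (by norm_num), T.eventually_ge_atTop (200 * C₁),
    T.eventually_ge_atTop 20000, eventually_ge_atTop 2] with L h1 h2 h3 h4 Q hQ s d hd a
  have L2 : (2 : ℝ) ≤ L := by exact_mod_cast h4
  have eL : Real.exp (Real.log L) = L := Real.exp_log (by linarith)
  set l := Real.log L with hl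
  have p0 : ∀ p : Pr, (0 : ℝ) < (p : ℕ) := fun p => by exact_mod_cast p.2.pos
  have h5 : ∑ p ∈ Q, (1 : ℝ) / (p : ℕ) ≤ 0.0001 * l := (hC L L2 Q fun p hp =>
    (hQ p hp).trans (eL ▸ Real.exp_le_exp.mpr (by linarith))).trans h1
  have h6 := (sieve Q (fun p => 1 / (p : ℕ)) (fun p => 6 / l * Real.log (p : ℕ)) (range L)
    (fun _ => 1) (fun p t => ((s + d * t : ℕ) : ZMod p) = a p) L (fun _ _ => zero_le_one)
    (by positivity) (fun p _ => ⟨by positivity,
      one_div_le_one_div_of_le two_pos (by exact_mod_cast p.2.two_le)⟩)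
    (fun p hp => ⟨mul_nonneg (by positivity) (Real.log_natCast_nonneg _), by
      have := (Real.log_le_iff_le_exp (p0 p)).mpr (hQ p hp)
      rw [div_mul_eq_mul_div, div_le_iff₀ (by linarith)]
      linarith⟩) ?_ (Real.exp (0.51 * l)) ?_).1
  · simp only [sum_const, nsmul_eq_mul, mul_one] at h6
    have h7 : Real.exp (-2 * (0.0001 * l)) ≤ _ :=
      (Real.exp_le_exp.mpr (by linarith)).trans (exp_le_prod Q)
    have h8 : Real.exp (0.51 * l) ≤ Real.exp (0.999 * l) := Real.exp_le_exp.mpr (by linarith)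
    have h9 : Real.exp (0.999 * l) * 16 ≤ L * Real.exp (-2 * (0.0001 * l)) := by
      rw [← eL, ← Real.exp_add, show l + -2 * (0.0001 * l) = 0.999 * l + 0.0008 * l by ring,
        Real.exp_add]
      gcongr
      linarith [Real.add_one_le_exp (0.0008 * l)]
    have h10 := mul_le_mul_of_nonneg_left h7 (by positivity : (0 : ℝ) ≤ L)
    refine le_trans (by linarith) (h6.trans (le_of_eq ?_))
    unfold sv
    congr
  · have a1 := (sum_le_PI Q hQ (fun n => Real.log n / n) fun n =>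
      div_nonneg (Real.log_natCast_nonneg _) (by positivity)).trans
      (hC₁ _ (Real.one_le_exp (by positivity)))
    rw [Real.log_exp] at a1
    calc _ = 6 / l * ∑ p ∈ Q, Real.log (p : ℕ) / (p : ℕ) := by
          rw [mul_sum]; exact sum_congr rfl fun p _ => by ring
      _ ≤ 6 / l * (3 * (l / 200) + l / 200) := by gcongr; linarith
      _ ≤ _ := by field_simp; norm_num
  · calc _ ≤ ∑ S ∈ Q.powerset, Real.exp (l / 2) * ∏ p ∈ S, (64 : ℝ) * (1 / (p : ℕ)) := by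
          refine le_trans (sum_le_sum fun S hS => ?_) (sum_le_sum_of_subset_of_nonneg
            (filter_subset _ _) fun _ _ _ => by positivity)
          obtain ⟨b1, b2⟩ := mem_filter.mp hS
          have b3 := ap_card S s d L (fun p hp => hd p (mem_powerset.mp b1 hp)) a
          rw [← mul_sum, div_mul_eq_mul_div, div_le_iff₀ (by linarith),
            ← Real.log_prod fun p _ => (p0 p).ne'] at b2
          have b4 : ∏ p ∈ S, ((p : ℕ) : ℝ) ≤ Real.exp (l / 2) :=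
            (Real.log_le_iff_le_exp (prod_pos fun p _ => p0 p)).mp (by linarith)
          rw [prod_mul_distrib, prod_const, mul_left_comm, sum_const, nsmul_eq_mul, mul_one]
          gcongr
          refine le_trans (le_of_eq (by congr)) (b3.trans ?_)
          rw [prod_div_distrib, prod_const_one, mul_one_div]
          exact (one_le_div (prod_pos fun p _ => p0 p)).mpr b4
      _ ≤ Real.exp (l / 2) * Real.exp (64 * ∑ p ∈ Q, (1 : ℝ) / (p : ℕ)) := by
          rw [← mul_sum, ← prod_one_add, mul_sum, Real.exp_sum]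
          gcongr with p
          linarith [Real.add_one_le_exp (64 * ((1 : ℝ) / (p : ℕ)))]
      _ ≤ _ := by rw [← Real.exp_add]; exact Real.exp_le_exp.mpr (by linarith)

theorem surv (A : ℕ) (C' : ℝ) : ∀ᶠ L : ℕ in atTop, ∀ Q : Finset Pr,
    ∑ p ∈ Q, (1 : ℝ) / (p : ℕ) ≤ 0.6 * Real.log L + C' → ∀ s d : ℕ, (∀ p ∈ Q, ¬ (p : ℕ) ∣ d) →
      ∀ a : Om, Ex Q (fun b => Real.exp (-sv (range L) (fun t => s + d * t) Q b / 16)) a ≤
        ((L : ℝ) ^ A)⁻¹ := by
  obtain ⟨C, C0, hC⟩ := mertens_up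
  have T : Tendsto (fun L : ℕ => Real.log L) atTop atTop :=
    Real.tendsto_log_atTop.comp tendsto_natCast_atTop_atTop
  obtain ⟨k, hk⟩ : ∃ k : ℕ, k = 10 * (A + 1) := ⟨_, rfl⟩
  have k1 : 1 ≤ k := by omega
  have k1' : (1 : ℝ) ≤ k := by exact_mod_cast k1
  set K : ℝ := k.factorial * 16 ^ k * Real.exp (k / 2) with hK
  filter_upwards [stage_one, ev_loglog C (δ := 0.0001) (by norm_num), T.eventually_ge_atTop 10000,
    T.eventually_ge_atTop (30000000 * k), T.eventually_ge_atTop (2 * K * Real.exp (4 / 3 * k * C')),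
    eventually_ge_atTop 2] with L h1 h2 h3 h4 h5 h6 Q hQ s d hd a
  have L2 : (2 : ℝ) ≤ L := by exact_mod_cast h6
  have eL : Real.exp (Real.log L) = L := Real.exp_log (by linarith)
  set l := Real.log L with hl
  set v : ℕ → ℕ := fun t => s + d * t with hv
  have p0 : ∀ p : Pr, (0 : ℝ) < (p : ℕ) := fun p => by exact_mod_cast p.2.pos
  have cls : ∀ p ∈ Q, ∀ c : ZMod p, (#{t ∈ range L | (v t : ZMod p) = c} : ℝ) ≤
      L * (1 / (p : ℕ)) + 1 := fun p hp c => by
    have := (abs_le.mp (ap_card {p} s d L (by simpa using hd p hp) (update a p c))).2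
    simp only [mem_singleton, forall_eq, update_self, prod_singleton] at this
    linarith
  set Q₁ := Q.filter fun p : Pr => ((p : ℕ) : ℝ) ≤ Real.exp (l / 200) with hQ₁
  set Q₂ := Q.filter fun p : Pr => Real.exp (l / 200) < (p : ℕ) ∧ (p : ℕ) ≤ L with hQ₂
  set Q₃ := Q.filter fun p : Pr => L < (p : ℕ) with hQ₃
  have yL : Real.exp (l / 200) ≤ L := eL ▸ Real.exp_le_exp.mpr (by linarith)
  have d12 : Disjoint Q₁ Q₂ := disjoint_filter.mpr fun p _ h h' => absurd h'.1 (not_lt.mpr h)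
  have d3 : Disjoint (Q₁ ∪ Q₂) Q₃ := disjoint_union_left.mpr
    ⟨disjoint_filter.mpr fun p _ h h' => by
      have : (L : ℝ) < (p : ℕ) := by exact_mod_cast h'
      linarith, disjoint_filter.mpr fun p _ h h' => by omega⟩
  have eQ : Q = Q₁ ∪ Q₂ ∪ Q₃ := by
    rw [hQ₁, hQ₂, hQ₃, ← filter_or, ← filter_or, filter_true_of_mem]
    intro p _
    rcases le_or_gt ((p : ℕ) : ℝ) (Real.exp (l / 200)) with h | h
    · exact .inl (.inl h)
    · exact (le_or_gt (p : ℕ) L).imp (fun h' => .inr ⟨h, h'⟩) id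
  set τ := Real.exp (0.998 * l) with hτ
  have τ0 : 0 < τ := Real.exp_pos _
  set G := K * Real.exp (4 / 3 * k * (0.6 * l + C')) with hG
  have s3 : ∀ b, Ex Q₃ (fun b => Real.exp (-sv (range L) v (Q₁ ∪ Q₂ ∪ Q₃) b / 16)) b ≤
      G * (τ ^ k)⁻¹ + G * (2 * τ) ^ (2000 * k) *
        ((sv (range L) v (Q₁ ∪ Q₂) b + τ) ^ (2000 * k))⁻¹ := fun b => by
    have a1 := pot (range L) v k1 (m₀ := 8 * k) (by positivity) Q₃
      (fun p hp c => by
        have b1 := cls p (mem_filter.mp hp).1 c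
        have b2 : (L : ℝ) * (1 / (p : ℕ)) ≤ 1 := by
          rw [mul_one_div, div_le_one (p0 p)]; exact_mod_cast (mem_filter.mp hp).2.le
        nlinarith) _ d3 b
    have a2 : ∀ m : ℝ, 0 ≤ m → Real.exp (-m / 16) ≤ K * ((m + 8 * k) ^ k)⁻¹ := by
      intro m hm
      have b1 := Real.pow_div_factorial_le_exp ((m + 8 * k) / 16) (by positivity) k
      rw [div_le_iff₀ (by positivity), div_pow, div_le_iff₀ (by positivity)] at b1
      rw [← div_eq_mul_inv, le_div_iff₀ (by positivity)]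
      refine (mul_le_mul_of_nonneg_left b1 (Real.exp_pos _).le).trans (le_of_eq ?_)
      rw [hK, ← mul_assoc, ← mul_assoc, ← Real.exp_add,
        show -m / 16 + (m + 8 * k) / 16 = k / 2 by ring]
      ring
    refine (Ex_mono fun b => a2 _ (sv_nonneg _ _ _ _)).trans ?_
    rw [Ex_mul]
    have a3 := sv_nonneg (range L) v (Q₁ ∪ Q₂) b
    set m := sv (range L) v (Q₁ ∪ Q₂) b
    have a4 : ((m + 8 * k) ^ k)⁻¹ ≤ (τ ^ k)⁻¹ + (2 * τ) ^ (2000 * k) * ((m + τ) ^ (2000 * k))⁻¹ := by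
      rcases le_total τ m with h | h
      · refine le_add_of_le_of_nonneg ?_ (by positivity)
        gcongr
        linarith
      · refine le_add_of_nonneg_of_le (by positivity) ((inv_le_one_of_one_le₀
          (one_le_pow₀ (by linarith))).trans ?_)
        rw [← div_eq_mul_inv, one_le_div (by positivity)]
        gcongr
        linarith
    have a5 : ∑ p ∈ Q₃, (1 : ℝ) / (p : ℕ) ≤ 0.6 * l + C' :=
      (sum_le_sum_of_subset_of_nonneg (filter_subset _ _) fun _ _ _ => by positivity).trans hQ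
    calc _ ≤ K * (((τ ^ k)⁻¹ + (2 * τ) ^ (2000 * k) * ((m + τ) ^ (2000 * k))⁻¹) *
          Real.exp (4 / 3 * k * (0.6 * l + C'))) := by
          gcongr
          exact a1.trans (by gcongr)
      _ = _ := by rw [hG]; ring
  have s2 : ∀ b, Ex Q₂ (fun b => ((sv (range L) v (Q₁ ∪ Q₂) b + τ) ^ (2000 * k))⁻¹) b ≤
      (Real.exp (0.999 * l) ^ (2000 * k))⁻¹ * Real.exp (4 / 3 * (2000 * k : ℕ) * (0.0001 * l)) := by
    intro b
    refine (pot (range L) v (by omega) τ0 Q₂ (fun p hp c => ?_) _ d12 b).trans ?_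
    · have b1 := cls p (mem_filter.mp hp).1 c
      have b2 : (L : ℝ) * (1 / (p : ℕ)) ≤ Real.exp (0.995 * l) := by
        rw [mul_one_div, div_le_iff₀ (p0 p), ← eL, show l = 0.995 * l + l / 200 by ring, Real.exp_add]
        rw [show 0.995 * (0.995 * l + l / 200) = 0.995 * l by ring]
        gcongr
        exact (mem_filter.mp hp).2.1.le
      have b3 : 1 ≤ Real.exp (0.995 * l) := Real.one_le_exp (by linarith)
      rw [hτ, show 0.998 * l = 0.003 * l + 0.995 * l by ring, Real.exp_add]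
      push_cast
      nlinarith [Real.add_one_le_exp (0.003 * l)]
    · gcongr
      · linarith [h1 Q₁ (fun p hp => (mem_filter.mp hp).2) s d
          (fun p hp => hd p (mem_filter.mp hp).1) b]
      · exact (hC L L2 Q₂ fun p hp => by exact_mod_cast (mem_filter.mp hp).2.2).trans h2
  rw [eQ, Ex_union d3]
  refine (Ex_mono s3).trans ?_
  rw [Ex_add, Ex_const, Ex_mul, Ex_union d12]
  have G0 : 0 < G := by positivity
  refine (add_le_add le_rfl (mul_le_mul_of_nonneg_left (Ex_le fun b _ => s2 b)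
    (by positivity))).trans ?_
  have e2 : 2 * τ ≤ Real.exp (0.9982 * l) := by
    rw [hτ, show 0.9982 * l = 0.0002 * l + 0.998 * l by ring, Real.exp_add]
    gcongr
    linarith [Real.add_one_le_exp (0.0002 * l)]
  have e3 : (2 * τ) ^ (2000 * k) * ((Real.exp (0.999 * l) ^ (2000 * k))⁻¹ *
      Real.exp (4 / 3 * (2000 * k : ℕ) * (0.0001 * l))) ≤ (τ ^ k)⁻¹ := by
    refine (mul_le_mul_of_nonneg_right (pow_le_pow_left₀ (by positivity) e2 _)
      (by positivity)).trans ?_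
    simp only [hτ, ← Real.exp_nat_mul, ← Real.exp_neg, ← Real.exp_add, Real.exp_le_exp]
    push_cast
    nlinarith
  have e4 : 2 * (G * (τ ^ k)⁻¹) ≤ ((L : ℝ) ^ A)⁻¹ := by
    calc _ = 2 * K * Real.exp (4 / 3 * k * C') * (Real.exp (0.8 * k * l) * (τ ^ k)⁻¹) := by
          rw [hG, show 4 / 3 * k * (0.6 * l + C') = 4 / 3 * k * C' + 0.8 * k * l by ring,
            Real.exp_add]
          ring
      _ ≤ Real.exp l * (Real.exp (0.8 * k * l) * (τ ^ k)⁻¹) := by
          gcongr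
          linarith [Real.add_one_le_exp l]
      _ ≤ _ := by
          rw [← eL]
          simp only [hτ, ← Real.exp_nat_mul, ← Real.exp_neg, ← Real.exp_add, Real.exp_le_exp, hk]
          push_cast
          nlinarith [mul_nonneg (Nat.cast_nonneg (α := ℝ) A) (by linarith : 0 ≤ l)]
  nlinarith [mul_le_mul_of_nonneg_left e3 G0.le]

end Pool.Agent.MP_00acf4_nt

end

-- part MP_00acf4_nt.Rec
section

/-!
Parity bias of long sets: a Cauchy-Schwarz recursion down to small sets.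
-/

set_option autoImplicit false

namespace Pool.Agent.MP_00acf4_nt

open Finset Function
open scoped BigOperators

/-- `t` survives the primes of `Q`. -/
def Surv (Q : Finset Pr) (a : Om) (t : ℕ) : Prop :=
  ∀ p ∈ Q, Th p ≤ Real.log t → (t : ZMod p) ≠ a p

open Classical in
/-- The survivors in `S`. -/
noncomputable def sur (Q : Finset Pr) (a : Om) (S : Finset ℕ) : Finset ℕ := S.filter (Surv Q a)

lemma mem_sur {Q : Finset Pr} {a : Om} {S : Finset ℕ} {t : ℕ} :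
    t ∈ sur Q a S ↔ t ∈ S ∧ Surv Q a t := by
  simp only [sur, mem_filter]

/-- Parity of the survivors in `T` against a function of the survivors in `E`. -/
noncomputable def Bx (Q : Finset Pr) (T E : Finset ℕ) (Φ : Finset ℕ → ℝ) (a : Om) : ℝ :=
  Ex Q (fun b => (-1) ^ #(sur Q b T) * Φ (sur Q b E)) a

lemma base_two {Q P : Finset Pr} (hPQ : P ⊆ Q) {T E : Finset ℕ} (hTE : Disjoint T E) {Y : ℕ}
    (hY : 2 ≤ Y) (hT : #T ≤ Y) (hE : #E ≤ Y) (hP : ∀ p ∈ P, Y ^ 2 ≤ (p : ℕ) ∧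
      (∀ t ∈ T, Th p ≤ Real.log t) ∧ Set.InjOn (Nat.cast : ℕ → ZMod p) (T ∪ E : Finset ℕ))
    (hs : 1 / 8 ≤ ∑ p ∈ P, (1 : ℝ) / (p : ℕ)) (hs' : ∑ p ∈ P, (1 : ℝ) / (p : ℕ) ≤ 1 / 4)
    {Φ : Finset ℕ → ℝ} (hΦ : ∀ S, |Φ S| ≤ 1) (a : Om) :
    |Bx Q T E Φ a| ≤ Ex (Q \ P) (fun b => Real.exp (9 - #(sur (Q \ P) b T) / 16)) a := by
  rw [Bx, Ex_sdiff hPQ]
  refine abs_Ex_le.trans (Ex_mono fun b => ?_)
  have hU : sur (Q \ P) b T ⊆ T := fun t ht => (mem_sur.mp ht).1
  refine le_trans (le_of_eq (congrArg _ (Ex_congr fun c hc => ?_)))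
    (base P (sur (Q \ P) b T) (fun p => E.image Nat.cast) (fun c => Φ (sur Q c E)) (fun _ => hΦ _)
      (fun p hp c u hu u' hu' => ?_) (fun p hp => ⟨(hP p hp).2.2.mono (coe_subset.mpr
        (hU.trans subset_union_left)), fun t ht h => ?_⟩) hY ((card_le_card hU).trans hT)
      (fun p hp => ⟨(hP p hp).1, card_image_le.trans hE⟩) hs hs' b)
  · congr 3
    ext t
    simp only [mem_sur, mem_filter, Surv, mem_sdiff]
    constructor
    · rintro ⟨h1, h2⟩
      exact ⟨⟨h1, fun p hp h => hc p hp.2 ▸ h2 p hp.1 h⟩,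
        fun p hp => h2 p (hPQ hp) ((hP p hp).2.1 t h1)⟩
    · rintro ⟨⟨h1, h2⟩, h3⟩
      refine ⟨h1, fun p hp h => ?_⟩
      by_cases h4 : p ∈ P
      · exact h3 p h4
      · exact hc p h4 ▸ h2 p ⟨hp, h4⟩ h
  · congr 1
    ext t
    simp only [mem_sur, Surv]
    refine and_congr_right fun ht => forall₂_congr fun q _ => ?_
    by_cases h : q = p
    · subst h
      simp only [update_self]
      exact iff_of_true (fun _ e => hu (mem_image.mpr ⟨t, ht, e⟩))
        fun _ e => hu' (mem_image.mpr ⟨t, ht, e⟩)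
    · rw [update_of_ne h, update_of_ne h]
  · obtain ⟨t', h1, h2⟩ := mem_image.mp h
    have := (hP p hp).2.2 (mem_coe.mpr (mem_union_right _ h1))
      (mem_coe.mpr (mem_union_left _ (hU ht))) h2
    exact disjoint_left.mp hTE (hU ht) (this ▸ h1)

/-- `T` contains a progression of length `L` except for one class modulo each prime of a set of at
most `J` primes above `y`. -/
def HasAP (Q : Finset Pr) (T : Finset ℕ) (y J L : ℕ) : Prop :=
  ∃ (s d : ℕ) (U : Finset Pr) (c : Om), (∀ p ∈ Q ∪ U, ¬ (p : ℕ) ∣ d) ∧ Disjoint U Q ∧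
    (∀ q ∈ U, y < (q : ℕ)) ∧ #U ≤ J ∧
      ∀ t < L, (∀ q ∈ U, ((s + d * t : ℕ) : ZMod q) ≠ c q) → s + d * t ∈ T

lemma sign_mul (S : Finset ℕ) (u v : ℕ → Prop) [DecidablePred u] [DecidablePred v] :
    (-1 : ℝ) ^ #(S.filter u) * (-1) ^ #(S.filter v) = (-1) ^ #(S.filter fun t => ¬ (u t ↔ v t)) := by
  simp only [← prod_const, prod_filter, ← prod_mul_distrib]
  exact prod_congr rfl fun t _ => by by_cases h : u t <;> by_cases h' : v t <;> simp [h, h']

open Classical in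
lemma step {Q K : Finset Pr} (hK : K ⊆ Q) (T E : Finset ℕ) {Φ : Finset ℕ → ℝ} (hΦ : ∀ S, |Φ S| ≤ 1)
    (a : Om) {β : ℝ} (β0 : 0 ≤ β) (h : ∀ b b' : Om, (∃ p ∈ K, b p ≠ b' p) → ∀ Ψ : Finset ℕ → ℝ,
      (∀ S, |Ψ S| ≤ 1) → |Bx (Q \ K) (T.filter fun t => ¬ (Surv K b t ↔ Surv K b' t)) E Ψ a| ≤ β) :
    Bx Q T E Φ a ^ 2 ≤ ∏ p ∈ K, (1 : ℝ) / (p : ℕ) + β := by
  set f : Om → ℝ := fun b => (-1) ^ #(sur Q b T) * Φ (sur Q b E) with hf
  have e0 : ∀ (b c : Om) (S : Finset ℕ),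
      sur Q (K.piecewise b c) S = (sur (Q \ K) c S).filter (Surv K b) := fun b c S => by
    ext t
    simp only [mem_sur, mem_filter, Surv, mem_sdiff, and_assoc]
    refine and_congr_right fun _ => ⟨fun h => ⟨fun p hp => ?_, fun p hp => ?_⟩, fun h p hp => ?_⟩
    · simpa only [piecewise_eq_of_notMem _ _ _ hp.2] using h p hp.1
    · simpa only [piecewise_eq_of_mem _ _ _ hp] using h p (hK hp)
    · by_cases h4 : p ∈ K
      · simpa only [piecewise_eq_of_mem _ _ _ h4] using h.2 p h4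
      · simpa only [piecewise_eq_of_notMem _ _ _ h4] using h.1 p ⟨hp, h4⟩
  have e1 : ∀ c, Ex K f c ^ 2 =
      Ex K (fun b => Ex K (fun b' => f (K.piecewise b c) * f (K.piecewise b' c)) a) a := fun c => by
    simp only [Ex_mul]
    rw [← Ex_piecewise f c a]
    simp only [mul_comm _ (Ex K f c), Ex_mul]
    rw [← Ex_piecewise f c a, sq]
  rw [Bx, Ex_sdiff hK]
  refine Ex_sq_le.trans ?_
  simp only [← hf, e1]
  rw [Ex_comm]
  refine Ex_le fun b _ => ?_
  rw [Ex_comm]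
  have e2 : ∏ p ∈ K, (1 : ℝ) / (p : ℕ) =
      Ex K (fun b' => ∏ p ∈ K, if b' p ∈ ({b p} : Finset (ZMod p)) then 1 else 0) a := by
    rw [Ex_prod K fun p c => if c ∈ ({b p} : Finset (ZMod p)) then 1 else 0]
    exact prod_congr rfl fun p _ => by rw [expect_ite]; simp
  rw [e2, ← Ex_const K β a, ← Ex_add]
  refine Ex_mono fun b' => ?_
  have hΨ : ∀ S : Finset ℕ, |Φ (S.filter (Surv K b)) * Φ (S.filter (Surv K b'))| ≤ 1 := fun S => by
    rw [abs_mul]
    exact mul_le_one₀ (hΦ _) (abs_nonneg _) (hΦ _)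
  have e3 : Ex (Q \ K) (fun c => f (K.piecewise b c) * f (K.piecewise b' c)) a =
      Bx (Q \ K) (T.filter fun t => ¬ (Surv K b t ↔ Surv K b' t)) E
        (fun S => Φ (S.filter (Surv K b)) * Φ (S.filter (Surv K b'))) a := by
    refine Ex_congr fun c _ => ?_
    simp only [hf, e0]
    rw [mul_mul_mul_comm, sign_mul]
    congr 3
    ext t
    simp only [mem_sur, mem_filter]
    tauto
  rw [e3]
  by_cases h1 : ∃ p ∈ K, b p ≠ b' p
  · exact le_add_of_nonneg_of_le (prod_nonneg fun p _ => by split_ifs <;> norm_num)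
      ((le_abs_self _).trans (h b b' h1 _ hΨ))
  · push Not at h1
    rw [prod_eq_one fun p hp => if_pos (mem_singleton.mpr (h1 p hp).symm)]
    refine le_add_of_le_of_nonneg (Ex_le fun c _ => (le_abs_self _).trans ?_) β0
    rw [abs_mul, abs_neg_one_pow, one_mul]
    exact hΨ _

theorem recur {y y' K J L : ℕ} {Y β₀ : ℝ} (hy : 0 < y) (Q₀ Top : Finset Pr) (T₀ E : Finset ℕ) (a : Om)
    (hbase : ∀ Q ⊆ Q₀, Top ⊆ Q → ∀ T ⊆ T₀, #T ≤ Y → HasAP Q T y J L → ∀ Φ : Finset ℕ → ℝ,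
      (∀ S, |Φ S| ≤ 1) → |Bx Q T E Φ a| ≤ β₀) (r : ℕ) :
    ∀ Q ⊆ Q₀, ∀ Ys ⊆ Q, Top ⊆ Q \ Ys → #Ys = r * K →
      (∀ p ∈ Ys, y < (p : ℕ) ∧ (p : ℕ) ≤ y' ∧ ∀ t ∈ T₀, Th p ≤ Real.log t) → ∀ T ⊆ T₀, ∀ Z h : ℝ,
      0 ≤ Z → 0 ≤ h → (∀ D ⊆ Ys, ∀ c : Om,
        (#(T.filter fun t : ℕ => ∀ p ∈ D, (t : ZMod p) = c p) : ℝ) ≤ Z * (h / y ^ #D + 1)) →
      Z * (2 * K) ^ r * (h / y ^ r + 1) ≤ Y → ∀ j, j + r * K ≤ J → HasAP Q T y j (y' ^ r * L) →
      ∀ τ : ℝ, 0 ≤ τ → τ ≤ 1 → (1 / y : ℝ) ^ K ≤ τ ^ 2 ^ r → β₀ ≤ τ ^ 2 ^ r →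
      ∀ Φ : Finset ℕ → ℝ, (∀ S, |Φ S| ≤ 1) → |Bx Q T E Φ a| ≤ 2 * τ := by
  classical
  induction r with
  | zero =>
    intro Q hQ Ys _ hT _ _ T hT₀ Z h _ _ h1 h2 j hj ⟨s, d, U, c, a1, a2, a3, a4, a5⟩ τ τ0 _ _ h3 Φ hΦ
    have h4 := h1 ∅ (empty_subset _) a
    simp only [notMem_empty, false_imp_iff, implies_true, filter_true, card_empty, pow_zero, mul_one,
      pow_one, one_mul] at h2 h3 h4 a5
    linarith [hbase Q hQ (hT.trans sdiff_subset) T hT₀ (h4.trans h2)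
      ⟨s, d, U, c, a1, a2, a3, by omega, a5⟩ Φ hΦ]
  | succ r ih =>
    intro Q hQ Ys hYs hT hc hP T hT₀ Z h Z0 h0 h1 h2 j hj ⟨s, d, U, c, a1, a2, a3, a4, a5⟩ τ τ0 τ1
      h3 h4 Φ hΦ
    obtain ⟨S, hS, hSc⟩ := exists_subset_card_eq (s := Ys) (n := K) (by rw [hc]; nlinarith)
    have y0 : (0 : ℝ) < y := by exact_mod_cast hy
    have e : (τ ^ 2) ^ 2 ^ r = τ ^ 2 ^ (r + 1) := by rw [← pow_mul, pow_succ']
    have h5 := step (hS.trans hYs) T E hΦ a (β := 2 * τ ^ 2) (by positivity)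
      fun b b' ⟨p, hp, hb⟩ Ψ hΨ => ih (Q \ S) (sdiff_subset.trans hQ) (Ys \ S)
        (sdiff_subset_sdiff hYs subset_rfl) (fun q hq => by
          have := mem_sdiff.mp (hT hq)
          exact mem_sdiff.mpr ⟨mem_sdiff.mpr ⟨this.1, fun h => this.2 (hS h)⟩,
            fun h => this.2 (mem_sdiff.mp h).1⟩)
        (by rw [card_sdiff_of_subset hS, hc, hSc, add_mul, one_mul, Nat.add_sub_cancel])
        (fun q hq => hP q (mem_sdiff.mp hq).1) _ ((filter_subset _ _).trans hT₀) (Z * (2 * K)) (h / y)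
        (by positivity) (by positivity) (fun D hD u => ?_)
        (by rw [div_div, ← pow_succ', mul_assoc Z, ← pow_succ']; exact h2) (j + K)
        (by rw [add_mul, one_mul] at hj; omega) ?_ (τ ^ 2) (by positivity)
        (pow_le_one₀ τ0 τ1) (e ▸ h3) (e ▸ h4) Ψ hΨ
    · have h6 : ∏ p ∈ S, (1 : ℝ) / (p : ℕ) ≤ (1 / y : ℝ) ^ K := by
        rw [← hSc, ← prod_const]
        exact prod_le_prod (fun _ _ => by positivity) fun p hp =>
          one_div_le_one_div_of_le y0 (by exact_mod_cast (hP p (hS hp)).1.le)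
      have h7 : τ ^ 2 ^ (r + 1) ≤ τ ^ 2 := pow_le_pow_of_le_one τ0 τ1 (Nat.le_self_pow (by omega) 2)
      exact abs_le_of_sq_le_sq' (by nlinarith) (by positivity) |> abs_le.mpr
    · have key : ∀ w : Om, ∀ q ∈ S, 
          (#(T.filter fun t : ℕ => (t : ZMod q) = w q ∧ ∀ p ∈ D, (t : ZMod p) = u p) : ℝ) ≤
          Z * (h / y / y ^ #D + 1) := fun w q hq => by
        have hqD : q ∉ D := fun h => (mem_sdiff.mp (hD h)).2 hq
        have := h1 (insert q D) (insert_subset (hS hq) (hD.trans sdiff_subset)) (update u q (w q))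
        rw [card_insert_of_notMem hqD, pow_succ', ← div_div] at this
        refine le_trans (le_of_eq ?_) this
        congr 2
        refine filter_congr fun t _ => ?_
        rw [forall_mem_insert, update_self]
        refine and_congr_right fun _ => forall₂_congr fun p hp => ?_
        rw [update_of_ne fun h : p = q => hqD (h ▸ hp)]
      have sub : ((T.filter fun t => ¬ (Surv S b t ↔ Surv S b' t)).filter fun t : ℕ =>
          ∀ p ∈ D, (t : ZMod p) = u p) ⊆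
          (S.biUnion fun q => T.filter fun t : ℕ => (t : ZMod q) = b q ∧ ∀ p ∈ D, (t : ZMod p) = u p) ∪
          S.biUnion fun q => T.filter fun t : ℕ =>
            (t : ZMod q) = b' q ∧ ∀ p ∈ D, (t : ZMod p) = u p := by
        intro t ht
        obtain ⟨b1, b2⟩ := mem_filter.mp ht
        obtain ⟨b3, b4⟩ := mem_filter.mp b1
        by_contra b5
        simp only [mem_union, mem_biUnion, mem_filter, not_or, not_exists, not_and] at b5
        exact b4 (iff_of_true (fun q hq _ e => b5.1 q hq b3 e b2) fun q hq _ e => b5.2 q hq b3 e b2)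
      have b6 : ∀ w : Om, (#(S.biUnion fun q =>
          T.filter fun t : ℕ => (t : ZMod q) = w q ∧ ∀ p ∈ D, (t : ZMod p) = u p) : ℝ) ≤
          K * (Z * (h / y / y ^ #D + 1)) := fun w => by
        refine (Nat.cast_le.mpr card_biUnion_le).trans ?_
        rw [Nat.cast_sum, ← hSc, ← nsmul_eq_mul]
        exact sum_le_card_nsmul _ _ _ (key w)
      refine (Nat.cast_le.mpr ((card_le_card sub).trans (card_union_le _ _))).trans ?_
      push_cast
      linarith [b6 b, b6 b']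
    · have hpQ := hYs (hS hp)
      obtain ⟨u, hu⟩ := crt {p} s d (by simpa using a1 p (mem_union_left _ hpQ)) b
      simp only [mem_singleton, forall_eq, prod_singleton] at hu
      refine ⟨s + d * (u % p), d * p, U ∪ S.erase p, U.piecewise c b', fun q hq hd => ?_,
        disjoint_union_left.mpr ⟨a2.mono_right sdiff_subset, disjoint_left.mpr fun q hq h =>
          (mem_sdiff.mp h).2 (mem_of_mem_erase hq)⟩, fun q hq => ?_,
        (card_union_le _ _).trans (add_le_add a4 (card_erase_le.trans hSc.le)), fun t ht h6 => ?_⟩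
      · have b1 : q ∈ Q ∪ U ∧ q ≠ p := by
          simp only [mem_union, mem_sdiff, mem_erase] at hq ⊢
          rcases hq with h | h | h
          · exact ⟨.inl h.1, fun e => h.2 (e ▸ hp)⟩
          · exact ⟨.inr h, fun e => disjoint_left.mp a2 h (e ▸ hpQ)⟩
          · exact ⟨.inl (hYs (hS h.2)), h.1⟩
        rcases (Nat.Prime.dvd_mul q.2).mp hd with h | h
        · exact a1 q b1.1 h
        · exact b1.2 (Subtype.ext ((Nat.prime_dvd_prime_iff_eq q.2 p.2).mp h))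
      · rcases mem_union.mp hq with h | h
        exacts [a3 q h, (hP q (hS (mem_of_mem_erase h))).1]
      · have e1 : s + d * (u % p) + d * p * t = s + d * (u % p + p * t) := by ring
        rw [e1] at h6 ⊢
        have b1 : s + d * (u % p + p * t) ∈ T := by
          refine a5 _ ?_ fun q hq => ?_
          · have := Nat.mod_lt u p.2.pos
            have := (hP p (hS hp)).2.1
            calc u % p + p * t < p * (t + 1) := by rw [mul_add]; omega
              _ ≤ y' * (y' ^ r * L) := Nat.mul_le_mul this ht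
              _ = _ := by ring
          · simpa only [piecewise_eq_of_mem _ _ _ hq] using h6 q (mem_union_left _ hq)
        have b2 := (hu (u % p + p * t)).mpr (by simp [Nat.ModEq])
        refine mem_filter.mpr ⟨b1, fun h => (h.mpr fun q hq _ => ?_) p hp
          ((hP p (hS hp)).2.2 _ (hT₀ b1)) b2⟩
        by_cases b3 : q = p
        · subst b3; rwa [b2]
        · have b4 : q ∉ U := fun h => disjoint_left.mp a2 h (hYs (hS hq))
          simpa only [piecewise_eq_of_notMem _ _ _ b4] using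
            h6 q (mem_union_right _ (mem_erase.mpr ⟨b3, hq⟩))

end Pool.Agent.MP_00acf4_nt

end

-- part MP_00acf4_nt.Pick
section

/-!
Choice of the auxiliary sets of primes.
-/

set_option autoImplicit false

namespace Pool.Agent.MP_00acf4_nt

open Finset Function
open scoped BigOperators

lemma ev_log (j : ℕ) {r c : ℝ} (hr : 0 < r) (hc : 0 < c) :
    ∀ᶠ x : ℝ in Filter.atTop, Real.log x ^ j ≤ c * x ^ r := by
  filter_upwards [(isLittleO_log_rpow_rpow_atTop (j : ℝ) hr).bound hc, Filter.eventually_ge_atTop 1]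
    with x hx h1
  rwa [Real.rpow_natCast, Real.norm_of_nonneg (pow_nonneg (Real.log_nonneg h1) _),
    Real.norm_of_nonneg (by positivity)] at hx

/-- The primes up to `N`. -/
def PQ (N : ℕ) : Finset Pr := (range (N + 1)).subtype Nat.Prime

lemma mem_PQ {N : ℕ} {p : Pr} : p ∈ PQ N ↔ (p : ℕ) ≤ N := by
  simp [PQ, Nat.lt_succ_iff]

lemma Th_eq (z : ℕ) : Th z = ∏ q ∈ Nat.primesLE z, (1 + 1 / ((q : ℝ) - 1)) := by
  refine prod_congr rfl fun q hq => ?_
  have : (1 : ℝ) < q := by exact_mod_cast (Nat.prime_of_mem_primesLE hq).one_lt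
  have h5 : (q : ℝ) - 1 ≠ 0 := by linarith
  field_simp
  ring

lemma Th_le : ∃ C : ℝ, 0 < C ∧ ∀ z : ℕ, 2 ≤ z → Th z ≤ C * Real.log z := by
  obtain ⟨C, C0, hC⟩ := MP_18a942_nt.small_part
  exact ⟨C, C0, fun z hz => Th_eq z ▸ hC z hz _ fun q hq =>
    ⟨Nat.prime_of_mem_primesLE hq, Nat.le_of_mem_primesLE hq⟩⟩

lemma pick (x : Pr → ℝ) (S : Finset Pr) (hx : ∀ p ∈ S, x p ≤ 1 / 8) (h : 1 / 8 ≤ ∑ p ∈ S, x p) :
    ∃ P ⊆ S, 1 / 8 ≤ ∑ p ∈ P, x p ∧ ∑ p ∈ P, x p ≤ 1 / 4 := by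
  induction S using Finset.induction_on with
  | empty => norm_num at h
  | insert p S hp ih =>
    rcases le_total (1 / 8) (∑ p ∈ S, x p) with h1 | h1
    · obtain ⟨P, h2, h3⟩ := ih (fun q hq => hx q (mem_insert_of_mem hq)) h1
      exact ⟨P, h2.trans (subset_insert _ _), h3⟩
    · refine ⟨_, subset_rfl, h, ?_⟩
      rw [sum_insert hp]
      linarith [hx p (mem_insert_self _ _)]

lemma few_div {w r t t' : ℕ} (hw : 2 ≤ w) (h : t ≠ t') (ht : t ≤ w ^ r) (ht' : t' ≤ w ^ r)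
    (S : Finset Pr) (hS : ∀ p ∈ S, w < (p : ℕ) ∧ (t : ZMod p) = t') : #S ≤ r := by
  obtain ⟨u, hu⟩ := crt S 0 1 (fun p _ => p.2.not_dvd_one) fun p => (t' : ZMod p)
  have h1 : t ≡ t' [MOD ∏ p ∈ S, p] := ((hu t).mp fun p hp => by simpa using (hS p hp).2).trans
    ((hu t').mp fun p _ => by simp).symm
  have h2 : w ^ #S ≤ ∏ p ∈ S, (p : ℕ) := pow_card_le_prod _ _ _ fun p hp => (hS p hp).1.le
  refine (Nat.pow_le_pow_iff_right (by omega : 1 < w)).mp (h2.trans ?_)
  rcases lt_or_gt_of_ne h with h3 | h3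
  · exact (Nat.le_of_dvd (by omega) ((Nat.modEq_iff_dvd' h3.le).mp h1)).trans (by omega)
  · exact (Nat.le_of_dvd (by omega) ((Nat.modEq_iff_dvd' h3.le).mp h1.symm)).trans (by omega)

lemma good {w r : ℕ} (hw : 8 ≤ w) (W : Finset ℕ) (hW : ∀ t ∈ W, t ≤ w ^ r) (Top : Finset Pr)
    (hT : ∀ p ∈ Top, w < (p : ℕ)) (hs : 1 / 2 ≤ ∑ p ∈ Top, (1 : ℝ) / (p : ℕ))
    (hc : 3 * (#W ^ 2 * r) ≤ w) : ∃ P ⊆ Top, (∀ p ∈ P, Set.InjOn (Nat.cast : ℕ → ZMod p) W) ∧
      1 / 8 ≤ ∑ p ∈ P, (1 : ℝ) / (p : ℕ) ∧ ∑ p ∈ P, (1 : ℝ) / (p : ℕ) ≤ 1 / 4 := by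
  classical
  have w0 : (8 : ℝ) ≤ w := by exact_mod_cast hw
  have h1 : ∀ p ∈ Top, (1 : ℝ) / (p : ℕ) ≤ 1 / w := fun p hp =>
    one_div_le_one_div_of_le (by linarith) (by exact_mod_cast (hT p hp).le)
  set s : Pr → Prop := fun p => Set.InjOn (Nat.cast : ℕ → ZMod p) W with hs'
  have h2 : #(Top.filter fun p => ¬ s p) ≤ #W ^ 2 * r := by
    have : (Top.filter fun p => ¬ s p) ⊆ W.offDiag.biUnion fun x =>
        Top.filter fun p : Pr => (x.1 : ZMod p) = x.2 := fun p hp => by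
      obtain ⟨a1, a2⟩ := mem_filter.mp hp
      by_contra a3
      simp only [mem_biUnion, mem_offDiag, mem_filter, not_exists, not_and, and_imp] at a3
      exact a2 fun t ht t' ht' e => by_contra fun a4 => a3 (t, t') ht ht' a4 a1 e
    refine (card_le_card this).trans ((card_biUnion_le_card_mul _ _ r fun x hx => ?_).trans ?_)
    · obtain ⟨a1, a2, a3⟩ := mem_offDiag.mp hx
      exact few_div (by omega) a3 (hW _ a1) (hW _ a2) _ fun p hp =>
        ⟨hT p (mem_filter.mp hp).1, (mem_filter.mp hp).2⟩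
    · rw [offDiag_card, sq]
      exact Nat.mul_le_mul_right _ (Nat.sub_le _ _)
  have h3 : ∑ p ∈ Top.filter fun p => ¬ s p, (1 : ℝ) / (p : ℕ) ≤ 1 / 3 := by
    refine (sum_le_card_nsmul _ _ _ fun p hp => h1 p (mem_filter.mp hp).1).trans ?_
    rw [nsmul_eq_mul, mul_one_div, div_le_iff₀ (by linarith)]
    have : ((3 * #(Top.filter fun p => ¬ s p) : ℕ) : ℝ) ≤ w := by exact_mod_cast by omega
    push_cast at this
    linarith
  obtain ⟨P, a1, a2⟩ := pick (fun p => (1 : ℝ) / (p : ℕ)) (Top.filter s)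
    (fun p hp => (h1 p (mem_filter.mp hp).1).trans (one_div_le_one_div_of_le (by norm_num) w0))
    (by linarith [sum_filter_add_sum_filter_not Top s fun p => (1 : ℝ) / (p : ℕ)])
  exact ⟨P, a1.trans (filter_subset _ _), fun p hp => (mem_filter.mp (a1 hp)).2, a2⟩

lemma bertrand {y : ℕ} (hy : y ≠ 0) (n : ℕ) :
    ∃ S : Finset Pr, #S = n ∧ ∀ p ∈ S, y < (p : ℕ) ∧ (p : ℕ) ≤ 2 ^ n * y := by
  induction n with
  | zero => exact ⟨∅, rfl, by simp⟩
  | succ n ih =>
    obtain ⟨S, h1, h2⟩ := ih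
    obtain ⟨q, h3, h4, h5⟩ := Nat.exists_prime_lt_and_le_two_mul (2 ^ n * y) (by positivity)
    have h6 : y ≤ 2 ^ n * y := Nat.le_mul_of_pos_left _ (by positivity)
    refine ⟨insert ⟨q, h3⟩ S, ?_, ?_⟩
    · rw [card_insert_of_notMem fun h => absurd (h2 _ h).2 (not_le.mpr h4), h1]
    · rw [forall_mem_insert, pow_succ', mul_assoc]
      exact ⟨⟨h6.trans_lt h4, h5⟩, fun p hp => ⟨(h2 p hp).1, by have := (h2 p hp).2; omega⟩⟩

lemma top : ∃ B : ℕ, 1 ≤ B ∧ ∀ w : ℕ, 2 ≤ w →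
    1 / 2 ≤ ∑ p ∈ (PQ (w ^ B)).filter fun p : Pr => w < (p : ℕ), (1 : ℝ) / (p : ℕ) := by
  obtain ⟨C, C0, hC⟩ := MP_48b1c3_nt.H54.mertens2
  obtain ⟨C', C0', hC'⟩ := mertens_up
  obtain ⟨B, hB⟩ := exists_nat_ge (Real.exp (C + C' + 1))
  have B1 : (1 : ℝ) ≤ B := (Real.one_le_exp (by positivity)).trans hB
  have B2 : 1 ≤ B := by exact_mod_cast B1
  refine ⟨B, B2, fun w hw => ?_⟩
  have w2 : (2 : ℝ) ≤ w := by exact_mod_cast hw
  have h1 := (abs_le.mp (hC ((w ^ B : ℕ) : ℝ)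
    (by exact_mod_cast hw.trans (Nat.le_self_pow (by omega) w)))).1
  have h2 : ∑ p ∈ PQ (w ^ B), (1 : ℝ) / (p : ℕ) =
      ∑ p ∈ MP_48b1c3_nt.H54.PI 0 ((w ^ B : ℕ) : ℝ), (1 : ℝ) / p := by
    rw [PQ, sum_subtype_eq_sum_filter fun n : ℕ => (1 : ℝ) / n]
    refine sum_congr ?_ fun _ _ => rfl
    ext q
    simp only [mem_filter, mem_range, MP_48b1c3_nt.H54.mem_PI, Nat.cast_le, Nat.cast_pos,
      Nat.lt_succ_iff]
    exact ⟨fun h => ⟨h.2.pos, h⟩, fun h => h.2⟩
  have h3 := hC' w w2 ((PQ (w ^ B)).filter fun p : Pr => ¬ w < (p : ℕ)) fun p hp => by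
    exact_mod_cast not_lt.mp (mem_filter.mp hp).2
  have h4 := sum_filter_add_sum_filter_not (PQ (w ^ B)) (fun p : Pr => w < (p : ℕ))
    fun p => (1 : ℝ) / (p : ℕ)
  have l0 : 0 < Real.log w := Real.log_pos (by linarith)
  rw [Nat.cast_pow, Real.log_pow, Real.log_mul (by linarith) l0.ne', ← Nat.cast_pow] at h1
  have h5 := (Real.le_log_iff_exp_le (by linarith)).mpr hB
  linarith

lemma class_le {y : ℕ} (hy : 0 < y) (D : Finset Pr) (hD : ∀ p ∈ D, y < (p : ℕ)) (s d L : ℕ)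
    (hd : ∀ p ∈ D, ¬ (p : ℕ) ∣ d) (c : Om) :
    (#{t ∈ range L | ∀ p ∈ D, ((s + d * t : ℕ) : ZMod p) = c p} : ℝ) ≤ L / y ^ #D + 1 := by
  have y0 : (0 : ℝ) < y := by exact_mod_cast hy
  have h1 : ∏ p ∈ D, (1 : ℝ) / (p : ℕ) ≤ 1 / y ^ #D := by
    rw [← one_div_pow, ← prod_const]
    exact prod_le_prod (fun _ _ => by positivity) fun p hp =>
      one_div_le_one_div_of_le y0 (by exact_mod_cast (hD p hp).le)
  have h2 := mul_le_mul_of_nonneg_left h1 (Nat.cast_nonneg (α := ℝ) L)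
  rw [mul_one_div] at h2
  linarith [(abs_le.mp (ap_card D s d L hd c)).2]

lemma spread {y : ℕ} (hy : 0 < y) (D : Finset Pr) (hD : ∀ p ∈ D, y < (p : ℕ)) {u v h : ℕ}
    {T : Finset ℕ} (hT : T ⊆ Ico u (u + h) ∪ Ico v (v + h)) (c : Om) :
    (#(T.filter fun t : ℕ => ∀ p ∈ D, (t : ZMod p) = c p) : ℝ) ≤ 2 * (h / y ^ #D + 1) := by
  have key : ∀ u, (#((Ico u (u + h)).filter fun t : ℕ => ∀ p ∈ D, (t : ZMod p) = c p) : ℝ) ≤
      h / y ^ #D + 1 := fun u => by
    refine le_trans (Nat.cast_le.mpr (card_le_card_of_injOn (fun t => t - u) (fun t ht => ?_)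
      fun t ht t' ht' e => ?_)) (class_le hy D hD u 1 h (fun p _ => p.2.not_dvd_one) c)
    · simp only [coe_filter, mem_Ico, mem_range, Set.mem_ofPred_eq] at ht ⊢
      rw [show u + 1 * (t - u) = t by omega]
      exact ⟨by omega, ht.2⟩
    · simp only [coe_filter, mem_Ico, Set.mem_ofPred_eq] at ht ht' e
      omega
  have := (card_le_card (filter_subset_filter (fun t : ℕ => ∀ p ∈ D, (t : ZMod p) = c p) hT))
  rw [filter_union] at this
  refine (Nat.cast_le.mpr (this.trans (card_union_le _ _))).trans ?_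
  push_cast
  linarith [key u, key v]

lemma hole {Q : Finset Pr} {T : Finset ℕ} {y J L : ℕ} (h : HasAP Q T y J L) (hQ : Q.Nonempty)
    (hy : 0 < y) (hL : L ≤ y) : ∃ s d : ℕ, (∀ p ∈ Q, ¬ (p : ℕ) ∣ d) ∧ ∀ (Q' : Finset Pr) (b : Om),
      sv (range L) (fun t => s + d * t) Q' b ≤ #(sur Q' b T) + 2 * J := by
  obtain ⟨s, d, U, c, a1, -, a3, a4, a5⟩ := h
  refine ⟨s, d, fun p hp => a1 p (mem_union_left _ hp), fun Q' b => ?_⟩
  have d0 : d ≠ 0 := fun h => hQ.elim fun p hp => a1 p (mem_union_left _ hp) (h ▸ dvd_zero _)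
  set Hs := U.biUnion fun q => (range L).filter fun t => ((s + d * t : ℕ) : ZMod q) = c q with hH
  have h1 : (#Hs : ℝ) ≤ 2 * J := by
    refine (Nat.cast_le.mpr card_biUnion_le).trans ?_
    rw [Nat.cast_sum]
    refine (sum_le_card_nsmul _ _ 2 fun q hq => ?_).trans ?_
    · have := class_le hy {q} (by simpa using a3 q hq) s d L
        (by simpa using a1 q (mem_union_right _ hq)) c
      simp only [mem_singleton, forall_eq, card_singleton, pow_one] at this
      have h2 : (L : ℝ) / y ≤ 1 := div_le_one_of_le₀ (by exact_mod_cast hL) (by positivity)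
      linarith
    · rw [nsmul_eq_mul, mul_comm]
      gcongr
  have h2 : #(((range L).filter fun t => ∀ p ∈ Q', ((s + d * t : ℕ) : ZMod p) ≠ b p) \ Hs) ≤
      #(sur Q' b T) := by
    refine card_le_card_of_injOn (fun t => s + d * t) (fun t ht => ?_) fun t _ t' _ e => ?_
    · simp only [hH, coe_sdiff, Set.mem_sdiff, mem_coe, mem_filter, mem_range, mem_biUnion,
        not_exists, not_and] at ht
      exact mem_coe.mpr (mem_sur.mpr ⟨a5 t ht.1.1 fun q hq => ht.2 q hq ht.1.1,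
        fun p hp _ => ht.1.2 p hp⟩)
    · exact Nat.eq_of_mul_eq_mul_left (Nat.pos_of_ne_zero d0) (Nat.add_left_cancel e)
  have h3 := (Nat.cast_le (α := ℝ)).mpr (tsub_le_iff_right.mp ((le_card_sdiff Hs _).trans h2))
  rw [Nat.cast_add] at h3
  exact h3.trans (by linarith)

end Pool.Agent.MP_00acf4_nt

end

-- part MP_00acf4_nt.Model
section

/-!
Probabilities of finite patterns in the random sieve model.
-/

set_option autoImplicit false

namespace Pool.Agent.MP_00acf4_nt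

open Finset Function Pool.Agent.MP_a96b63_al
open scoped BigOperators

lemma one_le_fac {q : ℕ} (hq : q.Prime) : (1 : ℝ) ≤ 1 + 1 / ((q : ℝ) - 1) :=
  le_add_of_nonneg_right (inv_pred_nonneg hq)

lemma Th_mono : Monotone Th := fun z z' h => by
  rw [Th_eq, Th_eq]
  exact prod_le_prod_of_subset_of_one_le (Nat.primesLE_mono h)
    (fun q hq => zero_le_one.trans (one_le_fac (Nat.prime_of_mem_primesLE hq)))
    fun q hq _ => one_le_fac (Nat.prime_of_mem_primesLE hq)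

lemma Th_zero : Th 0 = 1 := by simp [Th]

lemma Th_pos (z : ℕ) : 0 < Th z := one_pos.trans_le (Th_zero.ge.trans (Th_mono z.zero_le))

lemma Th_succ_le (z : ℕ) : Th (z + 1) ≤ 2 * Th z := by
  have := Th_pos z
  rw [Th_eq (z + 1), Nat.primesLE_succ]
  split_ifs with h
  · rw [prod_insert (Nat.notMem_primesLE z), ← Th_eq]
    have h1 : (2 : ℝ) ≤ (z + 1 : ℕ) := by exact_mod_cast h.two_le
    have h2 : 1 / (((z + 1 : ℕ) : ℝ) - 1) ≤ 1 := by rw [div_le_one (by linarith)]; linarith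
    gcongr
    linarith
  · rw [← Th_eq]
    linarith

lemma log_le_Th (z : ℕ) : Real.log (z + 1 : ℕ) ≤ Th z := by
  refine (log_add_one_le_harmonic z).trans ?_
  have := sum_factored_le (Nat.primesLE z) (fun q => Nat.prime_of_mem_primesLE) (Icc 1 z)
    fun m hm => Nat.mem_factoredNumbers'.mpr fun p hp h => Nat.mem_primesLE.mpr
      ⟨(Nat.le_of_dvd (mem_Icc.mp hm).1 h).trans (mem_Icc.mp hm).2, hp⟩
  rw [harmonic_eq_sum_Icc]
  push_cast
  exact this

lemma lt_of_act {p t : ℕ} (ht : 0 < t) (h : Th p ≤ Real.log t) : p < t := by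
  have := (Real.log_le_log_iff (by positivity) (by positivity)).mp ((log_le_Th p).trans h)
  exact_mod_cast this

lemma one_le_log {t : ℕ} (ht : 3 ≤ t) : 1 ≤ Real.log t :=
  (MP_48b1c3_nt.H54.mertens_one_lt (by exact_mod_cast ht)).le

open Classical in
/-- The sieving level at `t`. -/
noncomputable def zz (t : ℕ) : ℕ := Nat.findGreatest (fun z => Th z ≤ Real.log t) t

lemma act_iff {p t : ℕ} (ht : 3 ≤ t) : Th p ≤ Real.log t ↔ p ≤ zz t := by
  classical
  exact ⟨fun h => Nat.le_findGreatest (lt_of_act (by omega) h).le h, fun h => (Th_mono h).trans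
    (Nat.findGreatest_spec (P := fun z => Th z ≤ Real.log t) t.zero_le
      (Th_zero.le.trans (one_le_log ht)))⟩

lemma zz_le (t : ℕ) : zz t ≤ t := by
  classical
  exact Nat.findGreatest_le _

lemma zz_mono {t t' : ℕ} (ht : 3 ≤ t) (h : t ≤ t') : zz t ≤ zz t' :=
  (act_iff (ht.trans h)).mp (((act_iff ht).mpr le_rfl).trans
    (Real.log_le_log (by positivity) (by exact_mod_cast h)))

/-- The probability that `t` survives. -/
noncomputable def V (t : ℕ) : ℝ := (Th (zz t))⁻¹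

lemma V_pos (t : ℕ) : 0 < V t := inv_pos.mpr (Th_pos _)

lemma V_le_one (t : ℕ) : V t ≤ 1 :=
  inv_le_one_of_one_le₀ (Th_zero.ge.trans (Th_mono (Nat.zero_le _)))

lemma V_anti {t t' : ℕ} (ht : 3 ≤ t) (h : t ≤ t') : V t' ≤ V t :=
  inv_anti₀ (Th_pos _) (Th_mono (zz_mono ht h))

lemma le_V {t : ℕ} (ht : 3 ≤ t) : (Real.log t)⁻¹ ≤ V t :=
  inv_anti₀ (Th_pos _) ((act_iff ht).mpr le_rfl)

lemma V_le {t : ℕ} (ht : 3 ≤ t) : V t ≤ 2 / Real.log t := by
  have h1 := not_le.mp fun h => Nat.not_succ_le_self _ ((act_iff (p := zz t + 1) ht).mp h)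
  have h2 := one_le_log ht
  rw [V, inv_eq_one_div, div_le_div_iff₀ (Th_pos _) (by linarith)]
  linarith [Th_succ_le (zz t)]

lemma V_eq {t N : ℕ} (h : t ≤ N) :
    V t = ∏ p ∈ PQ N, if (p : ℕ) ≤ zz t then 1 - 1 / ((p : ℕ) : ℝ) else 1 := by
  rw [PQ, prod_subtype_eq_prod_filter fun n : ℕ => if n ≤ zz t then 1 - 1 / (n : ℝ) else 1,
    ← prod_filter, V, Th, prod_inv_distrib, inv_inv]
  refine prod_congr ?_ fun _ _ => by rw [one_div]
  ext q
  simp only [Nat.mem_primesLE, mem_filter, mem_range]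
  have := zz_le t
  exact ⟨fun h => ⟨⟨by omega, h.2⟩, h.1⟩, fun h => ⟨h.2, h.1.2⟩⟩

lemma sifted_iff {t N : ℕ} (h8 : 8 ≤ t) (h : t ≤ N) (b : Om) : Sifted b t ↔ Surv (PQ N) b t :=
  ⟨fun h1 p _ => h1.2 p, fun h1 => ⟨h8, fun p hp =>
    h1 p (mem_PQ.mpr ((lt_of_act (by omega) hp).le.trans h)) hp⟩⟩

open Classical in
/-- The indicator that all of `B` satisfies `r`. -/
noncomputable def ind (r : ℕ → Prop) (B : Finset ℕ) : ℝ := if ∀ t ∈ B, r t then 1 else 0

lemma ind_nonneg (r : ℕ → Prop) (B : Finset ℕ) : 0 ≤ ind r B := by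
  unfold ind; split_ifs <;> norm_num

lemma ind_le_one (r : ℕ → Prop) (B : Finset ℕ) : ind r B ≤ 1 := by
  unfold ind; split_ifs <;> norm_num

lemma ind_mul (r : ℕ → Prop) (B B' : Finset ℕ) : ind r B * ind r B' = ind r (B ∪ B') := by
  classical
  rw [ind, ind, ind, ite_zero_mul_ite_zero, one_mul]
  exact if_congr forall_mem_union.symm rfl rfl

lemma ind_of {r : ℕ → Prop} {B : Finset ℕ} (h : ∀ t ∈ B, r t) : ind r B = 1 := if_pos h

/-- Expectation over the primes up to `N`. -/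
noncomputable def EE (N : ℕ) (f : (ℕ → Prop) → ℝ) : ℝ := Ex (PQ N) (fun b => f (Sifted b)) 0

lemma EE_ind {N : ℕ} {B : Finset ℕ} (hB : ∀ t ∈ B, 8 ≤ t ∧ t ≤ N) :
    EE N (ind · B) = ∏ p ∈ PQ N,
      (1 - #((B.filter fun t => (p : ℕ) ≤ zz t).image (Nat.cast : ℕ → ZMod p)) / ((p : ℕ) : ℝ)) := by
  classical
  have := Ex_prod (PQ N) (fun p c => if c ∈ (B.filter fun t => (p : ℕ) ≤ zz t).image
    (Nat.cast : ℕ → ZMod p) then 0 else 1) 0
  simp only [expect_ite, zero_sub, mul_neg, mul_one, ← sub_eq_add_neg] at this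
  rw [← this]
  refine Ex_congr fun b _ => ?_
  simp only [← ite_not (_ ∈ _), prod_boole, ind]
  refine if_congr ?_ rfl rfl
  simp only [mem_image, mem_filter, not_exists, not_and, and_imp]
  exact ⟨fun h p _ t ht h1 => (h t ht).2 p ((act_iff (by have := (hB t ht).1; omega)).mpr h1),
    fun h t ht => (sifted_iff (hB t ht).1 (hB t ht).2 b).mpr fun p hp h1 =>
      h p hp t ht ((act_iff (by have := (hB t ht).1; omega)).mp h1)⟩

lemma EE_one {N t : ℕ} (h8 : 8 ≤ t) (h : t ≤ N) : EE N (ind · {t}) = V t := by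
  rw [EE_ind (by simp [h8, h]), V_eq h]
  refine prod_congr rfl fun p _ => ?_
  rw [filter_singleton]
  split_ifs <;> simp

lemma cast_card_le (p : Pr) (S : Finset (ZMod p)) : (#S : ℝ) / (p : ℕ) ≤ 1 := by
  refine div_le_one_of_le₀ ?_ (by positivity)
  exact_mod_cast (card_le_univ S).trans_eq (ZMod.card p)

theorem EE_ind_le {N X D : ℕ} {B : Finset ℕ} (h8 : 8 ≤ X) (hN : X ≤ N) (hB : ∀ t ∈ B, X ≤ t ∧ t ≤ N)
    (hD : D ≠ 0) (h : ∀ p : Pr, ∀ t ∈ B, ∀ t' ∈ B, t < t' → (p : ℕ) ∣ t' - t → (p : ℕ) ∣ D) :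
    EE N (ind · B) ≤ (V X * hh D) ^ #B := by
  have h1 : ∏ p ∈ PQ N, (if (p : ℕ) ∣ D then 1 + 1 / (((p : ℕ) : ℝ) - 1) else 1) ≤ hh D := by
    rw [PQ, prod_subtype_eq_prod_filter fun n : ℕ => if n ∣ D then 1 + 1 / ((n : ℝ) - 1) else 1,
      ← prod_filter]
    exact prod_le_hh fun q hq => Nat.mem_primeFactors.mpr
      ⟨(mem_filter.mp (mem_filter.mp hq).1).2, (mem_filter.mp hq).2, hD⟩
  have h2 : ∀ p : Pr, (1 : ℝ) ≤ if (p : ℕ) ∣ D then 1 + 1 / (((p : ℕ) : ℝ) - 1) else 1 := fun p => by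
    split_ifs
    exacts [one_le_fac p.2, le_rfl]
  refine le_trans ?_ (pow_le_pow_left₀ (mul_nonneg (V_pos X).le (prod_nonneg fun p _ =>
    zero_le_one.trans (h2 p))) (mul_le_mul_of_nonneg_left h1 (V_pos X).le) _)
  rw [EE_ind fun t ht => ⟨h8.trans (hB t ht).1, (hB t ht).2⟩, V_eq hN, ← prod_mul_distrib, ← prod_pow]
  refine prod_le_prod (fun p _ => sub_nonneg.mpr (cast_card_le p _)) fun p _ => ?_
  have p1 : (1 : ℝ) < (p : ℕ) := by exact_mod_cast p.2.one_lt
  have h3 : ∀ x : ℝ, 1 ≤ x → 1 - #((B.filter fun t => (p : ℕ) ≤ zz t).image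
      (Nat.cast : ℕ → ZMod p)) / ((p : ℕ) : ℝ) ≤ x ^ #B := fun x hx =>
    (sub_le_self _ (by positivity)).trans (one_le_pow₀ hx)
  by_cases h4 : (p : ℕ) ≤ zz X
  · rw [if_pos h4]
    split_ifs with h5
    · refine h3 _ (le_of_eq ?_)
      have : ((p : ℕ) : ℝ) - 1 ≠ 0 := by linarith
      field_simp
      ring
    · rw [filter_true_of_mem fun t ht => h4.trans (zz_mono (by omega) (hB t ht).1),
        card_image_of_injOn, mul_one]
      · have := one_add_mul_le_pow (a := -(1 / ((p : ℕ) : ℝ)))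
          (by have := one_div_le_one_div_of_le one_pos p1.le; linarith) #B
        rw [← sub_eq_add_neg] at this
        exact le_trans (le_of_eq (by ring)) this
      · intro t ht t' ht' e
        rw [ZMod.natCast_eq_natCast_iff] at e
        rcases lt_trichotomy t t' with h6 | h6 | h6
        · exact absurd (h p t ht t' ht' h6 ((Nat.modEq_iff_dvd' h6.le).mp e)) h5
        · exact h6
        · exact absurd (h p t' ht' t ht h6 ((Nat.modEq_iff_dvd' h6.le).mp e.symm)) h5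
  · rw [if_neg h4, one_mul]
    exact h3 _ (h2 p)

/-- The local factor of a pair. -/
noncomputable def sg (z h : ℕ) (p : Pr) : ℝ :=
  if (p : ℕ) ≤ z then 1 - 1 / (((p : ℕ) : ℝ) - 1) ^ 2 +
    if (p : ℕ) ∣ h then (p : ℕ) / (((p : ℕ) : ℝ) - 1) ^ 2 else 0 else 1

lemma EE_pair {N t h : ℕ} (h8 : 8 ≤ t) (h0 : 0 < h) (hN : t + h ≤ N) :
    EE N (ind · {t, t + h}) = V t * V (t + h) * ∏ p ∈ PQ N, sg (zz t) h p := by
  rw [EE_ind (by simp; omega), V_eq (by omega : t ≤ N), V_eq hN, ← prod_mul_distrib,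
    ← prod_mul_distrib]
  refine prod_congr rfl fun p _ => ?_
  have p1 : (1 : ℝ) < (p : ℕ) := by exact_mod_cast p.2.one_lt
  have p2 : ((p : ℕ) : ℝ) - 1 ≠ 0 := by linarith
  have h1 := zz_mono (by omega : 3 ≤ t) (Nat.le_add_right t h)
  rw [filter_insert, filter_singleton, sg]
  by_cases h2 : (p : ℕ) ≤ zz t
  · simp only [if_pos h2, if_pos (h2.trans h1), image_insert, image_singleton]
    split_ifs with h3
    · rw [Nat.cast_add, (ZMod.natCast_eq_zero_iff _ _).mpr h3, add_zero, pair_eq_singleton,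
        card_singleton]
      field_simp
      ring
    · rw [card_pair (by simpa [ZMod.natCast_eq_zero_iff] using h3)]
      field_simp
      ring
  · simp only [if_neg h2]
    split_ifs <;> simp

end Pool.Agent.MP_00acf4_nt

end

-- part MP_00acf4_nt.Arith
section

/-!
Averages of singular series, the variance of the counting function and twin patterns.
-/

set_option autoImplicit false

namespace Pool.Agent.MP_00acf4_nt

open Finset Function Pool.Agent.MP_a96b63_al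
open scoped BigOperators

lemma abel' {f u : ℕ → ℝ} {m : ℝ} (B : ℕ) (hu : ∀ i < B, u (i + 1) ≤ u i)
    (h : ∀ k ≤ B, ∑ i ∈ range k, f i ≤ m) :
    ∑ i ∈ range B, f i * u i ≤ m * (u 0 - u B) + (∑ i ∈ range B, f i) * u B := by
  induction B with
  | zero => simp
  | succ B ih =>
    have h1 := ih (fun i hi => hu i (by omega)) fun k hk => h k (by omega)
    have h2 := mul_le_mul_of_nonneg_right (h (B + 1) le_rfl) (sub_nonneg.mpr (hu B (by omega)))
    rw [sum_range_succ] at h2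
    rw [sum_range_succ, sum_range_succ]
    linarith

lemma abel {f g u : ℕ → ℝ} (B : ℕ) (hu : ∀ i < B, u (i + 1) ≤ u i) (h0 : 0 ≤ u B)
    (h : ∀ k ≤ B, ∑ i ∈ range k, f i ≤ ∑ i ∈ range k, g i) :
    ∑ i ∈ range B, f i * u i ≤ ∑ i ∈ range B, g i * u i := by
  have h1 : ∀ k ≤ B, ∑ i ∈ range k, (f i - g i) ≤ 0 := fun k hk => by
    rw [sum_sub_distrib]; linarith [h k hk]
  have h2 := abel' B hu h1
  have h3 := mul_nonpos_of_nonpos_of_nonneg (h1 B le_rfl) h0
  simp only [sub_mul, sum_sub_distrib] at h2 h3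
  linarith

lemma sq_sum (f : ℕ → ℝ) (s e : ℕ) : (∑ n ∈ Ico s e, f n) ^ 2 =
    ∑ n ∈ Ico s e, (f n ^ 2 + 2 * ∑ i ∈ range (e - (n + 1)), f n * f (n + (i + 1))) := by
  rcases le_total e s with h | h
  · simp [Ico_eq_empty_of_le h]
  induction e, h using Nat.le_induction with
  | base => simp
  | succ e h ih =>
    rw [sum_Ico_succ_top h, sum_Ico_succ_top h, add_sq, ih, Nat.sub_self, sum_range_zero, mul_assoc,
      sum_mul, mul_sum, ← sum_add_distrib, mul_zero, add_zero]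
    congr 1
    refine sum_congr rfl fun n hn => ?_
    have := (mem_Ico.mp hn).2
    rw [show e + 1 - (n + 1) = e - (n + 1) + 1 by omega, sum_range_succ,
      show n + (e - (n + 1) + 1) = e by omega]
    ring

lemma sum_dvd_le (Q : Finset Pr) (α β : Pr → ℝ) (hα : ∀ p, 0 ≤ α p) (hβ : ∀ p, 0 ≤ β p) (Y : ℕ) :
    ∑ i ∈ range Y, ∏ p ∈ Q, ((if (p : ℕ) ∣ i + 1 then β p else 0) + α p) ≤
      Y * ∏ p ∈ Q, (β p / (p : ℕ) + α p) := by
  simp only [prod_add]
  rw [sum_comm, mul_sum]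
  refine sum_le_sum fun S _ => ?_
  rw [← sum_mul, ← mul_assoc]
  refine mul_le_mul_of_nonneg_right ?_ (prod_nonneg fun p _ => hα p)
  have h0 : 0 ≤ ∏ p ∈ S, β p := prod_nonneg fun p _ => hβ p
  calc _ ≤ ∑ i ∈ range Y, if (∏ p ∈ S, (p : ℕ)) ∣ i + 1 then ∏ p ∈ S, β p else 0 := by
        refine sum_le_sum fun i _ => ?_
        rw [prod_ite_zero]
        split_ifs with h1 h2 h2
        · exact le_rfl
        · exact absurd (prod_dvd_of_isRelPrime (fun p _ q _ h => Nat.coprime_iff_isRelPrime.mp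
            ((Nat.coprime_primes p.2 q.2).mpr fun e => h (Subtype.ext e))) h1) h2
        · exact h0
        · exact le_rfl
    _ = (Y / ∏ p ∈ S, (p : ℕ) : ℕ) * ∏ p ∈ S, β p := by
        rw [← sum_filter, sum_const, Nat.card_multiples, nsmul_eq_mul]
    _ ≤ Y / (∏ p ∈ S, (p : ℕ) : ℕ) * ∏ p ∈ S, β p := by gcongr; exact Nat.cast_div_le
    _ = _ := by rw [prod_div_distrib, Nat.cast_prod]; ring

lemma two_le (p : Pr) : (2 : ℝ) ≤ (p : ℕ) := by exact_mod_cast p.2.two_le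

lemma sum_sg_le (Q : Finset Pr) (z Y : ℕ) : ∑ i ∈ range Y, ∏ p ∈ Q, sg z (i + 1) p ≤ Y := by
  have h := sum_dvd_le Q (fun p => if (p : ℕ) ≤ z then 1 - 1 / (((p : ℕ) : ℝ) - 1) ^ 2 else 1)
    (fun p => if (p : ℕ) ≤ z then (p : ℕ) / (((p : ℕ) : ℝ) - 1) ^ 2 else 0) (fun p => by
      split_ifs
      · exact sub_nonneg.mpr (div_le_one_of_le₀ (one_le_pow₀ (by linarith [two_le p])) (sq_nonneg _))
      · exact zero_le_one) (fun p => by split_ifs <;> positivity) Y
  rw [prod_eq_one (s := Q) fun p _ => ?_, mul_one] at h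
  · refine le_trans (le_of_eq (sum_congr rfl fun i _ => prod_congr rfl fun p _ => ?_)) h
    rw [sg]
    split_ifs <;> ring
  · have := two_le p
    split_ifs
    · field_simp
      ring
    · simp

variable {N : ℕ} {f g : (ℕ → Prop) → ℝ}

lemma EE_mono (h : ∀ b, f (Sifted b) ≤ g (Sifted b)) : EE N f ≤ EE N g := Ex_mono h

lemma EE_congr (h : ∀ b, f (Sifted b) = g (Sifted b)) : EE N f = EE N g := Ex_congr fun b _ => h b

lemma EE_const (c : ℝ) : EE N (fun _ => c) = c := Ex_const _ _ _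

lemma EE_le {c : ℝ} (h : ∀ b, f (Sifted b) ≤ c) : EE N f ≤ c := Ex_le fun b _ => h b

lemma EE_nonneg (h : ∀ r, 0 ≤ f r) : 0 ≤ EE N f := Ex_nonneg fun _ => h _

lemma EE_add (f g : (ℕ → Prop) → ℝ) : EE N (fun r => f r + g r) = EE N f + EE N g := Ex_add _ _

lemma EE_sub (f g : (ℕ → Prop) → ℝ) : EE N (fun r => f r - g r) = EE N f - EE N g := Ex_sub _ _

lemma EE_mul (c : ℝ) (f : (ℕ → Prop) → ℝ) : EE N (fun r => c * f r) = c * EE N f := Ex_mul _ _

lemma EE_sum {ι : Type*} (s : Finset ι) (f : ι → (ℕ → Prop) → ℝ) :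
    EE N (fun r => ∑ i ∈ s, f i r) = ∑ i ∈ s, EE N (f i) := Ex_sum s fun i b => f i (Sifted b)

lemma abs_EE_le : |EE N f| ≤ EE N (fun r => |f r|) := abs_Ex_le

/-- The expected number of survivors below `n`. -/
noncomputable def MM (n : ℕ) : ℝ := ∑ t ∈ Ico 8 n, V t

open Classical in
/-- The number of `t < n` with `r t`. -/
noncomputable def cnt (r : ℕ → Prop) (n : ℕ) : ℕ := Nat.count r n

lemma cnt_eq (b : Om) (n : ℕ) : (cnt (Sifted b) n : ℝ) = ∑ t ∈ Ico 8 n, ind (Sifted b) {t} := by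
  classical
  simp only [cnt, ind, mem_singleton, forall_eq]
  rw [Nat.count_eq_card_filter_range, sum_boole]
  congr 2
  ext t
  simp only [mem_filter, mem_range, mem_Ico]
  exact ⟨fun h => ⟨⟨h.2.1, h.1⟩, h.2⟩, fun h => ⟨h.1.2, h.2⟩⟩

theorem var_le {n : ℕ} (hn : n ≤ N) : EE N (fun r => (cnt r n - MM n) ^ 2) ≤ n := by
  rw [EE_congr (g := fun r => ∑ t ∈ Ico 8 n, ((ind r {t} - V t) ^ 2 + 2 * ∑ i ∈ range (n - (t + 1)),
    (ind r {t, t + (i + 1)} - V t * ind r {t + (i + 1)} - V (t + (i + 1)) * ind r {t} +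
      V t * V (t + (i + 1))))) fun b => ?_, EE_sum]
  · refine (sum_le_card_nsmul _ _ 1 fun t ht => ?_).trans (by simp)
    obtain ⟨h1, h2⟩ := mem_Ico.mp ht
    rw [EE_add, EE_mul, EE_sum]
    refine add_le_of_le_of_nonpos (EE_le fun b => (sq_le_one_iff_abs_le_one _).mpr (abs_le.mpr
      ⟨by linarith [ind_nonneg (Sifted b) {t}, V_le_one t],
        by linarith [ind_le_one (Sifted b) {t}, V_pos t]⟩))
      (mul_nonpos_of_nonneg_of_nonpos two_pos.le ?_)
    have h3 := abel (f := fun i => ∏ p ∈ PQ N, sg (zz t) (i + 1) p) (g := fun _ => 1)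
      (u := fun i => V t * V (t + (i + 1))) (n - (t + 1))
      (fun i _ => mul_le_mul_of_nonneg_left (V_anti (by omega) (by omega)) (V_pos t).le)
      (mul_pos (V_pos _) (V_pos _)).le fun k _ => by simpa using sum_sg_le _ _ k
    rw [← sub_nonpos, ← sum_sub_distrib] at h3
    refine le_trans (le_of_eq (sum_congr rfl fun i hi => ?_)) h3
    have h4 := mem_range.mp hi
    rw [EE_add, EE_sub, EE_sub, EE_mul, EE_mul, EE_const, EE_one h1 (by omega),
      EE_one (by omega) (by omega), EE_pair h1 (by omega) (by omega)]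
    ring
  · rw [cnt_eq, MM, ← sum_sub_distrib, sq_sum]
    refine sum_congr rfl fun t _ => ?_
    congr 2
    refine sum_congr rfl fun i _ => ?_
    rw [insert_eq, ← ind_mul]
    ring

lemma twin {t : ℕ} (h8 : 8 ≤ t) (hN : t + 2 ≤ N) : V (t + 2) ^ 2 / 4 ≤ EE N (ind · {t, t + 2}) := by
  rw [EE_pair h8 two_pos hN]
  set x : Pr → ℝ := fun p => if 2 < (p : ℕ) then 3 / 2 * (1 / (((p : ℕ) : ℝ) - 1) / (p : ℕ)) else 0
    with hx
  have h1 : ∀ p, (0 ≤ x p ∧ x p ≤ 1) ∧ 1 - x p ≤ sg (zz t) 2 p := fun p => by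
    have h2 := two_le p
    have h3 : (0 : ℝ) < (p : ℕ) - 1 := by linarith
    simp only [hx, sg]
    by_cases h4 : 2 < (p : ℕ)
    · have h5 : (3 : ℝ) ≤ (p : ℕ) := by exact_mod_cast h4
      have h6 : 1 / (((p : ℕ) : ℝ) - 1) ^ 2 ≤ 3 / 2 * (1 / (((p : ℕ) : ℝ) - 1) / (p : ℕ)) := by
        rw [div_div, mul_one_div, div_le_div_iff₀ (by positivity) (by positivity)]
        nlinarith
      rw [if_pos h4, if_neg fun h => absurd (Nat.le_of_dvd two_pos h) (not_le.mpr h4)]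
      refine ⟨⟨by positivity, ?_⟩, ?_⟩
      · rw [div_div, mul_one_div, div_le_one (by positivity)]
        nlinarith
      · split_ifs
        · linarith
        · exact sub_le_self _ (by positivity)
    · have h5 : (p : ℕ) = 2 := by have := p.2.two_le; omega
      rw [if_neg h4, h5]
      split_ifs <;> norm_num at *
  have h2 : ∑ p ∈ PQ N, x p ≤ 3 / 4 := by
    have := MP_18a942_nt.tele (m := 2) one_le_two (((range (N + 1)).filter Nat.Prime).filter (2 < ·))
      fun q hq => (mem_filter.mp hq).2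
    rw [PQ, sum_subtype_eq_sum_filter fun n : ℕ =>
      if 2 < n then 3 / 2 * (1 / ((n : ℝ) - 1) / n) else 0, ← sum_filter, ← mul_sum]
    push_cast at this
    linarith
  have h3 := (one_sub_sum_le_prod (PQ N) x fun p _ => (h1 p).1).trans
    (prod_le_prod (fun p _ => sub_nonneg.mpr (h1 p).1.2) fun p _ => (h1 p).2)
  have h4 := V_pos (t + 2)
  have h5 := V_anti (by omega : 3 ≤ t) (Nat.le_add_right t 2)
  calc _ = V (t + 2) * V (t + 2) * (1 / 4) := by ring
    _ ≤ _ := by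
        gcongr
        · exact (mul_pos (V_pos _) h4).le
        · linarith

lemma hh_le : ∃ C : ℝ, 0 < C ∧ ∀ k : ℕ, 2 ≤ k → ∀ D : ℕ, D ≠ 0 → D ≤ 2 ^ k →
    hh D ≤ C * Real.log k := by
  obtain ⟨C, C0, hC⟩ := MP_18a942_nt.small_part
  refine ⟨C * Real.exp 1, by positivity, fun k hk D h0 hD => ?_⟩
  have k2 : (2 : ℝ) ≤ k := by exact_mod_cast hk
  have hp := fun q (hq : q ∈ D.primeFactors.filter fun q => ¬ q ≤ k) =>
    Nat.prime_of_mem_primeFactors (mem_filter.mp hq).1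
  rw [hh, ← prod_filter_mul_prod_filter_not D.primeFactors (· ≤ k), mul_right_comm]
  refine mul_le_mul (hC k hk _ fun q hq => ⟨Nat.prime_of_mem_primeFactors (mem_filter.mp hq).1,
    (mem_filter.mp hq).2⟩) ((MP_18a942_nt.prod_le_exp _ _ fun q hq => inv_pred_nonneg (hp q hq)).trans
      (Real.exp_le_exp.mpr ?_)) (prod_nonneg fun q hq => zero_le_one.trans (one_le_fac (hp q hq)))
    (mul_nonneg C0.le (Real.log_natCast_nonneg k))
  refine (sum_le_card_nsmul _ _ (1 / (k : ℝ)) fun q hq => ?_).trans ?_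
  · have : (k : ℝ) + 1 ≤ q := by exact_mod_cast not_le.mp (mem_filter.mp hq).2
    exact one_div_le_one_div_of_le (by linarith) (by linarith)
  · rw [nsmul_eq_mul, mul_one_div, div_le_one (by linarith), Nat.cast_le]
    refine (card_filter_le _ _).trans ((Nat.pow_le_pow_iff_right one_lt_two).mp ?_)
    exact (pow_card_le_prod _ _ _ fun q hq => (Nat.prime_of_mem_primeFactors hq).two_le).trans
      ((Nat.le_of_dvd (Nat.pos_of_ne_zero h0) (Nat.prod_primeFactors_dvd D)).trans hD)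

lemma hh_pow_avg (k Y : ℕ) : ∑ i ∈ range Y, hh (i + 1) ^ k ≤ Real.exp (2 ^ k) * Y := by
  have key : ∀ x : ℝ, 0 ≤ x → x ≤ 1 → (1 + x) ^ k ≤ 1 + (2 ^ k - 1) * x := fun x h0 h1 => by
    induction k with
    | zero => simp
    | succ k ih =>
      have : (1 : ℝ) ≤ 2 ^ k := one_le_pow₀ one_le_two
      rw [pow_succ, pow_succ]
      nlinarith [mul_nonneg (mul_nonneg (sub_nonneg.mpr this) h0) (sub_nonneg.mpr h1)]
  have hQ : ∀ q ∈ Nat.primesLE Y, q.Prime := fun q => Nat.prime_of_mem_primesLE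
  have h0 : ∀ q ∈ Nat.primesLE Y, 0 ≤ 2 ^ k * (1 / ((q : ℝ) - 1)) := fun q hq =>
    mul_nonneg (by positivity) (inv_pred_nonneg (hQ q hq))
  have h1 := MP_18a942_nt.sum_prod_dvd_le _ hQ _ h0 Y
  have h2 := MP_18a942_nt.prod_le_exp (Nat.primesLE Y) (fun q => 2 ^ k * (1 / ((q : ℝ) - 1)) / q)
    fun q hq => div_nonneg (h0 q hq) (by positivity)
  have h3 := MP_18a942_nt.tele le_rfl (Nat.primesLE Y) fun q hq => (hQ q hq).one_lt
  simp only [mul_div_assoc, ← mul_sum] at h1 h2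
  rw [Nat.cast_one, div_one] at h3
  rw [← Ico_add_one_add_one_eq_Ioc, sum_Ico_eq_sum_range, Nat.add_sub_add_right, Nat.sub_zero] at h1
  refine le_trans (sum_le_sum fun i hi => ?_) (h1.trans ?_)
  · rw [hh, ← prod_pow, zero_add, add_comm 1 i]
    have : (i + 1).primeFactors = (Nat.primesLE Y).filter (· ∣ i + 1) := by
      ext q
      simp only [Nat.mem_primeFactors, mem_filter, Nat.mem_primesLE]
      exact ⟨fun h => ⟨⟨(Nat.le_of_dvd (by omega) h.2.1).trans (mem_range.mp hi), h.1⟩, h.2.1⟩,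
        fun h => ⟨h.1.2, h.2, by omega⟩⟩
    rw [this, prod_filter]
    refine prod_le_prod (fun q hq => ?_) fun q hq => ?_
    · have := inv_pred_nonneg (hQ q hq)
      split_ifs <;> positivity
    · have h4 := inv_pred_nonneg (hQ q hq)
      have h5 : (2 : ℝ) ≤ q := by exact_mod_cast (hQ q hq).two_le
      split_ifs
      · nlinarith [key _ h4 (div_le_one_of_le₀ (by linarith) (by linarith))]
      · simp
  · rw [mul_comm]
    gcongr
    exact h2.trans (Real.exp_le_exp.mpr (mul_le_of_le_one_right (by positivity) h3))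

lemma two_le_log {n : ℕ} (hn : 8 ≤ n) : 2 ≤ Real.log n := by
  have := Real.log_le_log (by norm_num) ((Nat.cast_le (α := ℝ)).mpr hn)
  rw [show ((8 : ℕ) : ℝ) = 2 ^ 3 by norm_num, Real.log_pow] at this
  push_cast at this
  linarith [Real.log_two_gt_d9]

lemma MM_succ {n : ℕ} (hn : 8 ≤ n) : MM (n + 1) = MM n + V n := sum_Ico_succ_top hn _

lemma MM_mono : Monotone MM := fun _ _ h =>
  sum_le_sum_of_subset_of_nonneg (Ico_subset_Ico_right h) fun t _ _ => (V_pos t).le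

lemma MM_nonneg (n : ℕ) : 0 ≤ MM n := sum_nonneg fun t _ => (V_pos t).le

lemma MM_le {n : ℕ} (hn : 8 ≤ n) : MM n ≤ 6 * n / Real.log n := by
  induction n, hn using Nat.le_induction with
  | base => rw [MM, Ico_self, sum_empty]; positivity
  | succ n hn ih =>
    have h1 := two_le_log hn
    have n8 : (8 : ℝ) ≤ n := by exact_mod_cast hn
    have h2 : Real.log (n + 1 : ℕ) ≤ Real.log n + 1 / n := by
      have := Real.log_le_sub_one_of_pos (x := (n + 1 : ℕ) / n) (by positivity)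
      rw [Real.log_div (by positivity) (by positivity), Nat.cast_succ, add_div,
        div_self (by positivity)] at this
      rw [Nat.cast_succ]
      linarith
    have h3 : n * (1 / (n : ℝ)) = 1 := by field_simp
    have h4 : 1 / (n : ℝ) ≤ 1 := by rw [div_le_one (by linarith)]; linarith
    rw [MM_succ hn]
    refine (add_le_add ih (V_le (by omega))).trans ?_
    rw [← add_div, div_le_div_iff₀ (by linarith) (by linarith [two_le_log (hn.trans n.le_succ)])]
    refine (mul_le_mul_of_nonneg_left h2 (by positivity)).trans ?_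
    push_cast
    nlinarith

lemma le_MM {n : ℕ} (hn : 8 ≤ n) : (n - 8) / Real.log n ≤ MM n := by
  have := card_nsmul_le_sum (Ico 8 n) V (Real.log n)⁻¹ fun t ht =>
    (le_V (by omega)).trans (V_anti (by have := (mem_Ico.mp ht).1; omega) (mem_Ico.mp ht).2.le)
  rwa [Nat.card_Ico, nsmul_eq_mul, Nat.cast_sub hn] at this

end Pool.Agent.MP_00acf4_nt

end

-- part MP_00acf4_nt.Bias
section

/-!
The parity of the number of survivors in a long set is almost unbiased.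
-/

set_option autoImplicit false

namespace Pool.Agent.MP_00acf4_nt

open Finset Function
open scoped BigOperators

lemma core {R K J L y w X h : ℕ} {τ β : ℝ} (K1 : 1 ≤ K) (hJ : 4 * R * K ≤ J) (h1 : 2 ^ J ≤ y)
    (h2 : 4 * (2 * K) ^ (4 * R) ≤ y) (h3 : 12 * R ≤ y) (y4 : 4 ≤ y) (y3 : X ≤ y ^ (2 * R))
    (hy4 : h ≤ y ^ (4 * R)) (L1 : 4 * L ≤ h) (L2 : 4 * (2 ^ J) ^ (4 * R) * L ≤ y) (w1 : w ≤ X ^ 3)
    (w2 : y ^ 8 ≤ w)
    (hT : 1 / 2 ≤ ∑ p ∈ (PQ w).filter fun p : Pr => y ^ 8 < (p : ℕ), (1 : ℝ) / (p : ℕ))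
    (hs : ∀ Q ⊆ PQ (X ^ 3), ∀ s d : ℕ, (∀ p ∈ Q, ¬ (p : ℕ) ∣ d) → ∀ a : Om,
      Ex Q (fun b => Real.exp (-sv (range L) (fun t => s + d * t) Q b / 16)) a ≤ β)
    (τ0 : 0 ≤ τ) (τ1 : τ ≤ 1) (hτ : ∀ r ≤ 4 * R, (1 / y : ℝ) ^ K ≤ τ ^ 2 ^ r)
    (hβ : ∀ r ≤ 4 * R, Real.exp (9 + J / 8) * β ≤ τ ^ 2 ^ r) {u v s : ℕ} {T E : Finset ℕ}
    {Φ : Finset ℕ → ℝ} (a : Om) (act : ∀ p : Pr, (p : ℕ) ≤ w → ∀ t ∈ T, Th p ≤ Real.log t)
    (t1 : T ⊆ Ico u (u + h) ∪ Ico v (v + h)) (t2 : ∀ t ∈ T ∪ E, t ≤ X ^ 3) (t3 : Disjoint T E)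
    (t4 : #E ≤ 4 * (L + 1)) (t5 : ∀ t, 2 * t < h → s + t ∈ T) (t6 : ∀ S, |Φ S| ≤ 1) :
    |Bx (PQ (X ^ 3)) T E Φ a| ≤ 2 * τ := by
  have y0 : 0 < y := by omega
  have y8 : ∀ n, n ≤ 8 → y ^ n ≤ y ^ 8 := fun n => Nat.pow_le_pow_right y0
  have L3 : 4 * L ≤ y :=
    (Nat.mul_le_mul_right _ (Nat.le_mul_of_pos_right _ (by positivity))).trans L2
  set Top := (PQ w).filter fun p : Pr => y ^ 8 < (p : ℕ) with hTop
  have y82 : 4 ^ 2 ≤ y ^ 8 := (Nat.pow_le_pow_left y4 2).trans (y8 2 (by norm_num))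
  have e0 := hy4.trans (Nat.pow_le_pow_right y0 (Nat.le_add_right _ 2))
  have ex : ∃ r, h ≤ y ^ (r + 2) := ⟨4 * R, e0⟩
  obtain ⟨r, r1, r2, r3⟩ : ∃ r, h ≤ y ^ (r + 2) ∧ r ≤ 4 * R ∧ (r = 0 ∨ y ^ (r + 1) < h) := by
    refine ⟨Nat.find ex, Nat.find_spec ex, Nat.find_le e0, ?_⟩
    rcases Nat.eq_zero_or_pos (Nat.find ex) with a1 | a1
    · exact .inl a1
    · have := Nat.find_min ex (Nat.sub_lt a1 one_pos)
      rw [show Nat.find ex - 1 + 2 = Nat.find ex + 1 by omega] at this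
      exact .inr (not_le.mp this)
  have rJ : r * K ≤ J := (Nat.mul_le_mul_right _ r2).trans hJ
  obtain ⟨Ys, Y1, Y2⟩ := bertrand y0.ne' (r * K)
  have Y3 : ∀ p ∈ Ys, (p : ℕ) ≤ 2 ^ J * y := fun p hp =>
    (Y2 p hp).2.trans (Nat.mul_le_mul_right _ (Nat.pow_le_pow_right two_pos rJ))
  have Y4 : ∀ p ∈ Ys, (p : ℕ) ≤ y ^ 8 := fun p hp =>
    (Y3 p hp).trans ((Nat.mul_le_mul_right _ h1).trans (sq y ▸ y8 2 (by norm_num)))
  refine recur (y' := 2 ^ J * y) (K := K) (J := J) (L := L) (Y := (y ^ 3 : ℕ))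
    (β₀ := Real.exp (9 + J / 8) * β) y0 (PQ (X ^ 3)) Top T E a
    (fun Q hQ hTQ T' hT' a1 a2 Ψ hΨ => ?_) r _ subset_rfl Ys
    (fun p hp => mem_PQ.mpr ((Y4 p hp).trans (w2.trans w1)))
    (fun p hp => mem_sdiff.mpr ⟨mem_PQ.mpr ((mem_PQ.mp (mem_filter.mp hp).1).trans w1),
      fun a1 => absurd (Y4 p a1) (not_le.mpr (mem_filter.mp hp).2)⟩) Y1
    (fun p hp => ⟨(Y2 p hp).1, Y3 p hp, act p ((Y4 p hp).trans w2)⟩) T subset_rfl 2 h two_pos.le
    (by positivity) (fun D hD c => spread y0 D (fun p hp => (Y2 p (hD hp)).1) t1 c) ?_ 0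
    (by omega) ⟨s, 1, ∅, a, fun p _ => p.2.not_dvd_one, disjoint_empty_left _, by simp, le_rfl,
      fun t ht _ => (one_mul t).symm ▸ t5 _ ?_⟩ τ τ0 τ1 (hτ r r2) (hβ r r2) Φ t6
  · have a3 : #T' ≤ y ^ 3 := by exact_mod_cast a1
    have y5 : 2 * y ≤ y ^ 3 := by
      rw [pow_succ]
      exact Nat.mul_le_mul_right _ ((by omega : 2 ≤ y).trans (Nat.le_self_pow two_ne_zero y))
    have a4 : #E ≤ y ^ 3 := by omega
    obtain ⟨P, b1, b2, b3, b4⟩ := good (w := y ^ 8) (r := R) (by omega) (T' ∪ E) (fun t ht => by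
      refine (t2 t (union_subset_union_left hT' ht)).trans ((Nat.pow_le_pow_left y3 3).trans ?_)
      rw [← pow_mul, ← pow_mul]
      exact Nat.pow_le_pow_right y0 (by omega)) Top (fun p hp => (mem_filter.mp hp).2) hT (by
        have b1 : #(T' ∪ E) ≤ 2 * y ^ 3 := (card_union_le _ _).trans (by omega)
        calc _ ≤ 3 * ((2 * y ^ 3) ^ 2 * R) := by gcongr
          _ = y ^ 6 * (12 * R) := by ring
          _ ≤ y ^ 6 * y := by gcongr
          _ ≤ _ := y8 7 (by norm_num))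
    obtain ⟨s', d, b5, b6⟩ := hole a2 ((nonempty_of_sum_ne_zero
      (lt_of_lt_of_le (by norm_num) hT).ne').mono hTQ) y0 (by omega)
    refine (base_two (b1.trans hTQ) (t3.mono_left hT') (by omega) a3 a4 (fun p hp => ⟨?_, fun t ht =>
      act p (mem_PQ.mp (mem_filter.mp (b1 hp)).1) t (hT' ht), b2 p hp⟩) b3 b4 hΨ a).trans ?_
    · rw [← pow_mul]
      exact (y8 6 (by norm_num)).trans (mem_filter.mp (b1 hp)).2.le
    · refine le_trans (Ex_mono fun b => ?_) ((Ex_mul _ _).trans_le (mul_le_mul_of_nonneg_left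
        (hs _ (sdiff_subset.trans hQ) s' d (fun p hp => b5 p (mem_sdiff.mp hp).1) a) (by positivity)))
      rw [← Real.exp_add, Real.exp_le_exp]
      linarith only [b6 (Q \ P) b]
  · have yr : (4 : ℝ) ≤ y := by exact_mod_cast y4
    have a1 : (h : ℝ) / y ^ r ≤ y ^ 2 := by
      rw [div_le_iff₀ (by positivity), ← pow_add, add_comm]
      exact_mod_cast r1
    have a2 : 4 * (2 * K) ^ r ≤ y :=
      (Nat.mul_le_mul_left _ (Nat.pow_le_pow_right (by omega) r2)).trans h2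
    have a3 : 4 * (2 * K : ℝ) ^ r ≤ y := by exact_mod_cast a2
    have a4 : (h : ℝ) / y ^ r + 1 ≤ 2 * y ^ 2 := by nlinarith only [a1, yr]
    calc _ ≤ 2 * (2 * K : ℝ) ^ r * (2 * y ^ 2) := by gcongr
      _ = 4 * (2 * K : ℝ) ^ r * y ^ 2 := by ring
      _ ≤ y * y ^ 2 := by gcongr
      _ = _ := by push_cast; ring
  · rcases r3 with rfl | r3
    · rw [pow_zero, one_mul] at ht
      omega
    · have a1 : 4 * ((2 ^ J * y) ^ r * L) ≤ y ^ (r + 1) := by
        calc _ = 4 * (2 ^ J) ^ r * L * y ^ r := by ring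
          _ ≤ 4 * (2 ^ J) ^ (4 * R) * L * y ^ r := by
              gcongr
              exact Nat.one_le_two_pow
          _ ≤ y * y ^ r := by gcongr
          _ = _ := by ring
      omega

lemma tau_le {h A R z n r : ℕ} (h0 : 1 ≤ h) (a1 : 2 ≤ z) (a2 : h ≤ z ^ n) (a3 : r ≤ R) :
    (1 / z : ℝ) ^ ((n * A + 1) * 2 ^ R) ≤ (((h : ℝ) ^ A)⁻¹ / 2) ^ 2 ^ r := by
  have h1 : (1 : ℝ) ≤ h := by exact_mod_cast h0
  have := inv_le_one_of_one_le₀ (one_le_pow₀ h1 (n := A))
  refine le_trans ?_ (pow_le_pow_of_le_one (by positivity) (by linarith)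
    (Nat.pow_le_pow_right two_pos a3))
  rw [pow_mul]
  gcongr
  rw [one_div_pow, div_eq_mul_inv _ (2 : ℝ), ← mul_inv, one_div, pow_succ, pow_mul]
  gcongr
  · exact_mod_cast a2
  · exact_mod_cast a1

open Classical in
theorem bias (A : ℕ) : ∀ᶠ X : ℕ in Filter.atTop, ∀ h : ℕ, Real.log X ^ 5 ≤ (h : ℝ) ^ 3 → h ≤ X ^ 2 →
    ∃ l : ℕ, 4 * l ≤ h ∧ l ≤ X ∧ (∀ s a, Ex (PQ (X ^ 3))
      (fun b => if ∀ t < l, ¬ Surv (PQ (X ^ 3)) b (s + t) then 1 else 0) a ≤ ((h : ℝ) ^ A)⁻¹) ∧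
      ∀ (u v s : ℕ) (T E : Finset ℕ) (Φ : Finset ℕ → ℝ) (a : Om),
        T ⊆ Ico u (u + h) ∪ Ico v (v + h) → (∀ t ∈ T ∪ E, X ≤ t ∧ t ≤ X ^ 3) → Disjoint T E →
        #E ≤ 4 * (l + 1) → (∀ t, 2 * t < h → s + t ∈ T) → (∀ S, |Φ S| ≤ 1) →
        |Bx (PQ (X ^ 3)) T E Φ a| ≤ ((h : ℝ) ^ A)⁻¹ := by
  obtain ⟨C₁, C1, hC₁⟩ := Th_le
  obtain ⟨B, B1, hB⟩ := top
  obtain ⟨C, C0, hC⟩ := mertens_up
  obtain ⟨R, hR, hR'⟩ : ∃ R : ℕ, 8 * B * C₁ ≤ R ∧ 8 * B ≤ R := by
    obtain ⟨R, hR⟩ := exists_nat_ge (8 * B * C₁)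
    exact ⟨max R (8 * B), hR.trans (by exact_mod_cast le_max_left _ _), le_max_right _ _⟩
  have R0 : R ≠ 0 := by omega
  set K := (4 * R * A + 1) * 2 ^ (4 * R) with hK
  set J := 4 * R * K with hJ
  set D := 4 * (2 ^ J) ^ (4 * R) with hD
  set A' := (8 * R * A + 1) * 2 ^ (4 * R) with hA'
  have K1 : 1 ≤ K := Nat.one_le_iff_ne_zero.mpr (by positivity)
  have D4 : 4 ≤ D := Nat.le_mul_of_pos_right _ (by positivity)
  clear_value A' D J K
  have D0 : 0 < D := lt_of_lt_of_le (by norm_num) D4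
  have Dr : (0 : ℝ) < D := by exact_mod_cast D0
  obtain ⟨L₀, hL₀⟩ := Filter.eventually_atTop.mp
    (((surv (A' + 1) (Real.log 3 + C + 0.6 * Real.log (2 * D))).and
      (Filter.eventually_ge_atTop (2 * D))).and
      ((tendsto_natCast_atTop_atTop (R := ℝ)).eventually_ge_atTop (Real.exp (9 + J / 8))))
  have Ty : Filter.Tendsto (Nat.nthRoot R) Filter.atTop Filter.atTop :=
    Filter.tendsto_atTop.2 fun b => (Filter.eventually_ge_atTop (b ^ R)).mono fun X hX =>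
      (Nat.le_nthRoot_iff R0).mpr hX
  filter_upwards [Ty.eventually_ge_atTop (D * L₀), Ty.eventually_ge_atTop (2 ^ J),
    Ty.eventually_ge_atTop (4 * (2 * K) ^ (4 * R)), Ty.eventually_ge_atTop (12 * R),
    ((tendsto_natCast_atTop_atTop (R := ℝ)).comp Ty).eventually
      (ev_log 5 (r := 3) (c := ((2 * R) ^ 5)⁻¹) (by norm_num) (by positivity)),
    (Real.tendsto_log_atTop.comp tendsto_natCast_atTop_atTop).eventually_ge_atTop (D * L₀ + 1 : ℕ)]
    with X g1 g2 g3 g4 h2 h3 h hH hX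
  have y1 : Nat.nthRoot R X ^ R ≤ X := Nat.pow_nthRoot_le_iff.mpr (.inl R0)
  have y2 := Nat.lt_pow_nthRoot_add_one R0 X
  simp only [comp] at h2 h3
  generalize Nat.nthRoot R X = y at g1 g2 g3 g4 h2 y1 y2
  have y4 : 4 ≤ y := le_trans (by clear * - R0; omega) g4
  have y0 : 0 < y := lt_of_lt_of_le (by norm_num) y4
  have y3 : X ≤ y ^ (2 * R) := by
    rw [pow_mul]
    exact y2.le.trans (Nat.pow_le_pow_left (by nlinarith only [y4]) _)
  have yX : y ≤ X := (Nat.le_self_pow R0 y).trans y1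
  have Xr : (4 : ℝ) ≤ X := by exact_mod_cast y4.trans yX
  have l1 : 1 ≤ Real.log X := le_trans (by exact_mod_cast Nat.le_add_left 1 _) h3
  have hy4 : h ≤ y ^ (4 * R) := hX.trans (by
    rw [show 4 * R = 2 * R * 2 by ring, pow_mul]; exact Nat.pow_le_pow_left y3 _)
  have hl : Real.log X ≤ h := by
    refine (pow_le_pow_iff_left₀ (by positivity) (by positivity) three_ne_zero).mp (le_trans ?_ hH)
    exact pow_le_pow_right₀ l1 (by norm_num)
  obtain ⟨m, m1, m2, m3, m4, m5, m6⟩ : ∃ m : ℕ, m ≤ h ∧ m ≤ y ∧ Real.log X ^ 5 ≤ (m : ℝ) ^ 3 ∧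
      D * L₀ ≤ m ∧ h ≤ m ^ (4 * R) ∧ 1 ≤ m := by
    rcases le_total h y with h4 | h4
    · have : D * L₀ + 1 ≤ h := by exact_mod_cast h3.trans hl
      exact ⟨h, le_rfl, h4, hH, Nat.le_of_succ_le this, Nat.le_self_pow (by positivity) _,
        (Nat.le_add_left _ _).trans this⟩
    · refine ⟨y, h4, le_rfl, ?_, g1, hy4, y0⟩
      have : Real.log X ≤ 2 * R * Real.log y := by
        have := Real.log_le_log (by positivity) ((Nat.cast_le (α := ℝ)).mpr y3)
        rwa [Nat.cast_pow, Real.log_pow, Nat.cast_mul, Nat.cast_ofNat] at this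
      refine (pow_le_pow_left₀ (by positivity) this 5).trans ?_
      rw [inv_mul_eq_div, le_div_iff₀ (by positivity), Real.rpow_ofNat] at h2
      rwa [mul_pow, mul_comm]
  obtain ⟨⟨hS, L2⟩, L3⟩ := hL₀ (m / D) ((Nat.le_div_iff_mul_le D0).mpr (mul_comm D L₀ ▸ m4))
  have L4 : D * (m / D) ≤ m := Nat.mul_div_le _ _
  have L5 : m < D * (m / D + 1) := Nat.lt_mul_div_succ _ D0
  generalize m / D = L at hS L2 L3 L4 L5
  have L6 : 4 * L ≤ m := (Nat.mul_le_mul_right _ D4).trans L4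
  have L8 : 2 ≤ L := by clear * - L2 D4; omega
  have L7 : m ≤ 2 * D * L := by nlinarith only [L5, L8]
  have Lr : (2 : ℝ) ≤ L := by exact_mod_cast L8
  have hs : ∀ Q ⊆ PQ (X ^ 3), ∀ s d : ℕ, (∀ p ∈ Q, ¬ (p : ℕ) ∣ d) → ∀ a : Om,
      Ex Q (fun b => Real.exp (-sv (range L) (fun t => s + d * t) Q b / 16)) a ≤
        ((L : ℝ) ^ (A' + 1))⁻¹ := fun Q hQ => hS Q (by
    have a1 := hC ((X : ℝ) ^ 3) (by nlinarith only [Xr, sq_nonneg (X : ℝ)]) Q fun p hp => by
      exact_mod_cast mem_PQ.mp (hQ hp)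
    have a2 := Real.log_le_log (by positivity) m3
    have a3 := Real.log_le_log (by exact_mod_cast m6) ((Nat.cast_le (α := ℝ)).mpr L7)
    rw [Real.log_pow, Nat.cast_ofNat, Real.log_mul (by norm_num) (by positivity)] at a1
    rw [Real.log_pow, Real.log_pow] at a2
    rw [Nat.cast_mul, Real.log_mul (by positivity) (by positivity)] at a3
    push_cast at a2 a3
    linarith only [a1, a2, a3])
  have hβ : ∀ r ≤ 4 * R, Real.exp (9 + J / 8) * ((L : ℝ) ^ (A' + 1))⁻¹ ≤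
      (((h : ℝ) ^ A)⁻¹ / 2) ^ 2 ^ r := fun r hr => by
    refine le_trans ?_ (tau_le (n := 8 * R) (m6.trans m1) L8 (m5.trans ?_) hr)
    · rw [← hA', one_div_pow, pow_succ, mul_inv, one_div, mul_left_comm]
      exact mul_le_of_le_one_right (by positivity)
        (by rwa [← div_eq_mul_inv, div_le_one (by positivity)])
    · rw [show 8 * R = 2 * (4 * R) by ring, pow_mul L]
      exact Nat.pow_le_pow_left (L7.trans (sq L ▸ Nat.mul_le_mul_right _ L2)) _
  refine ⟨L, L6.trans m1, (Nat.le_mul_of_pos_left _ four_pos).trans (L6.trans (m2.trans yX)),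
    fun s a => ?_, fun u v s T E Φ a t1 t2 t3 t4 t5 t6 => ?_⟩
  · refine (Ex_mono fun b => ?_).trans ((hs _ subset_rfl s 1 (fun p _ => p.2.not_dvd_one) a).trans ?_)
    · split_ifs with a1
      · rw [sv, filter_false_of_mem fun t ht a2 => a1 t (mem_range.mp ht) fun p hp _ => by
          simpa using a2 p hp]
        simp
      · positivity
    · have a1 := hβ 0 (Nat.zero_le _)
      rw [pow_zero, pow_one] at a1
      exact (le_mul_of_one_le_left (by positivity) (Real.one_le_exp (by positivity))).trans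
        (a1.trans (half_le_self (by positivity)))
  have w1 : (y ^ 8) ^ B ≤ X := by
    rw [← pow_mul]
    exact (Nat.pow_le_pow_right y0 hR').trans y1
  have h0 : (1 : ℝ) ≤ h := by exact_mod_cast m6.trans m1
  refine (core K1 hJ.ge g2 g3 g4 y4 y3 hy4 (L6.trans m1) (hD ▸ L4.trans m2)
    (w1.trans (Nat.le_self_pow (by norm_num) _)) (Nat.le_self_pow (by clear * - B1; omega) _)
    (hB _ ((Nat.le_of_succ_le (Nat.le_of_succ_le y4)).trans (Nat.le_self_pow (by norm_num) _))) hs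
    (by positivity) ((half_le_self (by positivity)).trans (inv_le_one_of_one_le₀ (one_le_pow₀ h0)))
    (fun r hr => hK ▸ tau_le (m6.trans m1) (Nat.le_of_succ_le (Nat.le_of_succ_le y4)) hy4 hr) hβ a
    (fun p hp t ht => ?_) t1 (fun t ht => (t2 t ht).2) t3 t4 t5 t6).trans_eq (by ring)
  have a1 := Real.log_le_log (by exact_mod_cast p.2.pos) ((Nat.cast_le (α := ℝ)).mpr hp)
  have a2 := Real.log_le_log (by positivity)
    ((Nat.cast_le (α := ℝ)).mpr (y1.trans (t2 t (mem_union_left _ ht)).1))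
  simp only [Nat.cast_pow, Real.log_pow, Nat.cast_ofNat] at a1 a2
  nlinarith only [hC₁ p p.2.two_le, mul_le_mul_of_nonneg_left a1 C1.le, a2,
    mul_le_mul_of_nonneg_right hR (Real.log_natCast_nonneg y)]

end Pool.Agent.MP_00acf4_nt

end

-- part MP_00acf4_nt.Corr
section

/-!
Correlations of the signed reciprocal gaps at distant points are small.
-/

set_option autoImplicit false

namespace Pool.Agent.MP_00acf4_nt

open Finset Function
open scoped BigOperators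

open Classical in
/-- The reciprocal of the gap after `n`, if it is at most `l`. -/
noncomputable def G (l : ℕ) (r : ℕ → Prop) (n : ℕ) : ℝ :=
  if r n then ((sInf {j | 0 < j ∧ j ≤ l ∧ r (n + j)} : ℕ) : ℝ)⁻¹ else 0

/-- The signed reciprocal gap. -/
noncomputable def F (r : ℕ → Prop) (n : ℕ) : ℝ := (-1) ^ cnt r n * G n r n

open Classical in
/-- The indicator of a gap longer than `l` after `s`. -/
noncomputable def gap (l : ℕ) (r : ℕ → Prop) (s : ℕ) : ℝ :=
  if ∃ j, 0 < j ∧ j ≤ l ∧ r (s + j) then 0 else 1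

variable {l l' n : ℕ} {r r' : ℕ → Prop}

lemma gap_nonneg : 0 ≤ gap l r n := by unfold gap; split_ifs <;> norm_num

lemma G_nonneg : 0 ≤ G l r n := by unfold G; split_ifs <;> positivity

lemma G_le_one : G l r n ≤ 1 := by
  unfold G
  split_ifs
  exacts [Nat.cast_inv_le_one _, zero_le_one]

lemma abs_F : |F r n| = G n r n := by rw [F, abs_mul, abs_neg_one_pow, one_mul, abs_of_nonneg G_nonneg]

lemma F_sq : F r n ^ 2 = G n r n ^ 2 := by rw [← sq_abs, abs_F]

lemma G_congr (h : ∀ j ≤ l, r (n + j) ↔ r' (n + j)) : G l r n = G l r' n := by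
  classical
  refine if_congr (h 0 l.zero_le) ?_ rfl
  congr 3
  exact Set.ext fun j => and_congr_right fun _ => and_congr_right (h j)

lemma G_eq (h : l ≤ l') (hj : ∃ j, 0 < j ∧ j ≤ l ∧ r (n + j)) : G l r n = G l' r n := by
  have h1 := Nat.sInf_mem (s := {j | 0 < j ∧ j ≤ l ∧ r (n + j)}) hj
  have h2 := Nat.sInf_le (s := {j | 0 < j ∧ j ≤ l' ∧ r (n + j)}) ⟨h1.1, h1.2.1.trans h, h1.2.2⟩
  have h3 := Nat.sInf_mem (s := {j | 0 < j ∧ j ≤ l' ∧ r (n + j)}) ⟨_, h1.1, h1.2.1.trans h, h1.2.2⟩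
  rw [G, G, le_antisymm h2 (Nat.sInf_le ⟨h3.1, h2.trans h1.2.1, h3.2.2⟩)]

lemma G_cases (l : ℕ) (r : ℕ → Prop) (n : ℕ) :
    G l r n = 0 ∨ ∃ g : ℕ, 0 < g ∧ r n ∧ r (n + g) ∧ G l r n = (g : ℝ)⁻¹ := by
  by_cases h : r n
  · rcases Set.eq_empty_or_nonempty {j | 0 < j ∧ j ≤ l ∧ r (n + j)} with h1 | h1
    · exact .inl (by simp [G, h1])
    · exact .inr ⟨_, (Nat.sInf_mem h1).1, h, (Nat.sInf_mem h1).2.2, if_pos h⟩
  · exact .inl (if_neg h)

lemma le_G {g : ℕ} (h0 : 0 < g) (hg : g ≤ l) (h : r n) (h' : r (n + g)) : (g : ℝ)⁻¹ ≤ G l r n := by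
  have h1 := Nat.sInf_mem (s := {j | 0 < j ∧ j ≤ l ∧ r (n + j)}) ⟨g, h0, hg, h'⟩
  rw [G, if_pos h]
  exact inv_anti₀ (by exact_mod_cast h1.1)
    (Nat.cast_le.mpr (Nat.sInf_le (s := {j | 0 < j ∧ j ≤ l ∧ r (n + j)}) ⟨h0, hg, h'⟩))

open Classical in
lemma cnt_add {m : ℕ} (h : n ≤ m) : cnt r m = cnt r n + #((Ico n m).filter r) := by
  rw [cnt, cnt, Nat.count_eq_card_filter_range, Nat.count_eq_card_filter_range, range_eq_Ico,
    range_eq_Ico, ← Ico_union_Ico_eq_Ico n.zero_le h, filter_union,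
    card_union_of_disjoint (disjoint_filter_filter (Ico_disjoint_Ico_consecutive _ _ _))]

theorem corr : ∀ᶠ X : ℕ in Filter.atTop, ∀ h : ℕ, Real.log X ^ 5 ≤ (h : ℝ) ^ 3 → h ≤ X ^ 2 →
    (∃ l ≤ X, ∀ s, X ≤ s → s ≤ X ^ 2 → EE (X ^ 3) (gap l · s) ≤ ((h : ℝ) ^ 7)⁻¹) ∧
    ∀ n : Fin 4 → ℕ, Monotone n → X ≤ n 0 → n 3 ≤ X ^ 2 → h = max (n 1 - n 0) (n 3 - n 2) →
      ∀ Ψ : (Fin 4 → ℝ) → ℝ, (∀ x, (∀ i, 0 ≤ x i ∧ x i ≤ 1) → |Ψ x| ≤ 1) →
        |EE (X ^ 3) fun r => (-1) ^ (∑ i, cnt r (n i)) * Ψ fun i => G (n i) r (n i)| ≤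
          9 * ((h : ℝ) ^ 7)⁻¹ := by
  classical
  filter_upwards [bias 7, Filter.eventually_ge_atTop 8] with X hX X8 h hH hh
  obtain ⟨l, l1, l2, l3, l4⟩ := hX h hH hh
  have X3 : X ^ 2 + X ≤ X ^ 3 := by nlinarith
  have h4 : 3 < h := by
    refine lt_of_pow_lt_pow_left₀ 3 h.zero_le ((Nat.cast_lt (α := ℝ)).mp ?_)
    push_cast
    exact lt_of_lt_of_le (by norm_num) ((pow_le_pow_left₀ two_pos.le (two_le_log X8) 5).trans hH)
  have hg : ∀ s, X ≤ s → s ≤ X ^ 2 → EE (X ^ 3) (gap l · s) ≤ ((h : ℝ) ^ 7)⁻¹ := fun s s1 s2 => by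
    refine (Ex_mono fun b => ?_).trans (l3 (s + 1) 0)
    simp only [gap]
    split_ifs with a1 a2 a2
    exacts [zero_le_one, le_rfl, le_rfl, absurd (fun t ht a3 => a1 ⟨1 + t, by omega, by omega,
      (sifted_iff (by omega) (by omega) b).mpr (add_assoc s 1 t ▸ a3)⟩) a2]
  refine ⟨⟨l, l2, hg⟩, fun n hn n0 n3 he Ψ hΨ => ?_⟩
  have a0 : n 0 ≤ n 1 := hn (by decide)
  have a1 : n 1 ≤ n 2 := hn (by decide)
  have a2 : n 2 ≤ n 3 := hn (by decide)
  have a3 : ∀ i, X ≤ n i ∧ n i ≤ X ^ 2 := fun i =>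
    ⟨n0.trans (hn (Fin.zero_le i)), (hn (Fin.le_last i)).trans n3⟩
  set E := univ.biUnion fun i => Icc (n i) (n i + l) with hE
  have mE : ∀ t, t ∈ E ↔ ∃ i, n i ≤ t ∧ t ≤ n i + l := by simp [hE]
  set P := Ico (n 0) (n 1) ∪ Ico (n 2) (n 3) with hP
  have mP : ∀ t, t ∈ P ↔ n 0 ≤ t ∧ t < n 1 ∨ n 2 ≤ t ∧ t < n 3 := by simp [hP]
  have hG : ∀ l : Fin 4 → ℕ, ∀ r, |Ψ fun i => G (l i) r (n i)| ≤ 1 := fun _ _ =>
    hΨ _ fun _ => ⟨G_nonneg, G_le_one⟩
  obtain ⟨s, hs⟩ : ∃ s, ∀ t, 2 * t < h → s + t ∈ P \ E := by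
    have b1 : ∀ i, (n i ≤ n 0 ∨ n 1 ≤ n i) ∧ (n i ≤ n 2 ∨ n 3 ≤ n i) := fun i =>
      ⟨(by omega : i ≤ 0 ∨ 1 ≤ i).imp (hn ·) (hn ·), (by omega : i ≤ 2 ∨ 3 ≤ i).imp (hn ·) (hn ·)⟩
    simp only [mem_sdiff, mE, mP]
    rcases le_total (n 1 - n 0) (n 3 - n 2) with b | b
    exacts [⟨n 2 + l + 1, fun t ht => ⟨by omega, fun ⟨i, c⟩ => by have := b1 i; omega⟩⟩,
      ⟨n 0 + l + 1, fun t ht => ⟨by omega, fun ⟨i, c⟩ => by have := b1 i; omega⟩⟩]
  have hb : ∀ t ∈ P ∪ E, X ≤ t ∧ t ≤ X ^ 3 := fun t ht => by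
    rcases mem_union.mp ht with b | b
    · rw [mP] at b
      omega
    · obtain ⟨i, b⟩ := (mE t).mp b
      have := a3 i
      omega
  have h1 := l4 (n 0) (n 2) s (P \ E) E
    (fun S => (-1) ^ #(S ∩ P) * Ψ fun i => G l (· ∈ S) (n i)) 0 (fun t ht => by
      have := (mP t).mp (mem_sdiff.mp ht).1
      simp only [mem_union, mem_Ico]
      omega) (by rwa [sdiff_union_self_eq_union]) sdiff_disjoint
    ((card_biUnion_le_card_mul _ _ (l + 1) fun i _ => by rw [Nat.card_Icc]; omega).trans (by simp))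
    hs fun S => by rw [abs_mul, abs_neg_one_pow, one_mul]; exact hG (fun _ => l) _
  have h2 : Bx (PQ (X ^ 3)) (P \ E) E (fun S => (-1) ^ #(S ∩ P) * Ψ fun i => G l (· ∈ S) (n i)) 0 =
      EE (X ^ 3) fun r => (-1) ^ (∑ i, cnt r (n i)) * Ψ fun i => G l r (n i) := by
    refine Ex_congr fun b _ => ?_
    have b1 : ∀ t ∈ P ∪ E, (Surv (PQ (X ^ 3)) b t ↔ Sifted b t) := fun t ht =>
      (sifted_iff (X8.trans (hb t ht).1) (hb t ht).2 b).symm
    rw [← mul_assoc, ← pow_add]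
    congr 1
    · rw [Fin.sum_univ_four, cnt_add a0, cnt_add a2, ← card_union_of_disjoint (disjoint_left.mpr
        fun t h1 h2 => (mem_sdiff.mp (mem_sur.mp h1).1).2 (mem_sur.mp (mem_inter.mp h2).1).1)]
      have : sur (PQ (X ^ 3)) b (P \ E) ∪ sur (PQ (X ^ 3)) b E ∩ P = P.filter (Sifted b) := by
        ext t
        simp only [mem_union, mem_inter, mem_sur, mem_sdiff, mem_filter]
        by_cases c : t ∈ P
        · rw [b1 t (mem_union_left _ c)]; tauto
        · tauto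
      rw [this, hP, filter_union, card_union_of_disjoint (disjoint_filter_filter
        (disjoint_left.mpr fun t h1 h2 => by simp only [mem_Ico] at h1 h2; omega))]
      exact neg_one_pow_congr (by simp only [Nat.even_iff]; omega)
    · refine congrArg Ψ (funext fun i => G_congr fun j hj => ?_)
      have : n i + j ∈ E := (mE _).mpr ⟨i, by omega⟩
      rw [mem_sur, b1 _ (mem_union_right _ this), and_iff_right this]
  rw [h2] at h1
  have h3 : |EE (X ^ 3) fun r => (-1) ^ (∑ i, cnt r (n i)) * (Ψ fun i => G (n i) r (n i)) -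
      (-1) ^ (∑ i, cnt r (n i)) * Ψ fun i => G l r (n i)| ≤ 8 * ((h : ℝ) ^ 7)⁻¹ := by
    refine abs_EE_le.trans ((EE_mono (g := fun r => 2 * ∑ i, gap l r (n i)) fun b => ?_).trans ?_)
    · rw [← mul_sub, abs_mul, abs_neg_one_pow, one_mul]
      by_cases c : ∀ i, ∃ j, 0 < j ∧ j ≤ l ∧ Sifted b (n i + j)
      · rw [funext fun i => G_eq (l2.trans (a3 i).1) (c i), sub_self, abs_zero]
        exact mul_nonneg two_pos.le (sum_nonneg fun _ _ => gap_nonneg)
      · obtain ⟨i, c⟩ := not_forall.mp c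
        have c1 := single_le_sum (f := fun i => gap l (Sifted b) (n i)) (fun _ _ => gap_nonneg)
          (mem_univ i)
        rw [gap, if_neg c] at c1
        linarith [abs_sub (Ψ fun i => G (n i) (Sifted b) (n i)) (Ψ fun i => G l (Sifted b) (n i)),
          hG n (Sifted b), hG (fun _ => l) (Sifted b)]
    · rw [EE_mul, EE_sum]
      have := sum_le_card_nsmul univ _ _ fun i _ => hg (n i) (a3 i).1 (a3 i).2
      simp only [card_univ, Fintype.card_fin, nsmul_eq_mul, Nat.cast_ofNat] at this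
      linarith
  rw [EE_sub] at h3
  linarith [abs_sub_abs_le_abs_sub
    (EE (X ^ 3) fun r => (-1) ^ (∑ i, cnt r (n i)) * Ψ fun i => G (n i) r (n i))
    (EE (X ^ 3) fun r => (-1) ^ (∑ i, cnt r (n i)) * Ψ fun i => G l r (n i))]

end Pool.Agent.MP_00acf4_nt

end

-- part MP_00acf4_nt.Clus
section

/-!
Clusters of nearby survivors.
-/

set_option autoImplicit false

namespace Pool.Agent.MP_00acf4_nt

open Finset Function Pool.Agent.MP_a96b63_al
open scoped BigOperators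

lemma sum_inj_le {ι κ : Type*} {s : Finset ι} {t : Finset κ} {f : ι → ℝ} {g : κ → ℝ} (e : ι → κ)
    (he : Set.InjOn e s) (h1 : ∀ i ∈ s, e i ∈ t) (h2 : ∀ i ∈ s, f i ≤ g (e i)) (h3 : ∀ j, 0 ≤ g j) :
    ∑ i ∈ s, f i ≤ ∑ j ∈ t, g j := by
  classical
  refine (sum_le_sum h2).trans ?_
  rw [← sum_image he]
  exact sum_le_sum_of_subset_of_nonneg (image_subset_iff.mpr h1) fun j _ _ => h3 j

lemma tail_le {c : ℕ → ℝ} (c0 : ∀ n, 0 ≤ c n) {s e n : ℕ} (hn : s ≤ n) :
    ∑ i ∈ range (e - (n + 1)), c (n + (i + 1)) ≤ ∑ m ∈ Ico s e, c m :=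
  sum_inj_le (fun i => n + (i + 1)) (fun i _ j _ h => by simpa using h)
    (fun i hi => by have := mem_range.mp hi; exact mem_Ico.mpr (by omega)) (fun _ _ => le_rfl) c0

lemma two_scale {N s e D : ℕ} {c : ℕ → ℝ} (c0 : ∀ n, 0 ≤ c n) (hc : Antitone c)
    {Z : (ℕ → Prop) → ℕ → ℝ} {τ κ : ℝ} (Z0 : ∀ r n, 0 ≤ Z r n) (Z1 : ∀ r n, Z r n ≤ τ) (κ0 : 0 ≤ κ)
    {K : ℕ → ℝ} (hK : ∀ n i, s ≤ n → D ≤ i → n + (i + 1) < e →
      EE N (fun r => Z r n * Z r (n + (i + 1))) ≤ K i)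
    (hκ : ∀ k, ∑ i ∈ range k, (if D ≤ i then K i else 0) ≤ κ * k) :
    EE N (fun r => (∑ n ∈ Ico s e, c n * Z r n) ^ 2) ≤
      (2 * D + 1) * τ ^ 2 * ∑ n ∈ Ico s e, c n ^ 2 + 2 * κ * (∑ n ∈ Ico s e, c n) ^ 2 := by
  have h1 : ∀ n m, EE N (fun r => Z r n * Z r m) ≤ τ ^ 2 := fun n m => EE_le fun b =>
    sq τ ▸ mul_le_mul (Z1 _ _) (Z1 _ _) (Z0 _ _) ((Z0 (Sifted b) n).trans (Z1 _ _))
  simp only [sq_sum (fun n => c n * Z _ n)]
  rw [EE_sum, mul_sum, sq (∑ n ∈ Ico s e, c n), sum_mul, mul_sum, ← sum_add_distrib]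
  refine sum_le_sum fun n hn => ?_
  have hn' := (mem_Ico.mp hn).1
  simp only [mul_pow, mul_mul_mul_comm (c n) (Z _ n), sq (Z _ n)]
  rw [EE_add, EE_mul, EE_mul, EE_sum]
  have h2 := abel (f := fun i => if D ≤ i then K i else 0) (g := fun _ => κ)
    (u := fun i => c (n + (i + 1))) (e - (n + 1)) (fun i _ => hc (by omega)) (c0 _)
    fun k _ => by simpa [mul_comm] using hκ k
  rw [← mul_sum] at h2
  have h3 := mul_le_mul_of_nonneg_left (h2.trans (mul_le_mul_of_nonneg_left (tail_le c0 hn') κ0)) (c0 n)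
  have h4 : ∑ i ∈ range (e - (n + 1)), (if i ∈ range D then c n ^ 2 * τ ^ 2 else 0) ≤
      D * (c n ^ 2 * τ ^ 2) := by
    rw [sum_ite_mem, sum_const, nsmul_eq_mul]
    gcongr
    exact (card_le_card inter_subset_right).trans_eq (card_range _)
  have h5 := add_le_add h3 h4
  rw [mul_sum, ← sum_add_distrib] at h5
  have h6 := (sum_le_sum fun i hi => show EE N (fun r => c n * c (n + (i + 1)) *
      (Z r n * Z r (n + (i + 1)))) ≤ _ by
    rw [EE_mul]
    have a1 := mul_nonneg (c0 n) (c0 (n + (i + 1)))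
    by_cases a2 : D ≤ i
    · rw [if_pos a2, if_neg (by simpa using a2), add_zero, mul_comm (K i), ← mul_assoc]
      exact mul_le_mul_of_nonneg_left (hK n i hn' a2 (by have := mem_range.mp hi; omega)) a1
    · rw [if_neg a2, if_pos (by simpa using a2), zero_mul, mul_zero, zero_add, sq (c n)]
      exact mul_le_mul (mul_le_mul_of_nonneg_left (hc (by omega)) (c0 n)) (h1 _ _)
        (EE_nonneg fun r => mul_nonneg (Z0 _ _) (Z0 _ _)) (mul_nonneg (c0 n) (c0 n))).trans h5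
  nlinarith [mul_le_mul_of_nonneg_left (h1 n n) (sq_nonneg (c n))]

/-- Weights bounding the reciprocal gap. -/
noncomputable def om (H g : ℕ) : ℝ := if g = 0 then (H : ℝ)⁻¹ else (g : ℝ)⁻¹

lemma om_nonneg (H g : ℕ) : 0 ≤ om H g := by unfold om; split_ifs <;> positivity

lemma G_le {H : ℕ} (hH : 0 < H) (l : ℕ) (r : ℕ → Prop) (n : ℕ) :
    G l r n ≤ ∑ g ∈ range (H + 1), om H g * ind r {n, n + g} := by
  have h0 : ∀ g ∈ range (H + 1), 0 ≤ om H g * ind r {n, n + g} := fun g _ =>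
    mul_nonneg (om_nonneg _ _) (ind_nonneg _ _)
  rcases G_cases l r n with h | ⟨g, h1, h2, h3, h⟩ <;> rw [h]
  · exact sum_nonneg h0
  rcases le_total g H with h4 | h4
  · refine le_trans ?_ (single_le_sum h0 (mem_range.mpr (Nat.lt_succ_of_le h4)))
    rw [om, if_neg h1.ne', ind_of (by simp [h2, h3]), mul_one]
  · refine le_trans ?_ (single_le_sum h0 (mem_range.mpr (Nat.succ_pos H)))
    rw [om, if_pos rfl, ind_of (by simp [h2]), mul_one]
    exact inv_anti₀ (by exact_mod_cast hH) (by exact_mod_cast h4)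

/-- Products of reciprocal gaps at nearby points. -/
noncomputable def W (H : ℕ) (r : ℕ → Prop) (n : ℕ) : ℝ :=
  ∑ i ∈ range H, G n r n * G (n + (i + 1)) r (n + (i + 1))

lemma W_nonneg (H : ℕ) (r : ℕ → Prop) (n : ℕ) : 0 ≤ W H r n :=
  sum_nonneg fun _ _ => mul_nonneg G_nonneg G_nonneg

lemma W_le_H (H : ℕ) (r : ℕ → Prop) (n : ℕ) : W H r n ≤ H := by
  simpa [W] using sum_le_card_nsmul (range H) _ 1 fun i _ =>
    mul_le_one₀ (G_le_one (l := n) (n := n) (r := r)) G_nonneg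
      (G_le_one (l := n + (i + 1)) (n := n + (i + 1)) (r := r))

/-- A cluster of at most four points. -/
def cl (n : ℕ) (x : ℕ × ℕ × ℕ) : Finset ℕ := {n, n + x.2.1} ∪ {n + (x.1 + 1), n + (x.1 + 1) + x.2.2}

/-- The index set of the clusters. -/
def ci (H : ℕ) : Finset (ℕ × ℕ × ℕ) := range H ×ˢ range (H + 1) ×ˢ range (H + 1)

lemma cl_mem {H n t : ℕ} {x : ℕ × ℕ × ℕ} (hx : x ∈ ci H) (ht : t ∈ cl n x) :
    n ≤ t ∧ t ≤ n + 2 * H := by
  simp only [ci, cl, mem_product, mem_range, mem_union, mem_insert, mem_singleton] at hx ht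
  omega

lemma cl_card (n : ℕ) (x : ℕ × ℕ × ℕ) : #(cl n x) ≤ 4 :=
  (card_union_le _ _).trans (add_le_add card_le_two card_le_two)

lemma W_le {H : ℕ} (hH : 0 < H) (r : ℕ → Prop) (n : ℕ) :
    W H r n ≤ ∑ x ∈ ci H, om H x.2.1 * om H x.2.2 * ind r (cl n x) := by
  rw [ci, sum_product]
  refine sum_le_sum fun i _ => (mul_le_mul (G_le hH _ _ _) (G_le hH _ _ _) G_nonneg
    (sum_nonneg fun _ _ => mul_nonneg (om_nonneg _ _) (ind_nonneg _ _))).trans_eq ?_
  rw [sum_mul_sum, sum_product]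
  simp only [cl, ← ind_mul, mul_mul_mul_comm]

/-- The total weight of the clusters. -/
noncomputable def sig (H : ℕ) (v : ℝ) : ℝ :=
  v ^ 2 * (((H : ℝ)⁻¹ + (1 + Real.log H) * v) * (1 + (1 + Real.log H) * (H * v + 2)))

lemma harm_le (H : ℕ) : ∑ g ∈ range H, ((g + 1 : ℕ) : ℝ)⁻¹ ≤ 1 + Real.log H := by
  have := harmonic_le_one_add_log H
  rw [harmonic] at this
  push_cast at this ⊢
  exact this

lemma sig_le {H : ℕ} (hH : 0 < H) {v : ℝ} (v0 : 0 ≤ v) (v1 : v ≤ 1) (n : ℕ) :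
    ∑ x ∈ ci H, om H x.2.1 * om H x.2.2 * v ^ #(cl n x) ≤ sig H v := by
  have h1 : ∀ i g g' : ℕ, v ^ #(cl n (i, g, g')) ≤ v ^ 2 * ((if g' = 0 then 1 else v) *
      if g = 0 then 1 else v + (if i = g - 1 then 1 else 0) +
        if i = g - 1 - g' then 1 else 0) := fun i g g' => by
    have a1 : 2 + ((if g' = 0 then 0 else 1) + if g = 0 ∨ g = i + 1 ∨ g = i + 1 + g' then 0 else 1) ≤
        #(cl n (i, g, g')) := by
      simp only [cl, insert_union, singleton_union, card_insert_eq_ite, mem_insert, mem_singleton,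
        card_singleton]
      split_ifs <;> omega
    refine (pow_le_pow_of_le_one v0 v1 a1).trans ?_
    rw [pow_add, pow_add]
    gcongr
    · split_ifs <;> simp
    · split_ifs <;> first | omega | (simp only [pow_zero, pow_one]; linarith)
  have h2 : ∑ g ∈ range (H + 1), om H g * (if g = 0 then 1 else v) ≤
      (H : ℝ)⁻¹ + (1 + Real.log H) * v := by
    rw [sum_range_succ', add_comm]
    simp only [om, Nat.succ_ne_zero, if_false, if_true, mul_one, ← sum_mul]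
    gcongr
    exact harm_le H
  have h3 : ∑ g ∈ range (H + 1), om H g * (if g = 0 then (H : ℝ) else H * v + 2) ≤
      1 + (1 + Real.log H) * (H * v + 2) := by
    rw [sum_range_succ', add_comm]
    simp only [om, Nat.succ_ne_zero, if_false, if_true, ← sum_mul]
    rw [inv_mul_cancel₀ (by positivity)]
    gcongr
    exact harm_le H
  refine le_trans ?_ (mul_le_mul_of_nonneg_left (mul_le_mul h2 h3 (sum_nonneg fun g _ =>
    mul_nonneg (om_nonneg _ _) (by split_ifs <;> positivity)) (by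
      have := Real.log_natCast_nonneg H
      positivity)) (sq_nonneg v))
  rw [ci, sum_product_right, sum_product_right, sum_mul_sum, mul_sum]
  refine sum_le_sum fun g' _ => ?_
  rw [mul_sum]
  refine sum_le_sum fun g _ => ?_
  refine (sum_le_sum fun i _ => mul_le_mul_of_nonneg_left (h1 i g g')
    (mul_nonneg (om_nonneg _ _) (om_nonneg _ _))).trans ?_
  dsimp only
  rw [← mul_sum, ← mul_sum, ← mul_sum]
  have h4 : ∑ i ∈ range H, (if g = 0 then 1 else v + (if i = g - 1 then 1 else 0) +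
      if i = g - 1 - g' then 1 else 0) ≤ if g = 0 then (H : ℝ) else H * v + 2 := by
    split_ifs
    · simp
    · simp only [sum_add_distrib, sum_const, card_range, nsmul_eq_mul, sum_ite_eq']
      split_ifs <;> linarith
  have h5 : 0 ≤ om H g * om H g' * (v ^ 2 * if g' = 0 then 1 else v) :=
    mul_nonneg (mul_nonneg (om_nonneg _ _) (om_nonneg _ _)) (by split_ifs <;> positivity)
  linarith [mul_le_mul_of_nonneg_left h4 h5]

variable {N X H : ℕ} {v : ℝ}

lemma EE_W (hH : 0 < H) (v0 : 0 ≤ v) (v1 : v ≤ 1)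
    (hv : ∀ B : Finset ℕ, (∀ t ∈ B, X ≤ t ∧ t ≤ N) → #B ≤ 8 → EE N (ind · B) ≤ v ^ #B) {n : ℕ}
    (h1 : X ≤ n) (h2 : n + 2 * H ≤ N) : EE N (W H · n) ≤ sig H v := by
  refine (EE_mono (g := fun r => ∑ x ∈ ci H, om H x.2.1 * om H x.2.2 * ind r (cl n x))
    fun b => W_le hH _ n).trans (le_trans ?_ (sig_le hH v0 v1 n))
  rw [EE_sum]
  refine sum_le_sum fun x hx => (EE_mul _ _).trans_le (mul_le_mul_of_nonneg_left
    (hv _ (fun t ht => ?_) ((cl_card n x).trans (by norm_num)))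
    (mul_nonneg (om_nonneg _ _) (om_nonneg _ _)))
  have := cl_mem hx ht
  omega

lemma EE_WW (hH : 0 < H) (v0 : 0 ≤ v) (v1 : v ≤ 1)
    (hv : ∀ B : Finset ℕ, (∀ t ∈ B, X ≤ t ∧ t ≤ N) → #B ≤ 8 → EE N (ind · B) ≤ v ^ #B) {n m : ℕ}
    (h1 : X ≤ n) (h2 : n + 2 * H < m) (h3 : m + 2 * H ≤ N) :
    EE N (fun r => W H r n * W H r m) ≤ sig H v ^ 2 := by
  have h0 : ∀ x : ℕ × ℕ × ℕ, 0 ≤ om H x.2.1 * om H x.2.2 := fun x =>
    mul_nonneg (om_nonneg _ _) (om_nonneg _ _)
  have h4 : 0 ≤ ∑ x ∈ ci H, om H x.2.1 * om H x.2.2 * v ^ #(cl m x) :=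
    sum_nonneg fun x _ => mul_nonneg (h0 x) (by positivity)
  refine (EE_mono (g := fun r => ∑ x ∈ ci H, ∑ y ∈ ci H, om H x.2.1 * om H x.2.2 *
    (om H y.2.1 * om H y.2.2) * ind r (cl n x ∪ cl m y)) fun b => (mul_le_mul (W_le hH _ n)
      (W_le hH _ m) (W_nonneg _ _ _) (sum_nonneg fun x _ => mul_nonneg (h0 x)
        (ind_nonneg _ _))).trans_eq ?_).trans (le_trans ?_ (sq (sig H v) ▸ mul_le_mul
          (sig_le hH v0 v1 n) (sig_le hH v0 v1 m) h4 (h4.trans (sig_le hH v0 v1 m))))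
  · simp only [sum_mul_sum, ← ind_mul, mul_mul_mul_comm (om H _ * om H _)]
  · rw [EE_sum, sum_mul_sum]
    refine sum_le_sum fun x hx => ?_
    rw [EE_sum]
    refine sum_le_sum fun y hy => ?_
    rw [EE_mul, mul_mul_mul_comm _ (v ^ _), ← pow_add, ← card_union_of_disjoint
      (disjoint_left.mpr fun t a1 a2 => by have := cl_mem hx a1; have := cl_mem hy a2; omega)]
    refine mul_le_mul_of_nonneg_left (hv _ (fun t ht => ?_) ((card_union_le _ _).trans
      (add_le_add (cl_card _ _) (cl_card _ _)))) (mul_nonneg (h0 x) (h0 y))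
    rcases mem_union.mp ht with a | a
    · have := cl_mem hx a; omega
    · have := cl_mem hy a; omega

end Pool.Agent.MP_00acf4_nt

end
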