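import Pool.Agent.MP_00acf4_nt.Mg.AS

-- part MP_00acf4_nt.Det
section

/-!
Deterministic consequences of the almost sure properties.
-/

set_option autoImplicit false

namespace Pool.Agent.MP_00acf4_nt

open Finset Function Filter Topology
open scoped BigOperators

/-- Convergence of the partial sums. -/
def Conv (c : ℕ → ℝ) : Prop := ∃ L, Tendsto (fun N => ∑ n ∈ range N, c n) atTop (𝓝 L)

lemma abel_abs {f w : ℕ → ℝ} {s B : ℕ} {m : ℝ} (hw : Antitone w)
    (h : ∀ k ≤ B, |∑ n ∈ Ico s (s + k), f n| ≤ m) : |∑ n ∈ Ico s (s + B), f n * w n -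
      (∑ n ∈ Ico s (s + B), f n) * w (s + B)| ≤ m * (w s - w (s + B)) := by
  simp only [sum_Ico_eq_sum_range, add_tsub_cancel_left] at h ⊢
  have h1 := abel' (f := fun i => f (s + i)) (u := fun i => w (s + i)) B (fun i _ => hw (by omega))
    fun k hk => (abs_le.mp (h k hk)).2
  have h2 := abel' (f := fun i => -f (s + i)) (u := fun i => w (s + i)) (m := m) B
    (fun i _ => hw (by omega)) fun k hk => by rw [sum_neg_distrib]; linarith [(abs_le.mp (h k hk)).1]
  simp only [neg_mul, sum_neg_distrib, add_zero] at h1 h2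
  exact abs_le.mpr ⟨by linarith, by linarith⟩

lemma dyad {c ρ : ℕ → ℝ} (hρ : Summable ρ)
    (h : ∀ᶠ i in atTop, |∑ n ∈ Ico (2 ^ i) (2 ^ i + 2 ^ i), c n| ≤ ρ i) :
    ∃ L, Tendsto (fun i => ∑ n ∈ range (2 ^ i), c n) atTop (𝓝 L) := by
  refine cauchySeq_tendsto_of_complete (cauchySeq_of_summable_dist
    (hρ.of_norm_bounded_eventually_nat (h.mono fun i hi => ?_)))
  rwa [Real.norm_of_nonneg dist_nonneg, dist_comm, Real.dist_eq, pow_succ, mul_two,
    ← sum_Ico_eq_sub _ (Nat.le_add_right _ _)]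

lemma conv_of_dyad {c ρ : ℕ → ℝ} (hρ : Summable ρ)
    (h : ∀ᶠ i in atTop, ∀ t ≤ 2 ^ i, |∑ n ∈ Ico (2 ^ i) (2 ^ i + t), c n| ≤ ρ i) : Conv c := by
  obtain ⟨L, hL⟩ := dyad hρ (h.mono fun i hi => hi _ le_rfl)
  have T : Tendsto (Nat.log 2) atTop atTop := tendsto_atTop.2 fun b =>
    (eventually_ge_atTop (2 ^ b)).mono fun n => Nat.le_log_of_pow_le one_lt_two
  have h1 := (hL.comp T).add (squeeze_zero_norm' (f := fun N => ∑ n ∈ range N, c n -
    ∑ n ∈ range (2 ^ Nat.log 2 N), c n) ?_ (hρ.tendsto_atTop_zero.comp T))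
  · exact ⟨_, h1.congr fun N => by simp⟩
  filter_upwards [T.eventually h, eventually_ne_atTop 0] with N h1 h2
  have a1 := Nat.pow_log_le_self 2 h2
  have a2 := Nat.lt_pow_succ_log_self one_lt_two N
  have a3 := h1 (N - 2 ^ Nat.log 2 N) (by omega)
  rwa [Nat.add_sub_cancel' a1, sum_Ico_eq_sub _ a1] at a3

lemma tail {c : ℕ → ℝ} {L : ℝ} (h : Tendsto (fun i => ∑ n ∈ range (2 ^ i), c n) atTop (𝓝 L)) :
    Tendsto (fun j => ∑ n ∈ Ico (2 ^ j) ((2 ^ j) ^ 2), c n) atTop (𝓝 0) := by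
  have := (h.comp (tendsto_id.atTop_mul_const' two_pos)).sub h
  rw [sub_self] at this
  refine this.congr fun j => ?_
  rw [sum_Ico_eq_sub _ (Nat.le_self_pow two_ne_zero _), ← pow_mul]
  rfl

lemma blocks (g : ℕ → ℝ) (a B n : ℕ) : ∑ t ∈ Ico a (a + n * B), g t =
    ∑ b ∈ range n, ∑ t ∈ Ico (a + b * B) (a + b * B + B), g t := by
  induction n with
  | zero => simp
  | succ n ih =>
    rw [sum_range_succ, ← ih, sum_Ico_consecutive _ (Nat.le_add_right _ _) (Nat.le_add_right _ _),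
      add_mul, one_mul, add_assoc]

lemma inv_sqrt_sub {x y s d : ℝ} (hs : 0 < s) (hx : s ^ 2 ≤ x) (hy : s ^ 2 ≤ y) (h : |x - y| ≤ d) :
    |(√x)⁻¹ - (√y)⁻¹| ≤ d / s ^ 3 := by
  have h1 := Real.le_sqrt_of_sq_le hx
  have h2 := Real.le_sqrt_of_sq_le hy
  rw [← Real.sq_sqrt ((sq_nonneg s).trans hx), ← Real.sq_sqrt ((sq_nonneg s).trans hy), sq_sub_sq,
    abs_mul, abs_of_pos (by linarith)] at h
  generalize √x = a at *
  generalize √y = b at *
  have a0 := hs.trans_le h1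
  have b0 := hs.trans_le h2
  rw [inv_sub_inv a0.ne' b0.ne', abs_div, abs_of_pos (mul_pos a0 b0), abs_sub_comm,
    div_le_div_iff₀ (mul_pos a0 b0) (by positivity)]
  have h3 := abs_nonneg (a - b)
  calc _ = s * |a - b| * (s * s) := by ring
    _ ≤ (a + b) * |a - b| * (a * b) := by gcongr; linarith
    _ ≤ _ := mul_le_mul_of_nonneg_right h (mul_pos a0 b0).le

lemma cnt_mono (r : ℕ → Prop) : Monotone (cnt r) := fun _ _ h => cnt_add h ▸ Nat.le_add_right _ _

lemma cnt_le (r : ℕ → Prop) (s B : ℕ) : cnt r (s + B) ≤ cnt r s + B := by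
  classical
  rw [cnt_add (Nat.le_add_right s B)]
  exact Nat.add_le_add_left ((card_filter_le _ _).trans_eq (by simp)) _

lemma MM_add_le {s : ℕ} (hs : 8 ≤ s) (B : ℕ) : MM (s + B) ≤ MM s + B := by
  induction B with
  | zero => simp
  | succ B ih =>
    rw [← add_assoc, MM_succ (by omega), Nat.cast_succ]
    linarith [V_le_one (s + B)]

lemma rt_sq (i : ℕ) : (√2 ^ i) ^ 2 = (2 : ℝ) ^ i := by
  rw [← pow_mul, mul_comm, pow_mul, Real.sq_sqrt two_pos.le]

lemma MM_ge {i : ℕ} (hi : 5 ≤ i) : (2 : ℝ) ^ i / i ≤ MM (2 ^ i) := by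
  have h1 : 2 ^ 5 ≤ 2 ^ i := Nat.pow_le_pow_right two_pos hi
  have h2 : (2 : ℝ) ^ 5 ≤ 2 ^ i := by exact_mod_cast h1
  have i0 : (5 : ℝ) ≤ i := by exact_mod_cast hi
  refine le_trans ?_ (le_MM (by omega))
  have := Real.log_two_gt_d9
  rw [Nat.cast_pow, Real.log_pow, Nat.cast_ofNat, div_le_div_iff₀ (by linarith) (by positivity),
    mul_left_comm, mul_comm _ (i : ℝ)]
  gcongr
  nlinarith [Real.log_two_lt_d9]

lemma Good.lower {r : ℕ → Prop} (h : Good r) :
    ∀ᶠ i : ℕ in atTop, 5 ≤ i ∧ (2 : ℝ) ^ i / (2 * i) ≤ cnt r (2 ^ i) := by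
  filter_upwards [h.2, eventually_ge_atTop 5, (tendsto_self_mul_const_pow_of_lt_one (r := 7 / 8)
    (by norm_num) (by norm_num)).eventually_le_const (by norm_num : (0 : ℝ) < 1 / 4)] with i h1 h2 h3
  have a1 := (abs_le.mp (h1.2 0 (Nat.zero_le _))).1
  have i0 : (5 : ℝ) ≤ i := by exact_mod_cast h2
  have a2 : (2 : ℝ) ^ (i - i / 4) ≤ 2 ^ i / (2 * i) := by
    rw [pow_sub₀ _ two_ne_zero (Nat.div_le_self _ _), le_div_iff₀ (by linarith), mul_assoc]
    refine mul_le_of_le_one_right (by positivity) ?_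
    nlinarith [inv_two_le i]
  have a3 : (2 : ℝ) ^ i / i = 2 ^ i / (2 * i) + 2 ^ i / (2 * i) := by field_simp; norm_num
  rw [zero_mul, add_zero] at a1
  exact ⟨h2, by linarith [MM_ge h2]⟩

lemma Good.conv {r : ℕ → Prop} (h : Good r) {θ : ℝ} (h1 : 1 / 2 < θ) (h2 : θ ≤ 1) :
    Conv fun n => F r n * (((cnt r n : ℝ) + 1) ^ θ)⁻¹ := by
  have g1 : √2 / 2 ^ θ < 1 := by
    rw [div_lt_one (by positivity), Real.sqrt_eq_rpow]
    exact Real.rpow_lt_rpow_of_exponent_lt one_lt_two h1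
  refine conv_of_dyad ((summable_pow_mul_geometric_of_norm_lt_one 4 (r := √2 / 2 ^ θ)
    (by rwa [Real.norm_of_nonneg (by positivity)])).mul_left 16) ?_
  filter_upwards [h.2, h.lower] with i ⟨a1, _⟩ ⟨a2, a3⟩ t ht
  have i0 : (5 : ℝ) ≤ i := by exact_mod_cast a2
  have b1 : ∀ k ≤ t, |∑ n ∈ Ico (2 ^ i) (2 ^ i + k), F r n| ≤ (2 * i) ^ 3 * √2 ^ i := fun k hk => by
    refine abs_le.mpr (abs_le_of_sq_le_sq' ((QQ_max _ i _ k (hk.trans ht)).trans ?_) (by positivity))
    rw [mul_pow, rt_sq]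
    calc _ ≤ (64 * (i : ℝ)) * (i ^ 5 * 2 ^ i) := by
          gcongr
          · exact QQ_nonneg _ _ _
          · linarith
      _ = _ := by ring
  set w : ℕ → ℝ := fun n => (((cnt r n : ℝ) + 1) ^ θ)⁻¹ with hw
  have w0 : ∀ n, 0 ≤ w n := fun n => by positivity
  have b2 := abel_abs (w := w) (fun m n hmn => inv_anti₀ (by positivity) (by
    gcongr; exact cnt_mono r hmn)) b1
  have b3 := mul_le_mul_of_nonneg_right (b1 t le_rfl) (w0 (2 ^ i + t))
  have b4 : w (2 ^ i) ≤ 2 * i / (2 ^ θ) ^ i := by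
    refine (inv_anti₀ (by positivity) (Real.rpow_le_rpow (by positivity)
      (a3.trans (le_add_of_nonneg_right zero_le_one)) (by linarith))).trans ?_
    rw [Real.div_rpow (by positivity) (by positivity), inv_div, ← Real.rpow_pow_comm two_pos.le]
    gcongr
    exact Real.rpow_le_self_of_one_le (by linarith) h2
  rw [← abs_of_nonneg (w0 (2 ^ i + t)), ← abs_mul, abs_of_nonneg (w0 (2 ^ i + t))] at b3
  calc _ ≤ (2 * i) ^ 3 * √2 ^ i * w (2 ^ i) := by
        linarith [abs_sub_abs_le_abs_sub (∑ n ∈ Ico (2 ^ i) (2 ^ i + t), F r n * w n)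
          ((∑ n ∈ Ico (2 ^ i) (2 ^ i + t), F r n) * w (2 ^ i + t))]
    _ ≤ (2 * i) ^ 3 * √2 ^ i * (2 * i / (2 ^ θ) ^ i) := by gcongr
    _ = _ := by rw [div_pow]; ring

lemma Good.diff {r : ℕ → Prop} (h : Good r) : ∃ L, Tendsto (fun i => ∑ n ∈ range (2 ^ i),
    F r n * ((√(cnt r n + 1))⁻¹ - ph n)) atTop (𝓝 L) := by
  refine dyad ((summable_pow_mul_geometric_of_norm_lt_one 6 (r := (15 / 16 : ℝ))
    (by rw [Real.norm_of_nonneg] <;> norm_num)).mul_left 384) ?_
  filter_upwards [h.2, h.lower] with i ⟨a1, a4⟩ ⟨a2, a3⟩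
  have i0 : (5 : ℝ) ≤ i := by exact_mod_cast a2
  have e1 : 2 ^ i = 2 ^ (i / 4) * 2 ^ (i - i / 4) := by rw [← pow_add]; congr 1; omega
  set m : ℕ → ℝ := fun b => √((i - i / 4 + 1 : ℕ) * QQ (F r) (i - i / 4) (2 ^ i + b * 2 ^ (i - i / 4)))
    with hm
  set δ : ℝ := 2 ^ (i - i / 4) / (√2 ^ i / (2 * i)) ^ 3 with hδ
  have s0 : 0 < √2 ^ i / (2 * i) := by positivity
  have s1 : (√2 ^ i / (2 * i)) ^ 2 ≤ 2 ^ i / (2 * i) := by
    rw [div_pow, rt_sq]
    gcongr
    nlinarith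
  have s2 : ∀ n, 2 ^ i ≤ n → (√2 ^ i / (2 * i)) ^ 2 ≤ cnt r n + 1 := fun n hn => by
    linarith [(Nat.cast_le (α := ℝ)).mpr (cnt_mono r hn)]
  have s3 : ∀ n, 2 ^ i ≤ n → (√2 ^ i / (2 * i)) ^ 2 ≤ MM n + 1 := fun n hn => by
    have : (2 : ℝ) ^ i / (2 * i) ≤ 2 ^ i / i := by gcongr; linarith
    linarith [MM_mono hn, MM_ge a2]
  have b1 : ∀ b ∈ range (2 ^ (i / 4)), |∑ n ∈ Ico (2 ^ i + b * 2 ^ (i - i / 4))
      (2 ^ i + b * 2 ^ (i - i / 4) + 2 ^ (i - i / 4)), F r n * ((√(cnt r n + 1))⁻¹ - ph n)| ≤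
      m b * (3 * δ) := fun b hb => by
    have c0 := a4 (b + 1) (mem_range.mp hb)
    rw [add_mul, one_mul, ← add_assoc] at c0
    have c1 : ∀ k ≤ 2 ^ (i - i / 4), |∑ n ∈ Ico (2 ^ i + b * 2 ^ (i - i / 4))
        (2 ^ i + b * 2 ^ (i - i / 4) + k), F r n| ≤ m b := fun k hk =>
      Real.abs_le_sqrt (by push_cast; exact QQ_max _ _ _ k hk)
    have c2 : 2 ^ i ≤ 2 ^ i + b * 2 ^ (i - i / 4) := Nat.le_add_right _ _
    have c8 : 2 ^ 3 ≤ 2 ^ i := Nat.pow_le_pow_right two_pos (by omega)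
    have m0 : 0 ≤ m b := Real.sqrt_nonneg _
    generalize 2 ^ i + b * 2 ^ (i - i / 4) = s at c0 c1 c2
    have c3 := c2.trans (Nat.le_add_right s (2 ^ (i - i / 4)))
    have d1 := abel_abs (w := fun n => (√(cnt r n + 1))⁻¹) (fun m n hmn => inv_anti₀ (by positivity)
      (by gcongr; exact cnt_mono r hmn)) c1
    have d2 := abel_abs ph_anti c1
    have d3 := mul_le_mul (c1 _ le_rfl) (inv_sqrt_sub s0 (s2 _ c3) (s3 _ c3)
      (d := 2 ^ (i - i / 4)) (by rwa [add_sub_add_right_eq_sub])) (abs_nonneg _) m0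
    have d4 := mul_le_mul_of_nonneg_left ((le_abs_self _).trans (inv_sqrt_sub s0 (s2 _ c2) (s2 _ c3)
      (d := 2 ^ (i - i / 4)) (by
        have := (Nat.cast_le (α := ℝ)).mpr (cnt_le r s (2 ^ (i - i / 4)))
        have := (Nat.cast_le (α := ℝ)).mpr (cnt_mono r (Nat.le_add_right s (2 ^ (i - i / 4))))
        push_cast at *
        exact abs_le.mpr ⟨by linarith, by linarith [(by positivity : (0 : ℝ) ≤ 2 ^ (i - i / 4))]⟩))) m0
    have d5 := mul_le_mul_of_nonneg_left ((le_abs_self _).trans (inv_sqrt_sub s0 (s3 _ c2) (s3 _ c3)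
      (d := 2 ^ (i - i / 4)) (by
        have := MM_add_le (c8.trans c2) (2 ^ (i - i / 4))
        have := MM_mono (Nat.le_add_right s (2 ^ (i - i / 4)))
        push_cast at *
        exact abs_le.mpr ⟨by linarith, by linarith [(by positivity : (0 : ℝ) ≤ 2 ^ (i - i / 4))]⟩))) m0
    rw [← abs_mul, abs_le] at d3
    rw [abs_le] at d1 d2 ⊢
    simp only [mul_sub, sum_sub_distrib, ph, ← hδ] at d1 d2 d3 d4 d5 ⊢
    constructor <;> linarith [d1.1, d1.2, d2.1, d2.2, d3.1, d3.2]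
  have b2 : ∑ b ∈ range (2 ^ (i / 4)), m b ≤ (2 * i) ^ 3 * √2 ^ (i / 4) * √2 ^ i := by
    refine (abs_le_of_sq_le_sq' (sq_sum_le_card_mul_sum_sq.trans ?_) (by positivity)).2
    have c1 := QQ_split (F r) (i - i / 4) (i / 4) (2 ^ i)
    rw [Nat.sub_add_cancel (Nat.div_le_self _ _)] at c1
    simp only [hm, Real.sq_sqrt (mul_nonneg (Nat.cast_nonneg _) (QQ_nonneg _ _ _))]
    rw [← mul_sum, mul_pow, mul_pow, rt_sq, rt_sq, card_range]
    have c2 : ((i - i / 4 + 1 : ℕ) : ℝ) ≤ 64 * i := by exact_mod_cast by omega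
    calc _ ≤ ((2 ^ (i / 4) : ℕ) : ℝ) * ((64 * (i : ℝ)) * (i ^ 5 * 2 ^ i)) := by
          gcongr
          · exact sum_nonneg fun _ _ => QQ_nonneg _ _ _
          · exact c1.trans a1
      _ = _ := by push_cast; ring
  have b3 : (√2 ^ (i / 4))⁻¹ ≤ 2 * (15 / 16) ^ i := by
    refine (abs_le_of_sq_le_sq' ?_ (by positivity)).2
    rw [inv_pow, rt_sq, mul_pow, ← pow_mul, mul_comm i, pow_mul]
    refine (inv_two_le i).trans ?_
    gcongr <;> norm_num
  nth_rewrite 3 [e1]
  rw [blocks]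
  refine (abs_sum_le_sum_abs _ _).trans ((sum_le_sum b1).trans ?_)
  rw [← sum_mul]
  calc _ ≤ (2 * i) ^ 3 * √2 ^ (i / 4) * √2 ^ i * (3 * δ) := by gcongr
    _ = 192 * i ^ 6 * (√2 ^ (i / 4))⁻¹ := by
        rw [hδ, pow_sub₀ _ two_ne_zero (Nat.div_le_self _ _), ← rt_sq i, ← rt_sq (i / 4)]
        field_simp
        norm_num
    _ ≤ 192 * i ^ 6 * (2 * (15 / 16) ^ i) := by gcongr
    _ = _ := by ring

end Pool.Agent.MP_00acf4_nt

end

-- part MP_00acf4_nt.Link
section

/-!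
From sums over integers to the series over the elements of the set.
-/

set_option autoImplicit false

namespace Pool.Agent.MP_00acf4_nt

open Finset Function Filter Topology
open scoped BigOperators

/-- The terms of the series. -/
noncomputable def term (r : ℕ → Prop) (θ : ℝ) (k : ℕ) : ℝ :=
  (-1) ^ (k + 1) / (((k : ℝ) + 1) ^ θ * ((Nat.nth r (k + 1) : ℝ) - Nat.nth r k))

variable {r : ℕ → Prop}

lemma conv_congr {c c' : ℕ → ℝ} (h : ∀ᶠ n in atTop, c n = -c' n) (h' : Conv c') : Conv c := by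
  obtain ⟨L, hL⟩ := h'
  have : Summable fun n => c n + c' n :=
    summable_zero.of_norm_bounded_eventually_nat (h.mono fun n hn => by simp [hn])
  exact ⟨_, (this.hasSum.tendsto_sum_nat.sub hL).congr fun N => by simp [sum_add_distrib]⟩

open Classical in
lemma conv_iff (hr : {n | r n}.Infinite) (b : ℕ → ℝ) :
    Conv b ↔ Conv fun n => if r n then b (cnt r n) else 0 := by
  have key : ∀ N, ∑ n ∈ range N, (if r n then b (cnt r n) else 0) = ∑ k ∈ range (cnt r N), b k := by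
    intro N
    induction N with
    | zero => simp [cnt]
    | succ N ih =>
      rw [sum_range_succ, ih, cnt, cnt, Nat.count_succ]
      split_ifs <;> simp [sum_range_succ]
  have e : ∀ k, cnt r (Nat.nth r k) = k := Nat.count_nth_of_infinite hr
  simp only [Conv, key]
  refine exists_congr fun L => ⟨fun h => h.comp (tendsto_atTop_atTop_of_monotone (cnt_mono r)
    fun k => ⟨_, (e k).ge⟩), fun h => ?_⟩
  simpa only [comp_def, e] using h.comp (Nat.nth_strictMono hr).tendsto_atTop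

open Classical in
lemma term_eq (θ : ℝ) {n : ℕ} (h : ∃ j, 0 < j ∧ j ≤ n ∧ r (n + j)) :
    (if r n then term r θ (cnt r n) else 0) = -(F r n * (((cnt r n : ℝ) + 1) ^ θ)⁻¹) := by
  rw [F, G]
  split_ifs with h1
  · have h2 := Nat.sInf_mem (s := {j | 0 < j ∧ j ≤ n ∧ r (n + j)}) h
    have h3 : ∀ j < sInf {j | 0 < j ∧ j ≤ n ∧ r (n + j)}, j ∉ {j | 0 < j ∧ j ≤ n ∧ r (n + j)} :=
      fun j => Nat.notMem_of_lt_sInf
    generalize sInf {j | 0 < j ∧ j ≤ n ∧ r (n + j)} = g at h2 h3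
    obtain ⟨a1, a2, a3⟩ := h2
    have h4 : cnt r (n + g) = cnt r n + 1 := by
      rw [cnt_add (Nat.le_add_right n g), add_left_cancel_iff, card_eq_one]
      refine ⟨n, eq_singleton_iff_unique_mem.mpr ⟨by simp [a1, h1], fun t ht => ?_⟩⟩
      obtain ⟨b1, b2⟩ := mem_filter.mp ht
      obtain ⟨b3, b4⟩ := mem_Ico.mp b1
      obtain ⟨j, rfl⟩ := Nat.exists_eq_add_of_le b3
      by_contra b5
      exact h3 j (by omega) ⟨by omega, by omega, b2⟩
    rw [term, ← h4, cnt, cnt, Nat.nth_count a3, Nat.nth_count h1, ← cnt, ← cnt, h4, pow_succ,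
      Nat.cast_add, add_sub_cancel_left]
    ring
  · simp

lemma Good.infinite (h : Good r) : {n | r n}.Infinite := by
  obtain ⟨N, hN⟩ := eventually_atTop.mp h.1
  refine Set.infinite_of_forall_exists_gt fun n => ?_
  obtain ⟨j, h1, -, h2⟩ := hN (n + N) (Nat.le_add_left _ _)
  exact ⟨_, h2, by omega⟩

lemma Good.conv_iff (h : Good r) (θ : ℝ) :
    Conv (term r θ) ↔ Conv fun n => F r n * (((cnt r n : ℝ) + 1) ^ θ)⁻¹ := by
  rw [MP_00acf4_nt.conv_iff h.infinite]
  exact ⟨conv_congr (h.1.mono fun n hn => by rw [term_eq θ hn, neg_neg]),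
    conv_congr (h.1.mono fun n hn => term_eq θ hn)⟩

lemma conv_mono {θ θ' : ℝ} (h : θ ≤ θ') (hc : Conv (term r θ)) : Conv (term r θ') := by
  rcases h.eq_or_lt with rfl | h
  · exact hc
  obtain ⟨L, hL⟩ := hc
  obtain ⟨b, hb⟩ := hL.norm.bddAbove_range
  have h1 : Antitone fun k : ℕ => (((k : ℝ) + 1) ^ (θ' - θ))⁻¹ := fun m n hmn =>
    inv_anti₀ (by positivity) (by gcongr)
  obtain ⟨L', h2⟩ := cauchySeq_tendsto_of_complete (h1.cauchySeq_series_mul_of_tendsto_zero_of_bounded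
    ((tendsto_rpow_atTop (sub_pos.mpr h)).comp (tendsto_atTop_add_const_right _ 1
      tendsto_natCast_atTop_atTop)).inv_tendsto_atTop fun n => hb ⟨n, rfl⟩)
  refine ⟨L', h2.congr fun N => sum_congr rfl fun k _ => ?_⟩
  rw [smul_eq_mul, term, term, Real.rpow_sub (by positivity)]
  field_simp

lemma Good.conv_term (h : Good r) {θ : ℝ} (hθ : 1 / 2 < θ) : Conv (term r θ) :=
  conv_mono (min_le_left θ 1) ((h.conv_iff _).mpr (h.conv (lt_min hθ (by norm_num)) (min_le_right _ _)))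

lemma Good.DD_zero (h : Good r) {θ : ℝ} (hθ : θ ≤ 1 / 2) (hc : Conv (term r θ)) :
    Tendsto (fun j => DD (2 ^ j) r) atTop (𝓝 0) := by
  obtain ⟨L, h1⟩ := (h.conv_iff _).mp (conv_mono hθ hc)
  obtain ⟨L', h2⟩ := h.diff
  have := (tail (h1.comp two_pow_tendsto)).sub (tail h2)
  rw [sub_zero] at this
  refine this.congr fun j => ?_
  rw [← sum_sub_distrib]
  refine sum_congr rfl fun n _ => ?_
  rw [Real.sqrt_eq_rpow]
  ring

end Pool.Agent.MP_00acf4_nt

end

-- part MP_00acf4_nt.Zero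
section

/-!
The zero-one law and divergence at the critical exponent.
-/

set_option autoImplicit false

namespace Pool.Agent.MP_00acf4_nt

open Finset Function Filter Topology MeasureTheory
open scoped BigOperators

instance : law.IsAddLeftInvariant := ⟨fun g => by
  have := Measure.infinitePi_map_pi (fun p : Pr => ProbabilityTheory.uniformOn (Set.univ : Set (ZMod p)))
    (f := fun p c => g p + c) fun _ => Measurable.of_discrete
  refine this.trans (congrArg _ (funext fun p => ?_))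
  rw [ProbabilityTheory.uniformOn, ProbabilityTheory.cond, Measure.restrict_univ, Measure.map_smul,
    map_add_left_eq_self]⟩

lemma ergodic : Ergodic (fun a : Om => 1 + a) law := by
  refine ergodic_add_left_of_denseRange_nsmul (fun a => mem_closure_iff_nhds.mpr fun U hU => ?_) law
  rw [nhds_pi, Filter.mem_pi'] at hU
  obtain ⟨I, t, h1, h2⟩ := hU
  obtain ⟨u, hu⟩ := crt I 0 1 (fun p _ => p.2.not_dvd_one) a
  refine ⟨u • 1, h2 fun p hp => ?_, u, rfl⟩
  have := (hu u).mpr rfl p hp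
  simp only [zero_add, one_mul] at this
  simpa [this] using mem_of_mem_nhds (h1 p)

open Classical in
lemma ind_one (r : ℕ → Prop) (t : ℕ) : ind r {t} = if r t then 1 else 0 :=
  if_congr (by simp) rfl rfl

lemma ae_shift : ∀ᵐ a ∂law, ∀ᶠ n in atTop, (Sifted (1 + a) (n + 1) ↔ Sifted a n) := by
  have key : ∀ a n, 8 ≤ n → Sifted (1 + a) (n + 1) → Sifted a n := fun a n h8 h => ⟨h8, fun p hp e =>
    h.2 p (hp.trans (Real.log_le_log (by positivity) (by simp))) (by simp [e, add_comm])⟩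
  have hs : Summable fun n => V (n + 3) - V (n + 1 + 3) := summable_of_sum_range_le (c := 1)
    (fun n => sub_nonneg.mpr (V_anti (by omega) (by omega))) fun n => by
      rw [sum_range_sub' fun n => V (n + 3)]
      linarith [V_le_one (0 + 3), V_pos (n + 3)]
  have h := bc (K := fun n => PQ (n + 1)) (f := fun n a => if 8 ≤ n then ind (Sifted a) {n} -
    ind (Sifted (1 + a)) {n + 1} else 0) (ε := fun n => V n - V (n + 1)) (fun n a => ?_)
    ((summable_nat_add_iff 3).mp (by simpa only [add_right_comm _ 3 1] using hs)) ?_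
  · filter_upwards [h] with a ha
    filter_upwards [ha, eventually_ge_atTop 8] with n h1 h2
    refine ⟨key a n h2, fun h3 => by_contra fun h4 => ?_⟩
    simp [ind, h2, h3, h4] at h1
  · simp only [ind_one]
    split_ifs with h1 h2 h3 h3 <;> first | exact absurd (key a n h1 h3) h2 | norm_num
  · filter_upwards [eventually_ge_atTop 8] with n hn
    simp only [if_pos hn]
    have d : ∀ m ≤ n + 1, DependsOn (fun a => ind (Sifted a) {m}) (PQ (n + 1)) := fun m hm =>
      dep (f := (ind · {m})) fun r r' h => by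
        classical
        rw [ind_one, ind_one]
        exact if_congr (h m hm) rfl rfl
    have d' : DependsOn (fun a => ind (Sifted (1 + a)) {n + 1}) (PQ (n + 1)) := fun x y h =>
      d _ le_rfl fun p hp => by simp only [Pi.add_apply, h p hp]
    refine ⟨fun x y h => congrArg₂ (· - ·) (d n n.le_succ h) (d' h), le_of_eq ?_⟩
    rw [Ex_sub, ← integral_eq d', integral_add_left_eq_self fun a => ind (Sifted a) {n + 1},
      integral_eq (d _ le_rfl) 0, ← EE_one hn n.le_succ, ← EE_one (by omega) le_rfl]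
    rfl

lemma ph_zero : Tendsto ph atTop (𝓝 0) := by
  refine (Real.tendsto_sqrt_atTop.comp (tendsto_atTop_add_const_right _ 1
    (tendsto_atTop_atTop_of_monotone MM_mono fun b => ?_))).inv_tendsto_atTop
  obtain ⟨i, h1, h2⟩ := (((tendsto_pow_const_div_const_pow_of_one_lt 1
    (one_lt_two (α := ℝ))).eventually_le_const (show 0 < (|b| + 1)⁻¹ by positivity)).and
      (eventually_ge_atTop 5)).exists
  refine ⟨2 ^ i, le_trans ?_ (MM_ge h2)⟩
  have := inv_anti₀ (by positivity) h1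
  rw [inv_inv, inv_div, pow_one] at this
  linarith [le_abs_self b]

lemma DD_shift {r r' : ℕ → Prop} (h : Good r) (h' : ∀ᶠ n in atTop, (r' (n + 1) ↔ r n))
    (hD : Tendsto (fun j => DD (2 ^ j) r) atTop (𝓝 0)) :
    Tendsto (fun j => DD (2 ^ j) r') atTop (𝓝 0) := by
  classical
  obtain ⟨N, hN⟩ := eventually_atTop.mp (h.1.and h')
  have h1 : ∀ n, N ≤ n → cnt r' (n + 1) + cnt r N = cnt r n + cnt r' (N + 1) := fun n hn => by
    induction n, hn using Nat.le_induction with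
    | base => exact add_comm _ _
    | succ n hn ih =>
      simp only [cnt] at ih ⊢
      rw [Nat.count_succ r' (n + 1), Nat.count_succ r n]
      simp only [(hN n hn).2]
      omega
  set ε : ℝ := (-1) ^ (cnt r N + cnt r' (N + 1)) with hε
  have h2 : ∀ n, N ≤ n → F r' (n + 1) = ε * F r n := fun n hn => by
    rw [F, F, ← mul_assoc, ← pow_add, G_eq n.le_succ (hN n hn).1]
    congr 1
    · exact neg_one_pow_congr (by have := h1 n hn; simp only [Nat.even_iff]; omega)
    · refine if_congr (hN n hn).2 ?_ rfl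
      congr 3
      exact Set.ext fun j => and_congr_right fun _ => and_congr_right fun _ => by
        rw [add_right_comm]; exact (hN _ (by omega)).2
  have T : Tendsto (fun j => 2 ^ j - 1) atTop atTop := (tendsto_sub_atTop_nat 1).comp two_pow_tendsto
  have h3 := (hD.const_mul ε).add (squeeze_zero_norm' (f := fun j => DD (2 ^ j) r' - ε * DD (2 ^ j) r)
    ?_ (by simpa using (ph_zero.comp T).const_mul 2))
  · simpa using h3
  filter_upwards [two_pow_tendsto.eventually_ge_atTop (N + 1)] with j hj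
  obtain ⟨Y, hY⟩ : ∃ Y, 2 ^ j = Y + 1 := ⟨2 ^ j - 1, by omega⟩
  have a1 : 2 ^ j ≤ (2 ^ j) ^ 2 := Nat.le_self_pow two_ne_zero _
  obtain ⟨Z, hZ⟩ : ∃ Z, (2 ^ j) ^ 2 = Z + 1 := ⟨(2 ^ j) ^ 2 - 1, by omega⟩
  have a2 : Y ≤ Z := by omega
  have a3 := sum_Ico_succ_top a2 fun n => ph n * F r n
  rw [sum_eq_sum_Ico_succ_bot (Nat.lt_succ_of_le a2)] at a3
  have a4 : |∑ n ∈ Ico Y Z, (ph n - ph (n + 1)) * F r n| ≤ ph Y - ph Z := by
    refine (abs_sum_le_sum_abs _ _).trans ((sum_le_sum (g := fun n => ph n - ph (n + 1))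
      fun n _ => ?_).trans_eq ?_)
    · rw [abs_mul, abs_F, abs_of_nonneg (sub_nonneg.mpr (ph_anti n.le_succ))]
      exact mul_le_of_le_one_right (sub_nonneg.mpr (ph_anti n.le_succ)) G_le_one
    · have := sum_Ico_sub ph a2
      rw [sum_sub_distrib] at this ⊢
      linarith
  have a5 : ∀ n, |ph n * F r n| ≤ ph n := fun n => by
    rw [abs_mul, abs_F, abs_of_nonneg (ph_nonneg n)]
    exact mul_le_of_le_one_right (ph_nonneg n) G_le_one
  rw [DD, DD, hZ, hY, ← sum_Ico_add' (fun n => ph n * F r' n), sum_congr rfl fun n hn => by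
    rw [h2 n (by have := (mem_Ico.mp hn).1; omega), mul_left_comm], ← mul_sum, ← mul_sub,
    Real.norm_eq_abs, abs_mul, hε, abs_neg_one_pow, one_mul, add_tsub_cancel_right]
  simp only [sub_mul, sum_sub_distrib, abs_le] at a4 a5 ⊢
  constructor <;> linarith [a4.1, a4.2, a5 Y, a5 Z]

theorem ae_not_zero : ∀ᵐ a ∂law, ¬ Tendsto (fun j => DD (2 ^ j) (Sifted a)) atTop (𝓝 0) := by
  have d : ∀ X, DependsOn (fun a => DD X (Sifted a)) (PQ (2 * X ^ 2)) := fun X =>
    dep (f := DD X) fun r r' h => sum_congr rfl fun n hn => by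
      rw [F_congr h (by have := (mem_Ico.mp hn).2; omega)]
  have hm := measurableSet_tendsto (𝓝 (0 : ℝ)) (l := atTop) fun j => meas_of_dep (d (2 ^ j))
  rcases ergodic.ae_empty_or_univ_of_ae_le_preimage hm.nullMeasurableSet
    ((ae_good.and ae_shift).mono fun a ha => DD_shift ha.1 ha.2) with h | h
  · exact h.mono fun a ha h' => (ha ▸ h' : (∅ : Set Om) a)
  obtain ⟨C, C0, hC⟩ := moments
  have h1 := tendsto_integral_of_dominated_convergence (μ := law)
    (F := fun j a => min (DD (2 ^ j) (Sifted a) ^ 2) (4032 * C)) (f := fun _ => 0) (fun _ => 4032 * C)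
    (fun j => (((meas_of_dep (d _)).pow_const 2).min measurable_const).aestronglyMeasurable)
    (integrable_const _) (fun j => ae_of_all _ fun a => by
      rw [Real.norm_of_nonneg (le_min (sq_nonneg _) (by positivity))]
      exact min_le_right _ _) (h.mono fun a ha => by
      have := ((ha.mpr trivial : Tendsto (fun j => DD (2 ^ j) (Sifted a)) atTop (𝓝 0)).pow 2).min
        (tendsto_const_nhds (x := 4032 * C))
      rwa [zero_pow two_ne_zero, min_eq_left (by positivity)] at this)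
  rw [integral_zero] at h1
  obtain ⟨j, ⟨a1, a2, a3⟩, a4⟩ := (((h1.eventually_lt_const (by norm_num : (0 : ℝ) < 1 / 4032)).and
    (two_pow_tendsto.eventually hC)).and (two_pow_tendsto.eventually_ge_atTop 2)).exists
  generalize 2 ^ j = X at a1 a2 a3 a4
  rw [integral_eq (K := PQ (X ^ 3)) (fun x y hxy => by
    rw [show DD X (Sifted x) = _ from d X fun p hp => hxy p (mem_PQ.mpr ((mem_PQ.mp hp).trans
      (by nlinarith)))]) 0] at a1
  have a5 : EE (X ^ 3) (fun r => DD X r ^ 2 - (4032 * C)⁻¹ * DD X r ^ 4) ≤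
      EE (X ^ 3) fun r => min (DD X r ^ 2) (4032 * C) := EE_mono fun b => by
    refine le_min (sub_le_self _ (by positivity)) ?_
    rw [sub_le_iff_le_add, ← sub_le_iff_le_add', le_inv_mul_iff₀ (by positivity)]
    nlinarith [sq_nonneg (DD X (Sifted b) ^ 2 - 4032 * C), mul_nonneg C0.le (sq_nonneg (DD X (Sifted b)))]
  rw [EE_sub, EE_mul] at a5
  have a6 := mul_le_mul_of_nonneg_left a3 (by positivity : 0 ≤ (4032 * C)⁻¹)
  rw [show (4032 * C)⁻¹ * C = 1 / 4032 by field_simp] at a6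
  exact absurd (a5.trans_lt a1) (by linarith)

end Pool.Agent.MP_00acf4_nt

end
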